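import Pool.Agent.Work.MP_0f91f8_co.SC.Stmts
import Pool.Agent.Work.MP_0f91f8_co.EF.FinF

/-!
# Block SC, item Cf: compactness, the finite form
-/

set_option autoImplicit false

namespace Pool.Agent.F0f91f8.SC

open Filter Topology ComplexConjugate MeasureTheory
open Pool.Agent.F0f91f8.HD Pool.Agent.F0f91f8.RC Pool.Agent.F0f91f8.KR Pool.Agent.F0f91f8.FC
open Pool.Agent.F0f91f8.PC
open Pool.Agent.Work.MP_0f91f8_co.EF (IsFo)
open scoped BigOperators

namespace ICf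

/-- A fast increasing sequence of primes. -/
theorem exq (b : ℕ → ℕ) : ∃ q : ℕ → ℕ, (∀ j, (q j).Prime) ∧ StrictMono q ∧ ∀ j, b j < q j := by
  choose p hp1 hp2 using Nat.exists_infinite_primes
  obtain ⟨q, hq0, hq1⟩ : ∃ q : ℕ → ℕ, q 0 = p (b 0 + 1) ∧
      ∀ j, q (j + 1) = p (q j + 1 + b (j + 1)) :=
    ⟨fun j => Nat.rec (p (b 0 + 1)) (fun j x => p (x + 1 + b (j + 1))) j, rfl, fun _ => rfl⟩
  refine ⟨q, fun j => ?_, strictMono_nat_of_lt_succ fun j => ?_, fun j => ?_⟩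
  · rcases j with _ | j
    · rw [hq0]; exact hp2 _
    · rw [hq1]; exact hp2 _
  · rw [hq1]
    have := hp1 (q j + 1 + b (j + 1))
    omega
  · rcases j with _ | j
    · rw [hq0]
      have := hp1 (b 0 + 1)
      omega
    · rw [hq1]
      have := hp1 (q j + 1 + b (j + 1))
      omega

/-- The averages. -/
noncomputable def av (F : ℕ → Finset ℕ) (q : ℕ → ℕ) (f : ℕ → ℝ) (j : ℕ) : ℝ :=
  (∑ s ∈ F j, f (q j * s)) / ((F j).card : ℝ)

theorem av_le {F : ℕ → Finset ℕ} (hne : ∀ j, (F j).Nonempty) (q : ℕ → ℕ) {f : ℕ → ℝ} {C : ℝ}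
    (hC : ∀ n, |f n| ≤ C) (j : ℕ) : |av F q f j| ≤ C := by
  have hc : (0 : ℝ) < ((F j).card : ℝ) := by exact_mod_cast Finset.card_pos.2 (hne j)
  unfold av
  rw [abs_div, abs_of_pos hc, div_le_iff₀ hc]
  calc |∑ s ∈ F j, f (q j * s)| ≤ ∑ s ∈ F j, |f (q j * s)| := Finset.abs_sum_le_sum_abs _ _
    _ ≤ ∑ _s ∈ F j, C := Finset.sum_le_sum fun s _ => hC _
    _ = C * ((F j).card : ℝ) := by rw [Finset.sum_const, nsmul_eq_mul, mul_comm]

theorem lim {F : ℕ → Finset ℕ} (hne : ∀ j, (F j).Nonempty) (q : ℕ → ℕ) (U : Ultrafilter ℕ)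
    (f : ℕ → ℝ) (hf : BdR f) : ∃ x, Tendsto (av F q f) U (𝓝 x) := by
  obtain ⟨C, hC⟩ := hf
  obtain ⟨x, -, h⟩ := isCompact_Icc.ultrafilter_le_nhds (s := Set.Icc (-C) C)
    (U.map (av F q f)) (by
      rw [le_principal_iff, Ultrafilter.coe_map, mem_map]
      exact Eventually.of_forall fun j => abs_le.1 (av_le hne q hC j))
  exact ⟨x, h⟩

/-- Shifting the summation set. -/
theorem shift_sum (F : Finset ℕ) (g : ℕ → ℝ) (C : ℝ) (hg : ∀ n, |g n| ≤ C) (k : ℕ) (hk : 0 < k) :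
    |∑ s ∈ F, g (k * s) - ∑ s ∈ F, g s| ≤
      2 * C * ((F.card : ℝ) - ((F.filter fun s => k * s ∈ F).card : ℝ)) := by
  classical
  have hinj : Function.Injective fun s : ℕ => k * s := fun _ _ h => Nat.eq_of_mul_eq_mul_left hk h
  obtain ⟨G, hG⟩ : ∃ G, G = F.filter fun s => k * s ∈ F := ⟨_, rfl⟩
  obtain ⟨H, hH⟩ : ∃ H, H = G.image fun s => k * s := ⟨_, rfl⟩
  rw [← hG]
  have hGF : G ⊆ F := by rw [hG]; exact Finset.filter_subset _ _
  have hHF : H ⊆ F := by
    intro t ht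
    rw [hH, Finset.mem_image] at ht
    obtain ⟨s, hs, rfl⟩ := ht
    rw [hG, Finset.mem_filter] at hs
    exact hs.2
  have hHG : H.card = G.card := by rw [hH]; exact Finset.card_image_of_injective _ hinj
  have hsum : ∑ s ∈ G, g (k * s) = ∑ t ∈ H, g t := by
    rw [hH, Finset.sum_image fun a _ b _ h => hinj h]
  have h1 := Finset.sum_sdiff hGF (f := fun s => g (k * s))
  have h2 := Finset.sum_sdiff hHF (f := g)
  have h3 : |∑ s ∈ F \ G, g (k * s)| ≤ C * ((F.card : ℝ) - (G.card : ℝ)) := by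
    calc |∑ s ∈ F \ G, g (k * s)| ≤ ∑ s ∈ F \ G, |g (k * s)| := Finset.abs_sum_le_sum_abs _ _
      _ ≤ ∑ _s ∈ F \ G, C := Finset.sum_le_sum fun s _ => hg _
      _ = C * ((F.card : ℝ) - (G.card : ℝ)) := by
        rw [Finset.sum_const, nsmul_eq_mul, mul_comm, Finset.card_sdiff_of_subset hGF,
          Nat.cast_sub (Finset.card_le_card hGF)]
  have h4 : |∑ t ∈ F \ H, g t| ≤ C * ((F.card : ℝ) - (G.card : ℝ)) := by
    calc |∑ t ∈ F \ H, g t| ≤ ∑ t ∈ F \ H, |g t| := Finset.abs_sum_le_sum_abs _ _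
      _ ≤ ∑ _t ∈ F \ H, C := Finset.sum_le_sum fun s _ => hg _
      _ = C * ((F.card : ℝ) - (G.card : ℝ)) := by
        rw [Finset.sum_const, nsmul_eq_mul, mul_comm, Finset.card_sdiff_of_subset hHF,
          Nat.cast_sub (Finset.card_le_card hHF), hHG]
  have h5 : ∑ s ∈ F, g (k * s) - ∑ s ∈ F, g s = ∑ s ∈ F \ G, g (k * s) - ∑ t ∈ F \ H, g t := by
    rw [← h1, ← h2, hsum]
    ring
  rw [h5]
  calc |∑ s ∈ F \ G, g (k * s) - ∑ t ∈ F \ H, g t|
      ≤ |∑ s ∈ F \ G, g (k * s)| + |∑ t ∈ F \ H, g t| := abs_sub _ _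
    _ ≤ C * ((F.card : ℝ) - (G.card : ℝ)) + C * ((F.card : ℝ) - (G.card : ℝ)) := add_le_add h3 h4
    _ = 2 * C * ((F.card : ℝ) - (G.card : ℝ)) := by ring

/-- The limit mean. -/
theorem exm {F : ℕ → Finset ℕ} (hFo : IsFo F) (q : ℕ → ℕ) (hq : ∀ j, 0 < q j) :
    ∃ (U : Ultrafilter ℕ) (m : (ℕ → ℝ) → ℝ), (U : Filter ℕ) ≤ atTop ∧ IsMean m ∧
      ∀ f, BdR f → Tendsto (av F q f) U (𝓝 (m f)) := by
  classical
  have hne := hFo.ne
  have hc : ∀ j, (0 : ℝ) < ((F j).card : ℝ) := fun j => by exact_mod_cast Finset.card_pos.2 (hne j)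
  obtain ⟨U, hU⟩ : ∃ U : Ultrafilter ℕ, (U : Filter ℕ) ≤ atTop :=
    ⟨Ultrafilter.of atTop, Ultrafilter.of_le atTop⟩
  obtain ⟨m, hm⟩ : ∃ m : (ℕ → ℝ) → ℝ, ∀ f, BdR f → Tendsto (av F q f) U (𝓝 (m f)) := by
    refine ⟨fun f => if h : BdR f then (lim hne q U f h).choose else 0, fun f hf => ?_⟩
    have h1 : (if h : BdR f then (lim hne q U f h).choose else 0) = (lim hne q U f hf).choose :=
      dif_pos hf
    have h2 := (lim hne q U f hf).choose_spec
    rw [← h1] at h2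
    exact h2
  refine ⟨U, m, hU, ⟨fun f g hf hg => ?_, fun c f hf => ?_, fun f hf h0 => ?_, ?_,
    fun k hk f hf => ?_⟩, hm⟩
  · have hfg : BdR fun n => f n + g n := by
      obtain ⟨C, hC⟩ := hf
      obtain ⟨D, hD⟩ := hg
      exact ⟨C + D, fun n => (abs_add_le _ _).trans (add_le_add (hC n) (hD n))⟩
    refine tendsto_nhds_unique (hm _ hfg) (((hm f hf).add (hm g hg)).congr fun j => ?_)
    unfold av
    rw [← add_div, ← Finset.sum_add_distrib]
  · have hcf : BdR fun n => c * f n := by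
      obtain ⟨C, hC⟩ := hf
      exact ⟨|c| * C, fun n => by
        rw [abs_mul]
        exact mul_le_mul_of_nonneg_left (hC n) (abs_nonneg c)⟩
    refine tendsto_nhds_unique (hm _ hcf) (((hm f hf).const_mul c).congr fun j => ?_)
    unfold av
    rw [← mul_div_assoc, Finset.mul_sum]
  · refine ge_of_tendsto (hm f hf) (Eventually.of_forall fun j => ?_)
    unfold av
    refine div_nonneg (Finset.sum_nonneg fun s hs => h0 _ ?_) (hc j).le
    exact Nat.mul_pos (hq j) (hFo.pos j s hs)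
  · have h1 : BdR fun _ => (1 : ℝ) := ⟨1, fun n => by rw [abs_one]⟩
    refine tendsto_nhds_unique (hm _ h1) (tendsto_const_nhds.congr fun j => ?_)
    unfold av
    rw [Finset.sum_const, nsmul_eq_mul, mul_one, div_self (hc j).ne']
  · obtain ⟨C, hC⟩ := hf
    have hfk : BdR fun n => f (k * n) := ⟨C, fun n => hC _⟩
    have h1 := (hFo.lim k hk).mono_left hU
    have h2 : Tendsto (fun j => 2 * C * (1 - (((F j).filter fun n => k * n ∈ F j).card : ℝ) /
        ((F j).card : ℝ))) U (𝓝 0) := by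
      have h3 := (h1.const_sub 1).const_mul (2 * C)
      rw [sub_self, mul_zero] at h3
      exact h3
    have h4 : Tendsto (fun j => av F q (fun n => f (k * n)) j - av F q f j) U (𝓝 0) := by
      refine squeeze_zero_norm (fun j => ?_) h2
      rw [Real.norm_eq_abs]
      have h5 := shift_sum (F j) (fun s => f (q j * s)) C (fun n => hC _) k hk
      unfold av
      rw [← sub_div, abs_div, abs_of_pos (hc j), div_le_iff₀ (hc j)]
      have h6 : ∑ s ∈ F j, f (k * (q j * s)) = ∑ s ∈ F j, f (q j * (k * s)) :=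
        Finset.sum_congr rfl fun s _ => by rw [Nat.mul_left_comm]
      rw [h6]
      refine h5.trans (le_of_eq ?_)
      have := (hc j).ne'
      field_simp
    have h7 := (hm _ hfk).sub (hm f ⟨C, hC⟩)
    have h8 := tendsto_nhds_unique h4 h7
    linarith

theorem bdR_ind (S : Set ℕ) : BdR (ind S) := by
  classical
  refine ⟨1, fun n => ?_⟩
  unfold ind
  rw [Set.indicator_apply]
  split_ifs
  · rw [abs_one]
  · rw [abs_zero]; exact zero_le_one

/-- The average of an indicator function. -/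
theorem av_ind (F : ℕ → Finset ℕ) (q : ℕ → ℕ) (S : Set ℕ) (j : ℕ) (T : Finset ℕ)
    (hT : ∀ s, s ∈ T ↔ s ∈ F j ∧ q j * s ∈ S) :
    av F q (ind S) j = (T.card : ℝ) / ((F j).card : ℝ) := by
  classical
  have h1 : ∑ s ∈ F j, ind S (q j * s) = (T.card : ℝ) := by
    have h2 : T = (F j).filter fun s => q j * s ∈ S := by
      ext s
      rw [Finset.mem_filter]
      exact hT s
    rw [h2, Finset.card_filter]
    push_cast
    refine Finset.sum_congr rfl fun s _ => ?_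
    unfold ind
    rw [Set.indicator_apply]
  unfold av
  rw [h1]

/-- Membership in the union of the dilated sets. -/
theorem mem_iff {F A : ℕ → Finset ℕ} (hpos : ∀ j, ∀ n ∈ F j, 0 < n) (hA : ∀ j, A j ⊆ F j)
    {q : ℕ → ℕ} (hqp : ∀ j, (q j).Prime) (hqm : StrictMono q)
    (hqj : ∀ j, j < q j) (hqF : ∀ i j, i ≤ j → ∀ n ∈ F i, n < q j) (j x : ℕ) (hx : 0 < x)
    (hxj : x ≤ j) (s : ℕ) (hs : s ∈ F j) :
    x * (q j * s) ∈ {n | ∃ i, ∃ a ∈ A i, n = q i * a} ↔ x * s ∈ A j := by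
  constructor
  · rintro ⟨i, a, ha, h⟩
    rcases lt_trichotomy i j with hij | hij | hij
    · exfalso
      have h1 : q j ∣ q i * a := ⟨x * s, by rw [← h]; ring⟩
      rcases (hqp j).dvd_mul.1 h1 with h2 | h2
      · exact absurd ((Nat.prime_dvd_prime_iff_eq (hqp j) (hqp i)).1 h2) (hqm hij).ne'
      · have h3 := Nat.le_of_dvd (hpos i a (hA i ha)) h2
        have h4 := hqF i j hij.le a (hA i ha)
        omega
    · subst hij
      have h1 : q i * (x * s) = q i * a := by rw [← h]; ring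
      have h2 := Nat.eq_of_mul_eq_mul_left (hqp i).pos h1
      rw [h2]
      exact ha
    · exfalso
      have h1 : q i ∣ x * (q j * s) := ⟨a, h⟩
      rcases (hqp i).dvd_mul.1 h1 with h2 | h2
      · have h3 := Nat.le_of_dvd hx h2
        have h4 := hqj i
        omega
      · rcases (hqp i).dvd_mul.1 h2 with h3 | h3
        · exact absurd ((Nat.prime_dvd_prime_iff_eq (hqp i) (hqp j)).1 h3) (hqm hij).ne'
        · have h4 := Nat.le_of_dvd (hpos j s hs) h3
          have h5 := hqF j i hij.le s hs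
          omega
  · intro h
    exact ⟨j, x * s, h, by ring⟩

end ICf

open ICf in
/-- [Cf] compactness. -/
theorem pr_Cf (hM : SCM) : StCf := by
  classical
  by_contra hcon
  have hcon' : ∀ j : ℕ, ∃ F : Finset ℕ, F.Nonempty ∧ (∀ n ∈ F, 0 < n) ∧
      (∀ p ≤ j, p.Prime → (1 - 1 / ((j : ℝ) + 1)) * (F.card : ℝ) ≤
        ((F.filter fun n => p * n ∈ F).card : ℝ)) ∧
      ∃ A : Finset ℕ, A ⊆ F ∧ 23 * F.card ≤ 47 * A.card ∧ ∀ x y z : ℕ, 0 < x → 0 < y → 0 < z →
        x ≤ j → y ≤ j → z ≤ j → x ^ 2 + y ^ 2 = z ^ 2 →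
        ((F.filter fun n => x * n ∈ A ∧ y * n ∈ A ∧ z * n ∈ A).card : ℝ) <
          1 / ((j : ℝ) + 1) * (F.card : ℝ) := by
    intro j
    by_contra hno
    apply hcon
    refine ⟨j, 1 / ((j : ℝ) + 1), 1 / ((j : ℝ) + 1), by positivity, by positivity,
      fun F a1 a2 a3 A a4 a5 => ?_⟩
    by_contra a6
    refine hno ⟨F, a1, a2, a3, A, a4, a5, fun x y z h1 h2 h3 h4 h5 h6 h7 => ?_⟩
    by_contra a7
    exact a6 ⟨x, y, z, h1, h2, h3, h4, h5, h6, h7, not_lt.1 a7⟩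
  choose F hne hpos hinv A hA hAc hno using hcon'
  have hFo : IsFo F :=
    Pool.Agent.Work.MP_0f91f8_co.EF.XFinF.isFo_of hne hpos fun j p h1 h2 => hinv j p h1 h2
  have hc : ∀ j, (0 : ℝ) < ((F j).card : ℝ) := fun j => by exact_mod_cast Finset.card_pos.2 (hne j)
  obtain ⟨q, hqp, hqm, hqb⟩ := exq (fun j => j + ∑ i ∈ Finset.range (j + 1), ∑ n ∈ F i, n)
  have hqj : ∀ j, j < q j := fun j => lt_of_le_of_lt (Nat.le_add_right _ _) (hqb j)
  have hqF : ∀ i j, i ≤ j → ∀ n ∈ F i, n < q j := by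
    intro i j hij n hn
    have h1 : n ≤ ∑ n ∈ F i, n := Finset.single_le_sum (f := fun n : ℕ => n)
      (fun _ _ => Nat.zero_le _) hn
    have h2 : ∑ n ∈ F i, n ≤ ∑ i ∈ Finset.range (j + 1), ∑ n ∈ F i, n :=
      Finset.single_le_sum (f := fun i => ∑ n ∈ F i, n) (fun _ _ => Nat.zero_le _)
        (Finset.mem_range.2 (Nat.lt_succ_of_le hij))
    exact lt_of_le_of_lt (h1.trans (h2.trans (Nat.le_add_left _ _))) (hqb j)
  obtain ⟨U, m, hU, hm, hlim⟩ := exm hFo q fun j => (hqp j).pos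
  obtain ⟨S, hS⟩ : ∃ S : Set ℕ, S = {n | ∃ i, ∃ a ∈ A i, n = q i * a} := ⟨_, rfl⟩
  have hmem : ∀ j x : ℕ, 0 < x → x ≤ j → ∀ s ∈ F j, (x * (q j * s) ∈ S ↔ x * s ∈ A j) := by
    intro j x hx hxj s hs
    rw [hS]
    exact mem_iff hpos hA hqp hqm hqj hqF j x hx hxj s hs
  have hden : 23 / 47 ≤ m (ind S) := by
    refine ge_of_tendsto (hlim _ (bdR_ind S)) ?_
    filter_upwards [hU (eventually_ge_atTop 1)] with j hj
    rw [av_ind F q S j (A j) fun s => ?_]
    · rw [le_div_iff₀ (hc j)]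
      have h1 : ((23 * (F j).card : ℕ) : ℝ) ≤ ((47 * (A j).card : ℕ) : ℝ) := by
        exact_mod_cast hAc j
      push_cast at h1
      linarith
    · constructor
      · intro hs
        refine ⟨hA j hs, ?_⟩
        have h1 := (hmem j 1 one_pos hj s (hA j hs)).2 (by rw [one_mul]; exact hs)
        rw [one_mul] at h1
        exact h1
      · rintro ⟨hs, h⟩
        have h1 := (hmem j 1 one_pos hj s hs).1 (by rw [one_mul]; exact h)
        rw [one_mul] at h1
        exact h1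
  obtain ⟨x, y, z, hx, hy, hz, hxyz, hp⟩ := hM m hm S hden
  have h0 : Tendsto (fun j : ℕ => 1 / ((j : ℝ) + 1)) U (𝓝 0) :=
    tendsto_one_div_add_atTop_nhds_zero_nat.mono_left hU
  have hle : m (ind {n | x * n ∈ S ∧ y * n ∈ S ∧ z * n ∈ S}) ≤ 0 := by
    refine le_of_tendsto_of_tendsto (hlim _ (bdR_ind _)) h0 ?_
    filter_upwards [hU (eventually_ge_atTop (x + y + z))] with j hj
    rw [av_ind F q _ j ((F j).filter fun n => x * n ∈ A j ∧ y * n ∈ A j ∧ z * n ∈ A j)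
      fun s => ?_]
    · rw [div_le_iff₀ (hc j)]
      exact (hno j x y z hx hy hz (by omega) (by omega) (by omega) hxyz).le
    · rw [Finset.mem_filter]
      constructor
      · rintro ⟨hs, h1, h2, h3⟩
        exact ⟨hs, (hmem j x hx (by omega) s hs).2 h1, (hmem j y hy (by omega) s hs).2 h2,
          (hmem j z hz (by omega) s hs).2 h3⟩
      · rintro ⟨hs, h1, h2, h3⟩
        exact ⟨hs, (hmem j x hx (by omega) s hs).1 h1, (hmem j y hy (by omega) s hs).1 h2,
          (hmem j z hz (by omega) s hs).1 h3⟩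
  linarith

end Pool.Agent.F0f91f8.SC
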