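import Pool.Agent.Work.MP_0f91f8_co.SC.Stmts

/-!
# Item Dc of block SC: the dichotomy, pointwise
-/

set_option autoImplicit false

namespace Pool.Agent.F0f91f8.SC

open Filter Topology ComplexConjugate MeasureTheory
open Pool.Agent.F0f91f8.HD Pool.Agent.F0f91f8.RC Pool.Agent.F0f91f8.KR Pool.Agent.F0f91f8.FC
open Pool.Agent.F0f91f8.PC
open scoped BigOperators

namespace IDc

variable {X : Type} [MeasurableSpace X] {μ : Measure X}

lemma bm_int [IsProbabilityMeasure μ] {f : X → ℝ} (hf : BM f) : Integrable f μ := by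
  obtain ⟨hm, C, hC⟩ := hf
  refine Integrable.of_bound (C := C) hm.aestronglyMeasurable ?_
  exact Eventually.of_forall fun t => by rw [Real.norm_eq_abs]; exact hC t

lemma bm_mul {f g : X → ℝ} (hf : BM f) (hg : BM g) : BM (fun t => f t * g t) := by
  obtain ⟨hm, C, hC⟩ := hf
  obtain ⟨hn, D, hD⟩ := hg
  refine ⟨hm.mul hn, C * D, fun t => ?_⟩
  rw [abs_mul]
  exact mul_le_mul (hC t) (hD t) (abs_nonneg _) ((abs_nonneg _).trans (hC t))

lemma bm_sub {f g : X → ℝ} (hf : BM f) (hg : BM g) : BM (fun t => f t - g t) := by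
  obtain ⟨hm, C, hC⟩ := hf
  obtain ⟨hn, D, hD⟩ := hg
  refine ⟨hm.sub hn, C + D, fun t => ?_⟩
  exact (abs_sub _ _).trans (add_le_add (hC t) (hD t))

lemma bm_smul {f : X → ℝ} (c : ℝ) (hf : BM f) : BM (fun t => c * f t) := by
  obtain ⟨hm, C, hC⟩ := hf
  refine ⟨hm.const_mul c, |c| * C, fun t => ?_⟩
  rw [abs_mul]
  exact mul_le_mul_of_nonneg_left (hC t) (abs_nonneg _)

/-- the comparison of two invariant functions -/
lemma key [IsProbabilityMeasure μ] (S : Sys μ) (g e : X → ℝ) (hg : BM g) (he : BM e)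
    (hgi : ∀ n : ℕ, 0 < n → (fun t => g (S.T n t)) =ᵐ[μ] g)
    (hei : ∀ n : ℕ, 0 < n → (fun t => e (S.T n t)) =ᵐ[μ] e)
    (h : ∀ φ : X → ℝ, InvF S φ → (∀ t, φ t = 0 ∨ φ t = 1) →
      ∫ t, φ t * g t ∂μ ≤ ∫ t, φ t * e t ∂μ) :
    ∀ᵐ t ∂μ, g t ≤ e t := by
  classical
  set N : Set X := {t | e t < g t} with hN
  have hNm : MeasurableSet N := measurableSet_lt he.1 hg.1
  set φ : X → ℝ := N.indicator (fun _ => (1 : ℝ)) with hφ
  have hφ1 : ∀ t, t ∈ N → φ t = 1 := fun t ht => by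
    rw [hφ]; exact Set.indicator_of_mem ht _
  have hφ0 : ∀ t, t ∉ N → φ t = 0 := fun t ht => by
    rw [hφ]; exact Set.indicator_of_notMem ht _
  have h01 : ∀ t, φ t = 0 ∨ φ t = 1 := fun t => by
    by_cases ht : t ∈ N
    · exact Or.inr (hφ1 t ht)
    · exact Or.inl (hφ0 t ht)
  have hφb : BM φ := by
    refine ⟨measurable_const.indicator hNm, 1, fun t => ?_⟩
    rcases h01 t with h0 | h1
    · rw [h0]; norm_num
    · rw [h1]; norm_num
  have hφi : InvF S φ := by
    refine ⟨hφb, fun n hn => ?_⟩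
    filter_upwards [hgi n hn, hei n hn] with t h1 h2
    by_cases ht : t ∈ N
    · have ht' : S.T n t ∈ N := by
        have : e t < g t := ht
        change e (S.T n t) < g (S.T n t)
        rw [h1, h2]; exact this
      rw [hφ1 _ ht, hφ1 _ ht']
    · have ht' : S.T n t ∉ N := by
        intro hc
        apply ht
        have hc' : e (S.T n t) < g (S.T n t) := hc
        rw [h1, h2] at hc'
        exact hc'
      rw [hφ0 _ ht, hφ0 _ ht']
  have hle := h φ hφi h01
  have hi1 : Integrable (fun t => φ t * g t) μ := bm_int (bm_mul hφb hg)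
  have hi2 : Integrable (fun t => φ t * e t) μ := bm_int (bm_mul hφb he)
  have hnn : ∀ t, 0 ≤ φ t * g t - φ t * e t := fun t => by
    by_cases ht : t ∈ N
    · have h3 : e t < g t := ht
      rw [hφ1 t ht]; linarith
    · rw [hφ0 t ht]; simp
  have hint : ∫ t, (φ t * g t - φ t * e t) ∂μ = 0 := by
    apply le_antisymm
    · rw [integral_sub hi1 hi2]; linarith
    · exact integral_nonneg hnn
  have h0 := (integral_eq_zero_iff_of_nonneg hnn (hi1.sub hi2)).1 hint
  filter_upwards [h0] with t ht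
  by_contra hc
  have htN : t ∈ N := not_le.1 hc
  have ht' : φ t * g t - φ t * e t = 0 := ht
  rw [hφ1 t htN] at ht'
  have h3 : e t < g t := htN
  linarith

end IDc

open IDc in
/-- Item [Dc] -/
theorem pr_Dc (hDn : StDn) : StDc := by
  intro X _ μ _ S A hA hPF L hL J JL hJ hJL
  have hJb : BM J := hJ.inv.1
  have hJLb : BM JL := hJL.inv.1
  have hgb : BM (fun t => JL t ^ 2 - JL t) := by
    have h1 := bm_sub (bm_mul hJLb hJLb) hJLb
    have h2 : (fun t => JL t * JL t - JL t) = fun t => JL t ^ 2 - JL t := by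
      funext t; ring
    rw [h2] at h1; exact h1
  have heb : BM (fun t => 3 * (L.card : ℝ) * (J t - J t ^ 2)) := by
    have h1 := bm_smul (3 * (L.card : ℝ)) (bm_sub hJb (bm_mul hJb hJb))
    have h2 : (fun t => 3 * (L.card : ℝ) * (J t - J t * J t)) =
        fun t => 3 * (L.card : ℝ) * (J t - J t ^ 2) := by
      funext t; ring
    rw [h2] at h1; exact h1
  have hgb' : BM (fun t => -(JL t ^ 2 - JL t)) := by
    have h1 := bm_smul (-1) hgb
    have h2 : (fun t => -1 * (JL t ^ 2 - JL t)) = fun t => -(JL t ^ 2 - JL t) := by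
      funext t; ring
    rw [h2] at h1; exact h1
  have hgi : ∀ n : ℕ, 0 < n →
      (fun t => (fun t => JL t ^ 2 - JL t) (S.T n t)) =ᵐ[μ] fun t => JL t ^ 2 - JL t := by
    intro n hn
    filter_upwards [hJL.inv.2 n hn] with t ht
    rw [ht]
  have hgi' : ∀ n : ℕ, 0 < n →
      (fun t => (fun t => -(JL t ^ 2 - JL t)) (S.T n t)) =ᵐ[μ] fun t => -(JL t ^ 2 - JL t) := by
    intro n hn
    filter_upwards [hJL.inv.2 n hn] with t ht
    rw [ht]
  have hei : ∀ n : ℕ, 0 < n →
      (fun t => (fun t => 3 * (L.card : ℝ) * (J t - J t ^ 2)) (S.T n t)) =ᵐ[μ]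
        fun t => 3 * (L.card : ℝ) * (J t - J t ^ 2) := by
    intro n hn
    filter_upwards [hJ.inv.2 n hn] with t ht
    rw [ht]
  have hE : ∀ φ : X → ℝ, ∫ t, φ t * (3 * (L.card : ℝ) * (J t - J t ^ 2)) ∂μ =
      3 * (L.card : ℝ) * ∫ t, φ t * (J t - J t ^ 2) ∂μ := by
    intro φ
    rw [← integral_const_mul]
    refine integral_congr_ae (Eventually.of_forall fun t => ?_)
    simp only
    ring
  have a1 : ∀ᵐ t ∂μ, JL t ^ 2 - JL t ≤ 3 * (L.card : ℝ) * (J t - J t ^ 2) := by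
    refine key S _ _ hgb heb hgi hei fun φ hφ h01 => ?_
    rw [hE φ]
    exact (le_abs_self _).trans (hDn X _ μ inferInstance S A hA hPF L hL J JL hJ hJL φ hφ h01)
  have a2 : ∀ᵐ t ∂μ, -(JL t ^ 2 - JL t) ≤ 3 * (L.card : ℝ) * (J t - J t ^ 2) := by
    refine key S _ _ hgb' heb hgi' hei fun φ hφ h01 => ?_
    rw [hE φ]
    have h3 : ∫ t, φ t * -(JL t ^ 2 - JL t) ∂μ = -∫ t, φ t * (JL t ^ 2 - JL t) ∂μ := by
      rw [← integral_neg]
      refine integral_congr_ae (Eventually.of_forall fun t => ?_)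
      simp only
      ring
    rw [h3]
    exact (neg_le_abs _).trans (hDn X _ μ inferInstance S A hA hPF L hL J JL hJ hJL φ hφ h01)
  filter_upwards [a1, a2] with t h1 h2
  exact abs_le.2 ⟨by linarith, h1⟩

end Pool.Agent.F0f91f8.SC
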