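import Pool.Agent.Work.MP_0f91f8_co.SC.Stmts

/-!
# Block SC (MP_0f91f8_co), item Dn: the dichotomy, integrated
-/

set_option autoImplicit false

namespace Pool.Agent.F0f91f8.SC

open Filter Topology ComplexConjugate MeasureTheory
open Pool.Agent.F0f91f8.HD Pool.Agent.F0f91f8.RC Pool.Agent.F0f91f8.KR Pool.Agent.F0f91f8.FC
open Pool.Agent.F0f91f8.PC
open scoped BigOperators

namespace IDn

section
variable {X : Type} [MeasurableSpace X] {μ : Measure X}

/-- products of bounded measurable functions -/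
theorem bm_mul {f g : X → ℝ} (hf : BM f) (hg : BM g) : BM fun t => f t * g t := by
  obtain ⟨mf, C, hC⟩ := hf
  obtain ⟨mg, D, hD⟩ := hg
  refine ⟨mf.mul mg, C * D, fun t => ?_⟩
  rw [abs_mul]
  exact mul_le_mul (hC t) (hD t) (abs_nonneg _) ((abs_nonneg _).trans (hC t))

/-- bounded measurable functions are integrable -/
theorem bm_int [IsProbabilityMeasure μ] {f : X → ℝ} (hf : BM f) : Integrable f μ := by
  obtain ⟨mf, C, hC⟩ := hf
  exact Integrable.of_bound mf.aestronglyMeasurable C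
    (Filter.Eventually.of_forall fun t => by rw [Real.norm_eq_abs]; exact hC t)

omit [MeasurableSpace X] in
theorem vv_abs (A : Set X) (t : X) : |vv A t| = 1 := by
  unfold vv
  by_cases h : t ∈ A
  · rw [Set.indicator_of_mem h]; norm_num
  · rw [Set.indicator_of_notMem h]; norm_num

theorem vv_meas {A : Set X} (hA : MeasurableSet A) : Measurable (vv A) := by
  unfold vv
  exact measurable_const.sub (measurable_const.mul (measurable_const.indicator hA))

theorem bm_VL (S : Sys μ) {A : Set X} (hA : MeasurableSet A) (L : Finset ℕ) :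
    BM (VL S A L) := by
  refine ⟨?_, 1, fun t => ?_⟩
  · unfold VL
    exact Finset.measurable_prod L fun n _ => (vv_meas hA).comp (S.T n).measurable
  · unfold VL
    rw [Finset.abs_prod, Finset.prod_congr rfl fun n _ => vv_abs A (S.T n t)]
    simp

end

end IDn

/-- **Dn** -/
theorem pr_Dn (hRa : StRa) (hJl : StJl) (hLx : StLx) (hWd : StWd) (hRw : StRw) : StDn := by
  intro X mX μ hμ S A hA hPF L hL J JL hJ hJL φ hφ h01
  have h0 : ∀ t, 0 ≤ φ t := fun t => by rcases h01 t with h | h <;> rw [h] <;> norm_num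
  have hsq : ∀ t, φ t * φ t = φ t := fun t => by rcases h01 t with h | h <;> rw [h] <;> norm_num
  have hbV : BM (VL S A L) := IDn.bm_VL S hA L
  obtain ⟨-, -, hmulJ, -⟩ := hJl X mX μ hμ S
  have hf : BM fun t => φ t * VL S A L t := IDn.bm_mul hφ.1 hbV
  have hfJ : IsJ S (fun t => φ t * VL S A L t) (fun t => φ t * JL t) := hmulJ φ _ JL hbV hφ hJL
  -- the integrals
  have hi1 : ∫ t, (φ t * JL t) * (φ t * JL t) ∂μ = ∫ t, φ t * JL t ^ 2 ∂μ := by
    refine integral_congr_ae (Filter.Eventually.of_forall fun t => ?_)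
    show (φ t * JL t) * (φ t * JL t) = φ t * JL t ^ 2
    have := hsq t
    calc (φ t * JL t) * (φ t * JL t) = (φ t * φ t) * JL t ^ 2 := by ring
      _ = φ t * JL t ^ 2 := by rw [this]
  have hi2 : ∫ t, φ t * VL S A L t ∂μ = ∫ t, φ t * JL t ∂μ := hJL.int φ hφ
  have hbJ2 : BM fun t => φ t * JL t ^ 2 := by
    have := IDn.bm_mul hφ.1 (IDn.bm_mul hJL.inv.1 hJL.inv.1)
    refine ⟨hφ.1.1.mul (hJL.inv.1.1.pow_const 2), ?_⟩
    obtain ⟨C, hC⟩ := this.2
    refine ⟨C, fun t => ?_⟩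
    show |φ t * JL t ^ 2| ≤ C
    rw [sq]
    exact hC t
  have hi3 : ∫ t, φ t * (JL t ^ 2 - JL t) ∂μ =
      ∫ t, φ t * JL t ^ 2 ∂μ - ∫ t, φ t * JL t ∂μ := by
    rw [← integral_sub (IDn.bm_int hbJ2) (IDn.bm_int (IDn.bm_mul hφ.1 hJL.inv.1))]
    refine integral_congr_ae (Filter.Eventually.of_forall fun t => ?_)
    show φ t * (JL t ^ 2 - JL t) = φ t * JL t ^ 2 - φ t * JL t
    ring
  have hxy : ∀ x y : ℕ, 0 < x → 0 < y →
      ∫ t, (φ (S.T x t) * VL S A L (S.T x t)) * (φ (S.T y t) * VL S A L (S.T y t)) ∂μ =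
        ∫ t, φ t * (VL S A L (S.T x t) * VL S A L (S.T y t)) ∂μ := by
    intro x y hx hy
    refine integral_congr_ae ?_
    filter_upwards [hφ.2 x hx, hφ.2 y hy] with t h1 h2
    have h1' : φ (S.T x t) = φ t := h1
    have h2' : φ (S.T y t) = φ t := h2
    rw [h1', h2']
    calc (φ t * VL S A L (S.T x t)) * (φ t * VL S A L (S.T y t)) =
        (φ t * φ t) * (VL S A L (S.T x t) * VL S A L (S.T y t)) := by ring
      _ = φ t * (VL S A L (S.T x t) * VL S A L (S.T y t)) := by rw [hsq t]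
  rw [hi3]
  -- the error terms
  have key : ∀ ε : ℝ, 0 < ε →
      |∫ t, φ t * JL t ^ 2 ∂μ - ∫ t, φ t * JL t ∂μ| ≤
        (L.card : ℝ) * (3 * ∫ t, φ t * (J t - J t ^ 2) ∂μ + ε) + ε := by
    intro ε hε
    have N1 := hLx X mX μ hμ S _ _ _ _ hf hf hfJ hfJ ε hε
    have N2 := hRw X mX μ hμ S A hA hPF J hJ φ hφ h01 ε hε
    obtain ⟨w, hw1, hw2⟩ := (N1.and N2).exists
    obtain ⟨K, ⟨hK1, hK2⟩, hK⟩ := ((hw1.and hw2).and (eventually_gt_atTop 0)).exists
    obtain ⟨M, ⟨hM1, hM2⟩, hM⟩ := ((hK1.and hK2).and (eventually_gt_atTop 0)).exists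
    obtain ⟨rA, rM, rC, rO⟩ := hRa w K M hK hM
    have q1 := hM1.1
    rw [hi1] at q1
    have lin : ∀ a : ℝ, RA w K M (fun x y z =>
        a * (∫ t, φ t * (1 - vv A (S.T x t) * vv A (S.T y t) * vv A (S.T z t)) ∂μ) +
          ∫ t, φ t * JL t ∂μ) =
        a * RA w K M (fun x y z =>
          ∫ t, φ t * (1 - vv A (S.T x t) * vv A (S.T y t) * vv A (S.T z t)) ∂μ) +
          ∫ t, φ t * JL t ∂μ := by
      intro a
      rw [rA (fun x y z =>
        a * (∫ t, φ t * (1 - vv A (S.T x t) * vv A (S.T y t) * vv A (S.T z t)) ∂μ))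
        (fun _ _ _ => ∫ t, φ t * JL t ∂μ), rM a, rC]
    have up : RA w K M (fun x y _ =>
        ∫ t, (φ (S.T x t) * VL S A L (S.T x t)) * (φ (S.T y t) * VL S A L (S.T y t)) ∂μ) ≤
        (L.card : ℝ) * RA w K M (fun x y z =>
          ∫ t, φ t * (1 - vv A (S.T x t) * vv A (S.T y t) * vv A (S.T z t)) ∂μ) +
          ∫ t, φ t * JL t ∂μ := by
      rw [← lin]
      refine rO _ _ ?_
      intro x y z hx hy hz _
      rw [hxy x y hx hy]
      have := (abs_le.mp (hWd X mX μ hμ S A hA L hL φ hφ h0 x y z hx hy hz)).2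
      rw [hi2] at this
      linarith
    have lo : (-(L.card : ℝ)) * RA w K M (fun x y z =>
          ∫ t, φ t * (1 - vv A (S.T x t) * vv A (S.T y t) * vv A (S.T z t)) ∂μ) +
          ∫ t, φ t * JL t ∂μ ≤ RA w K M (fun x y _ =>
        ∫ t, (φ (S.T x t) * VL S A L (S.T x t)) * (φ (S.T y t) * VL S A L (S.T y t)) ∂μ) := by
      rw [← lin]
      refine rO _ _ ?_
      intro x y z hx hy hz _
      rw [hxy x y hx hy]
      have := (abs_le.mp (hWd X mX μ hμ S A hA L hL φ hφ h0 x y z hx hy hz)).1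
      rw [hi2] at this
      linarith
    have hc : (L.card : ℝ) * RA w K M (fun x y z =>
          ∫ t, φ t * (1 - vv A (S.T x t) * vv A (S.T y t) * vv A (S.T z t)) ∂μ) ≤
        (L.card : ℝ) * (3 * ∫ t, φ t * (J t - J t ^ 2) ∂μ + ε) :=
      mul_le_mul_of_nonneg_left hM2 (Nat.cast_nonneg _)
    have q2 := abs_le.mp q1
    rw [abs_le]
    constructor
    · linarith [q2.1, q2.2]
    · linarith [q2.1, q2.2]
  refine le_of_forall_pos_le_add fun η hη => ?_
  have hpos : (0 : ℝ) < (L.card : ℝ) + 1 := by positivity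
  have := key (η / ((L.card : ℝ) + 1)) (by positivity)
  have e : (L.card : ℝ) * (3 * ∫ t, φ t * (J t - J t ^ 2) ∂μ + η / ((L.card : ℝ) + 1)) +
      η / ((L.card : ℝ) + 1) = 3 * L.card * ∫ t, φ t * (J t - J t ^ 2) ∂μ + η := by
    field_simp
    ring
  rw [e] at this
  exact this

end Pool.Agent.F0f91f8.SC
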