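import Pool.Agent.Work.MP_0f91f8_co.SC.Stmts

/-!
# Item Fi of block SC: assembly of the ergodic form
-/

set_option autoImplicit false

namespace Pool.Agent.F0f91f8.SC

open Filter Topology ComplexConjugate MeasureTheory
open Pool.Agent.F0f91f8.HD Pool.Agent.F0f91f8.RC Pool.Agent.F0f91f8.KR Pool.Agent.F0f91f8.FC
open Pool.Agent.F0f91f8.PC
open Pool.Agent.Work.MP_0f91f8_co.EF (GG ev IsFo S_Ev S_Haar S_Fol S_Cnt S_Chr)
open scoped BigOperators

namespace IFi

section
variable {X : Type} [MeasurableSpace X] {μ : Measure X}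

omit [MeasurableSpace X] in
theorem vv_abs (A : Set X) (t : X) : |vv A t| ≤ 1 := by
  unfold vv
  by_cases h : t ∈ A
  · rw [Set.indicator_of_mem h]; norm_num
  · rw [Set.indicator_of_notMem h]; norm_num

theorem bm_vv {A : Set X} (hA : MeasurableSet A) : BM (vv A) := by
  refine ⟨?_, 1, vv_abs A⟩
  exact measurable_const.sub (measurable_const.mul (measurable_const.indicator hA))

theorem bm_VL (S : Sys μ) {A : Set X} (hA : MeasurableSet A) (L : Finset ℕ) : BM (VL S A L) := by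
  refine ⟨?_, 1, fun t => ?_⟩
  · exact Finset.measurable_fun_prod L fun n _ => (bm_vv hA).1.comp (S.T n).measurable
  · unfold VL
    rw [Finset.abs_prod]
    exact Finset.prod_le_one (fun n _ => abs_nonneg _) fun n _ => vv_abs A _

theorem int_J [IsProbabilityMeasure μ] (S : Sys μ) {A : Set X} (hA : MeasurableSet A) {J : X → ℝ}
    (hJ : IsJ S (vv A) J) : ∫ t, J t ∂μ = 1 - 2 * μ.real A := by
  have h := hJ.int (fun _ => 1) ⟨⟨measurable_const, 1, fun _ => by norm_num⟩,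
    fun n hn => Eventually.of_forall fun _ => rfl⟩
  simp only [one_mul] at h
  rw [← h]
  have h1 : Integrable (A.indicator fun _ => (1 : ℝ)) μ := (integrable_const (1 : ℝ)).indicator hA
  show ∫ t, (1 - 2 * A.indicator (fun _ => (1 : ℝ)) t) ∂μ = _
  rw [integral_sub (integrable_const _) (h1.const_mul 2), integral_const_mul,
    integral_indicator_const _ hA]
  simp

/-- a function which is almost everywhere above a constant has an integral above it -/
theorem lt_int [IsProbabilityMeasure μ] {J : X → ℝ} (hJ : BM J) {c : ℝ} (h : ∀ᵐ t ∂μ, c < J t) :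
    c < ∫ t, J t ∂μ := by
  obtain ⟨h1, C, h2⟩ := hJ
  have hi : Integrable J μ :=
    Integrable.of_bound h1.aestronglyMeasurable C (Eventually.of_forall fun t => h2 t)
  by_contra hlt
  have hlt : ∫ t, J t ∂μ ≤ c := not_lt.mp hlt
  have h3 : 0 ≤ᵐ[μ] fun t => J t - c := by
    filter_upwards [h] with t ht
    exact sub_nonneg.mpr ht.le
  have h4 : ∫ t, (J t - c) ∂μ = ∫ t, J t ∂μ - c := by
    rw [integral_sub hi (integrable_const c)]
    simp
  have h5 : ∫ t, (J t - c) ∂μ = 0 :=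
    le_antisymm (by rw [h4]; linarith) (integral_nonneg_of_ae h3)
  have h6 := (integral_eq_zero_iff_of_nonneg_ae h3 (hi.sub (integrable_const c))).mp h5
  obtain ⟨t, h7, h8⟩ := (h6.and h).exists
  have h9 : J t - c = 0 := h7
  linarith

end

end IFi

theorem pr_Fi (hJe : StJe) (hDc : StDc) (hSb : StSb) (hTr : StTr) (hNu : StNu) : StFi := by
  intro X mX μ pμ S A hA hPF
  by_contra hlt
  have hlt : (23 : ℝ) / 47 ≤ μ.real A := not_lt.mp hlt
  obtain ⟨J, hJ, -⟩ := hJe X mX μ pμ S (vv A) (IFi.bm_vv hA)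
  have hex : ∀ L : Finset ℕ, ∃ JL, IsJ S (VL S A L) JL := fun L => by
    obtain ⟨JL, h, -⟩ := hJe X mX μ pμ S (VL S A L) (IFi.bm_VL S hA L)
    exact ⟨JL, h⟩
  choose JL hJL using hex
  have e1 : ∀ᵐ t ∂μ, ∀ L : Finset ℕ, (∀ n ∈ L, 0 < n) →
      |JL L t ^ 2 - JL L t| ≤ 3 * L.card * (J t - J t ^ 2) := by
    rw [ae_all_iff]
    intro L
    by_cases hL : ∀ n ∈ L, 0 < n
    · filter_upwards [hDc X mX μ pμ S A hA hPF L hL J (JL L) hJ (hJL L)] with t ht _ using ht
    · exact Eventually.of_forall fun t h => absurd h hL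
  have e2 : ∀ᵐ t ∂μ, ∀ L M : Finset ℕ, JL L t + JL M t - 1 ≤ JL (symmDiff L M) t := by
    rw [ae_all_iff]
    intro L
    rw [ae_all_iff]
    intro M
    exact (hSb X mX μ pμ S A hA).1 L M _ _ _ (hJL L) (hJL M) (hJL _)
  have e3 : ∀ᵐ t ∂μ, ∀ a b c : ℕ, (0 < a ∧ 0 < b ∧ 0 < c ∧ a ≠ b ∧ a ≠ c ∧ b ≠ c ∧
      a ^ 2 + b ^ 2 = c ^ 2) → 1 - 3 * J t - 18 * (J t - J t ^ 2) ≤ JL {a, b, c} t := by
    rw [ae_all_iff]
    intro a
    rw [ae_all_iff]
    intro b
    rw [ae_all_iff]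
    intro c
    by_cases h : 0 < a ∧ 0 < b ∧ 0 < c ∧ a ≠ b ∧ a ≠ c ∧ b ≠ c ∧ a ^ 2 + b ^ 2 = c ^ 2
    · obtain ⟨ha, hb, hc, hab, hac, hbc, habc⟩ := h
      filter_upwards [hTr X mX μ pμ S A hA hPF a b c ha hb hc hab hac hbc habc J _ hJ (hJL _)]
        with t ht _ using ht
    · exact Eventually.of_forall fun t h' => absurd h' h
  have e4 : ∀ᵐ t ∂μ, ∀ n : ℕ, 0 < n → JL {n} t = J t := by
    rw [ae_all_iff]
    intro n
    by_cases hn : 0 < n
    · filter_upwards [(hSb X mX μ pμ S A hA).2 n _ _ hn (hJL _) hJ] with t ht _ using ht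
    · exact Eventually.of_forall fun t h => absurd h hn
  have e5 : ∀ᵐ t ∂μ, (1 : ℝ) / 47 < J t := by
    filter_upwards [e1, e2, e3, e4] with t h1 h2 h3 h4
    by_contra hle
    exact hNu (fun L => JL L t) (J t) h1 (fun L M _ _ => h2 L M)
      (fun a b c ha hb hc hab hac hbc habc => h3 a b c ⟨ha, hb, hc, hab, hac, hbc, habc⟩) h4
      (not_lt.mp hle)
  have h6 := IFi.lt_int hJ.inv.1 e5
  rw [IFi.int_J S hA hJ] at h6
  linarith

end Pool.Agent.F0f91f8.SC
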