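import Pool.Agent.Work.MP_0f91f8_co.SC.Stmts

/-!
# Item Id of block SC: identities for signs
-/

set_option autoImplicit false

namespace Pool.Agent.F0f91f8.SC

namespace IId

lemma three (a b c : ℝ) (ha : a = 1 ∨ a = -1) (hb : b = 1 ∨ b = -1) (hc : c = 1 ∨ c = -1)
    (h : ¬(a = -1 ∧ b = -1 ∧ c = -1)) :
    a * b * c = 1 + a * b + a * c + b * c - a - b - c := by
  rcases ha with rfl | rfl <;> rcases hb with rfl | rfl <;> rcases hc with rfl | rfl
  all_goals first
    | exact absurd ⟨rfl, rfl, rfl⟩ h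
    | norm_num

lemma sign_prod (L : Finset ℕ) (r : ℕ → ℝ) (h : ∀ n ∈ L, r n = 1 ∨ r n = -1) :
    |∏ n ∈ L, r n| = 1 := by
  rw [Finset.abs_prod]
  apply Finset.prod_eq_one
  intro n hn
  rcases h n hn with h1 | h1 <;> rw [h1] <;> norm_num

lemma prod_sub_one (L : Finset ℕ) (r : ℕ → ℝ) (h : ∀ n ∈ L, r n = 1 ∨ r n = -1) :
    |∏ n ∈ L, r n - 1| ≤ ∑ n ∈ L, (1 - r n) := by
  induction L using Finset.induction_on with
  | empty => simp
  | insert a s ha ih =>
    rw [Finset.prod_insert ha, Finset.sum_insert ha]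
    have h1 := ih (fun n hn => h n (Finset.mem_insert_of_mem hn))
    have h2 := sign_prod s r (fun n hn => h n (Finset.mem_insert_of_mem hn))
    have h3 : r a * ∏ n ∈ s, r n - 1 = (r a - 1) * ∏ n ∈ s, r n + (∏ n ∈ s, r n - 1) := by ring
    rw [h3]
    refine (abs_add_le _ _).trans ?_
    rw [abs_mul, h2, mul_one]
    have h4 : |r a - 1| = 1 - r a := by
      rcases h a (Finset.mem_insert_self _ _) with h5 | h5 <;> rw [h5] <;> norm_num
    rw [h4]
    linarith

end IId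

theorem pr_Id : StId := by
  refine ⟨fun a b c ha hb hc h => IId.three a b c ha hb hc h, ?_⟩
  intro L u v' w' h
  have hr : ∀ n ∈ L, u n * v' n * w' n = 1 ∨ u n * v' n * w' n = -1 := by
    intro n hn
    obtain ⟨h1, h2, h3⟩ := h n hn
    rcases h1 with h1 | h1 <;> rcases h2 with h2 | h2 <;> rcases h3 with h3 | h3 <;>
      rw [h1, h2, h3] <;> norm_num
  have hw := IId.sign_prod L w' (fun n hn => (h n hn).2.2)
  have hww : (∏ n ∈ L, w' n) * (∏ n ∈ L, w' n) = 1 := by
    rw [← abs_mul_abs_self, hw, one_mul]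
  have key : (∏ n ∈ L, u n) * (∏ n ∈ L, v' n) - ∏ n ∈ L, w' n =
      (∏ n ∈ L, w' n) * ((∏ n ∈ L, u n * v' n * w' n) - 1) := by
    rw [Finset.prod_mul_distrib, Finset.prod_mul_distrib]
    linear_combination (-(∏ n ∈ L, u n) * (∏ n ∈ L, v' n)) * hww
  rw [key, abs_mul, hw, one_mul]
  exact IId.prod_sub_one L _ hr

end Pool.Agent.F0f91f8.SC
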