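import Pool.Agent.Work.MP_0f91f8_co.SC.Stmts
import Pool.Agent.Work.MP_0f91f8_co.PC.I_VJ

/-!
# [Je]: conditional expectations with respect to the invariant sets (block SC of MP_0f91f8_co)
-/

set_option autoImplicit false

namespace Pool.Agent.F0f91f8.SC

open Filter Topology ComplexConjugate MeasureTheory
open Pool.Agent.F0f91f8.HD Pool.Agent.F0f91f8.RC Pool.Agent.F0f91f8.KR Pool.Agent.F0f91f8.FC
open Pool.Agent.F0f91f8.PC
open Pool.Agent.Work.MP_0f91f8_co.EF (GG ev IsFo S_Ev S_Haar S_Fol S_Cnt S_Chr)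
open scoped BigOperators

namespace IJe

section
variable {X : Type} [MeasurableSpace X] {μ : Measure X}

theorem U_bl (hUn : StVUn) (S : Sys μ) {φ : X → ℂ} (hφ : MemLp φ 2 μ) (a : ℕ) (ha : 0 < a) :
    MemLp (fun x => φ (S.T a x)) 2 μ ∧ U S a (bl μ φ) = bl μ (fun x => φ (S.T a x)) := by
  have h1 : MemLp (fun x => φ (S.T a x)) 2 μ := hφ.comp_measurePreserving (S.mp a ha)
  refine ⟨h1, ?_⟩
  apply Lp.ext
  have h2 : (fun x => (bl μ φ : X → ℂ) (S.T a x)) =ᵐ[μ] fun x => φ (S.T a x) :=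
    (S.mp a ha).quasiMeasurePreserving.ae_eq_comp (XVJ.bl_coe μ hφ)
  filter_upwards [(hUn X _ μ S).1 a ha (bl μ φ), XVJ.bl_coe μ h1, h2] with x e1 e2 e3
  rw [e1, e2, e3]

theorem limV (hEv : S_Ev) (hChr : S_Chr) (S : Sys μ) (G : Lp ℂ 2 μ) (σ : Measure GG)
    [IsFiniteMeasure σ] (V : SpV S G σ) (F : ℕ → Finset ℕ) (hF : IsFo F) :
    Tendsto (fun j => (((F j).card : ℂ)⁻¹ • ∑ a ∈ F j, U S a G : Lp ℂ 2 μ)) atTop
      (𝓝 (V.V (b1 σ {1}))) := by
  rw [tendsto_iff_norm_sub_tendsto_zero]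
  have h := (XVJ.lim_ps hEv hChr σ F hF).sqrt
  rw [Real.sqrt_zero] at h
  refine h.congr fun j => ?_
  have hm1 : MeasurableSet ({1} : Set GG) := isClosed_singleton.measurableSet
  have hind : MemLp (({1} : Set GG).indicator fun _ => (1 : ℂ)) 2 σ := XVJ.mem_ind σ hm1
  have h1 : MemLp (XVJ.ps (F j)) 2 σ :=
    XVJ.mem_bdd σ (XVJ.ps_meas hEv (F j)) 1 fun g => XVJ.ps_le hEv (F j) (hF.ne j) g
  have h2 := XVJ.norm_sub_sq σ (bl σ (XVJ.ps (F j))) (b1 σ {1}) _ _ (XVJ.bl_coe σ h1)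
    (XVJ.bl_coe σ hind)
  rw [← h2, Real.sqrt_sq (norm_nonneg _), ← XVJ.V_av hEv S G σ V (F j) (hF.pos j), ← map_sub,
    LinearIsometry.norm_map]

/-- the averages of a real function -/
noncomputable def avf (S : Sys μ) (f : X → ℝ) (F : Finset ℕ) (x : X) : ℝ :=
  (∑ a ∈ F, f (S.T a x)) / (F.card : ℝ)

theorem avf_coe (hUn : StVUn) (S : Sys μ) {f : X → ℝ} (hf : MemLp (fun t => ((f t : ℝ) : ℂ)) 2 μ)
    (F : Finset ℕ) (hF : ∀ a ∈ F, 0 < a) :
    ((((F.card : ℂ))⁻¹ • ∑ a ∈ F, U S a (bl μ fun t => ((f t : ℝ) : ℂ)) : Lp ℂ 2 μ) : X → ℂ) =ᵐ[μ]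
      fun x => ((avf S f F x : ℝ) : ℂ) := by
  have e1 : ∑ a ∈ F, U S a (bl μ fun t => ((f t : ℝ) : ℂ)) =
      ∑ a ∈ F, bl μ (fun x => ((f (S.T a x) : ℝ) : ℂ)) :=
    Finset.sum_congr rfl fun a ha => (U_bl hUn S hf a (hF a ha)).2
  obtain ⟨h1, h2⟩ := XVJ.bl_sum μ F (fun a x => ((f (S.T a x) : ℝ) : ℂ))
    fun a ha => (U_bl hUn S hf a (hF a ha)).1
  obtain ⟨h3, h4⟩ := XVJ.bl_smul μ ((F.card : ℂ))⁻¹ h1
  rw [e1, ← h2, ← h4]
  filter_upwards [XVJ.bl_coe μ h3] with x hx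
  rw [hx, Pi.smul_apply]
  unfold avf
  rw [Complex.ofReal_div, Complex.ofReal_sum, smul_eq_mul, inv_mul_eq_div, Complex.ofReal_natCast]

/-- the truncation is the nearest point of the interval -/
theorem clamp_le (z : ℂ) (C t : ℝ) (hC : 0 ≤ C) (h : |t| ≤ C) :
    ‖z - ((max (-C) (min C z.re) : ℝ) : ℂ)‖ ^ 2 ≤ ‖(t : ℂ) - z‖ ^ 2 := by
  obtain ⟨h0, h1⟩ := abs_le.1 h
  rw [← Complex.normSq_eq_norm_sq, ← Complex.normSq_eq_norm_sq, Complex.normSq_apply,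
    Complex.normSq_apply]
  simp only [Complex.sub_re, Complex.sub_im, Complex.ofReal_re, Complex.ofReal_im]
  have h2 : (z.re - max (-C) (min C z.re)) * (z.re - max (-C) (min C z.re)) ≤
      (t - z.re) * (t - z.re) := by
    rcases le_total z.re (-C) with h | h
    · rw [min_eq_right (by linarith), max_eq_left h]
      nlinarith
    · rcases le_total z.re C with h' | h'
      · rw [min_eq_right h', max_eq_right h]
        nlinarith [mul_self_nonneg (t - z.re)]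
      · rw [min_eq_left h', max_eq_right (by linarith)]
        nlinarith
  nlinarith

/-- inner products of classes of real functions -/
theorem inner_bl {φ ψ : X → ℝ} {P Q : Lp ℂ 2 μ} (hP : (P : X → ℂ) =ᵐ[μ] fun t => ((φ t : ℝ) : ℂ))
    (hQ : (Q : X → ℂ) =ᵐ[μ] fun t => ((ψ t : ℝ) : ℂ)) :
    (inner ℂ P Q : ℂ) = ((∫ t, φ t * ψ t ∂μ : ℝ) : ℂ) := by
  rw [L2.inner_def, ← integral_complex_ofReal]
  refine integral_congr_ae ?_
  filter_upwards [hP, hQ] with x h1 h2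
  rw [h1, h2]
  simp [mul_comm]

theorem mem_real [IsFiniteMeasure μ] {φ : X → ℝ} (h : BM φ) :
    MemLp (fun t => ((φ t : ℝ) : ℂ)) 2 μ := by
  obtain ⟨h1, C, h2⟩ := h
  refine XVJ.mem_bdd μ (Complex.measurable_ofReal.comp h1) C fun x => ?_
  rw [Complex.norm_real, Real.norm_eq_abs]
  exact h2 x

end

end IJe

/-- [Je] -/
theorem pr_Je (hEv : S_Ev) (hFol : S_Fol) (hChr : S_Chr) (hUn : StVUn) (hSp : SpecS) : StJe := by
  intro X _ μ _ S f hf
  have hfm := IJe.mem_real (μ := μ) hf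
  obtain ⟨hfM, C₀, hC₀⟩ := hf
  obtain ⟨C, hC, hfC⟩ : ∃ C : ℝ, 0 ≤ C ∧ ∀ t, |f t| ≤ C :=
    ⟨|C₀|, abs_nonneg _, fun t => (hC₀ t).trans (le_abs_self _)⟩
  obtain ⟨F, hF⟩ := hFol
  obtain ⟨σ, hσ, ⟨V⟩⟩ := hSp X _ μ inferInstance S (bl μ fun t => ((f t : ℝ) : ℂ))
  have hm1 : MeasurableSet ({1} : Set GG) := isClosed_singleton.measurableSet
  have hind : MemLp (({1} : Set GG).indicator fun _ => (1 : ℂ)) 2 σ := XVJ.mem_ind σ hm1
  have hU1 := (hUn X _ μ S).1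
  obtain ⟨I, hI⟩ : ∃ I : Lp ℂ 2 μ, I = V.V (b1 σ {1}) := ⟨_, rfl⟩
  have hlim := IJe.limV hEv hChr S (bl μ fun t => ((f t : ℝ) : ℂ)) σ V F hF
  rw [← hI] at hlim
  have hIm : Measurable (I : X → ℂ) := (Lp.stronglyMeasurable I).measurable
  obtain ⟨J, hJ⟩ : ∃ J : X → ℝ, J = fun x => max (-C) (min C (I x).re) := ⟨_, rfl⟩
  have hJm : Measurable J := by
    rw [hJ]
    exact measurable_const.max (measurable_const.min (Complex.measurable_re.comp hIm))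
  have hJb : ∀ x, |J x| ≤ C := by
    intro x
    rw [hJ]
    exact abs_le.2 ⟨le_max_left _ _, max_le (by linarith) (min_le_left _ _)⟩
  have hJB : BM J := ⟨hJm, C, hJb⟩
  have hJM := IJe.mem_real (μ := μ) hJB
  have key : Tendsto (fun j => ∫ x, ‖((IJe.avf S f (F j) x : ℝ) : ℂ) - I x‖ ^ 2 ∂μ) atTop (𝓝 0) := by
    have h1 := (tendsto_iff_norm_sub_tendsto_zero.1 hlim).pow 2
    rw [zero_pow two_ne_zero] at h1
    refine h1.congr fun j => ?_
    exact XVJ.norm_sub_sq μ _ I _ _ (IJe.avf_coe hUn S hfm (F j) (hF.pos j))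
      (Filter.EventuallyEq.refl _ _)
  have hbd : ∀ G : Finset ℕ, G.Nonempty → ∀ x, |IJe.avf S f G x| ≤ C := by
    intro G hG x
    have hc : (0 : ℝ) < G.card := by exact_mod_cast hG.card_pos
    unfold IJe.avf
    rw [abs_div, abs_of_pos hc, div_le_iff₀ hc]
    calc |∑ a ∈ G, f (S.T a x)| ≤ ∑ a ∈ G, |f (S.T a x)| := Finset.abs_sum_le_sum_abs _ _
      _ ≤ ∑ _a ∈ G, C := Finset.sum_le_sum fun a _ => hfC _
      _ = C * G.card := by rw [Finset.sum_const, nsmul_eq_mul, mul_comm]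
  have havm : ∀ G : Finset ℕ, Measurable fun x => IJe.avf S f G x := by
    intro G
    unfold IJe.avf
    refine Measurable.div_const (Finset.measurable_fun_sum _ fun a _ => ?_) _
    exact hfM.comp (S.T a).measurable
  have hint : ∀ G : Finset ℕ, G.Nonempty →
      Integrable (fun x => ‖((IJe.avf S f G x : ℝ) : ℂ) - I x‖ ^ 2) μ := by
    intro G hG
    have h1 : MemLp (fun x => ((IJe.avf S f G x : ℝ) : ℂ)) 2 μ :=
      IJe.mem_real ⟨havm G, C, hbd G hG⟩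
    have h := (h1.sub (Lp.memLp I)).integrable_norm_pow (by norm_num)
    simpa using h
  have hint2 : Integrable (fun x => ‖I x - ((J x : ℝ) : ℂ)‖ ^ 2) μ := by
    have h := ((Lp.memLp I).sub hJM).integrable_norm_pow (by norm_num)
    simpa using h
  have hIJ : ∀ x, ‖I x - ((J x : ℝ) : ℂ)‖ ^ 2 =
      ‖I x - ((max (-C) (min C (I x).re) : ℝ) : ℂ)‖ ^ 2 := by
    intro x
    rw [hJ]
  -- `I` is the class of `J`
  have hae : (I : X → ℂ) =ᵐ[μ] fun x => ((J x : ℝ) : ℂ) := by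
    have h1 : ∫ x, ‖I x - ((J x : ℝ) : ℂ)‖ ^ 2 ∂μ ≤ 0 := by
      refine ge_of_tendsto' key fun j => ?_
      refine integral_mono hint2 (hint (F j) (hF.ne j)) fun x => ?_
      simp only
      rw [hIJ x]
      exact IJe.clamp_le (I x) C (IJe.avf S f (F j) x) hC (hbd _ (hF.ne j) x)
    have h2 : ∫ x, ‖I x - ((J x : ℝ) : ℂ)‖ ^ 2 ∂μ = 0 :=
      le_antisymm h1 (integral_nonneg fun x => by positivity)
    have h3 := (integral_eq_zero_iff_of_nonneg (fun x => by positivity) hint2).1 h2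
    filter_upwards [h3] with x hx
    have h4 : ‖I x - ((J x : ℝ) : ℂ)‖ ^ 2 = 0 := hx
    have h5 : ‖I x - ((J x : ℝ) : ℂ)‖ = 0 := pow_eq_zero_iff (two_ne_zero) |>.1 h4
    exact sub_eq_zero.1 (norm_eq_zero.1 h5)
  refine ⟨J, ⟨⟨hJB, ?_⟩, ?_⟩, ?_⟩
  · intro n hn
    have h1 : U S n I = I := by
      have h2 := V.mul n hn _ hind
      have h3 : (fun g : GG => ev g n * ({1} : Set GG).indicator (fun _ => (1 : ℂ)) g) =
          ({1} : Set GG).indicator (fun _ => (1 : ℂ)) := by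
        funext g
        by_cases h : g = 1
        · rw [h, hEv.2.2.1 n hn, one_mul]
        · rw [Set.indicator_of_notMem (by rw [Set.mem_singleton_iff]; exact h), mul_zero]
      rw [h3] at h2
      rw [hI]
      exact h2.symm
    have h4 := hU1 n hn I
    rw [h1] at h4
    filter_upwards [h4] with x hx
    rw [hJ]
    simp only
    rw [← hx]
  · intro φ hφ
    have hφm := IJe.mem_real (μ := μ) hφ.1
    obtain ⟨P, hP⟩ : ∃ P : Lp ℂ 2 μ, P = bl μ fun t => ((φ t : ℝ) : ℂ) := ⟨_, rfl⟩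
    have hPc : (P : X → ℂ) =ᵐ[μ] fun t => ((φ t : ℝ) : ℂ) := by
      rw [hP]
      exact XVJ.bl_coe μ hφm
    have hfc : ((bl μ fun t => ((f t : ℝ) : ℂ) : Lp ℂ 2 μ) : X → ℂ) =ᵐ[μ]
        fun t => ((f t : ℝ) : ℂ) := XVJ.bl_coe μ hfm
    have hUP : ∀ a : ℕ, 0 < a → U S a P = P := by
      intro a ha
      obtain ⟨h1, h2⟩ := IJe.U_bl hUn S hφm a ha
      apply Lp.ext
      rw [hP, h2]
      filter_upwards [XVJ.bl_coe μ h1, XVJ.bl_coe μ hφm, hφ.2 a ha] with x e1 e2 e3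
      rw [e1, e2]
      exact congrArg _ e3
    have h1 : ∀ j, (inner ℂ P ((((F j).card : ℂ)⁻¹ •
        ∑ a ∈ F j, U S a (bl μ fun t => ((f t : ℝ) : ℂ)) : Lp ℂ 2 μ)) : ℂ) =
        inner ℂ P (bl μ fun t => ((f t : ℝ) : ℂ)) := by
      intro j
      have hc : ((F j).card : ℂ) ≠ 0 := by exact_mod_cast (hF.ne j).card_pos.ne'
      rw [inner_smul_right, inner_sum]
      have h2 : ∀ a ∈ F j, (inner ℂ P (U S a (bl μ fun t => ((f t : ℝ) : ℂ))) : ℂ) =
          inner ℂ P (bl μ fun t => ((f t : ℝ) : ℂ)) := by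
        intro a ha
        have h3 := (U S a).inner_map_map P (bl μ fun t => ((f t : ℝ) : ℂ))
        rw [hUP a (hF.pos j a ha)] at h3
        exact h3
      rw [Finset.sum_congr rfl h2, Finset.sum_const, nsmul_eq_mul, ← mul_assoc,
        inv_mul_cancel₀ hc, one_mul]
    have h2 : Tendsto (fun j => (inner ℂ P ((((F j).card : ℂ)⁻¹ •
        ∑ a ∈ F j, U S a (bl μ fun t => ((f t : ℝ) : ℂ)) : Lp ℂ 2 μ)) : ℂ)) atTop
        (𝓝 (inner ℂ P I)) := Filter.Tendsto.inner tendsto_const_nhds hlim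
    simp only [h1] at h2
    have h3 := tendsto_nhds_unique h2 tendsto_const_nhds
    rw [IJe.inner_bl hPc hae, IJe.inner_bl hPc hfc] at h3
    exact (Complex.ofReal_injective h3).symm
  · intro σ' _ V'
    have h1 := IJe.limV hEv hChr S (bl μ fun t => ((f t : ℝ) : ℂ)) σ' V' F hF
    have h2 := tendsto_nhds_unique h1 hlim
    rw [h2]
    exact hae

end Pool.Agent.F0f91f8.SC
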