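import Pool.Agent.Work.MP_0f91f8_co.SC.Stmts

/-!
# Item Jl of block SC: rules for the conditional expectation
-/

set_option autoImplicit false

namespace Pool.Agent.F0f91f8.SC

open Filter Topology ComplexConjugate MeasureTheory
open Pool.Agent.F0f91f8.HD Pool.Agent.F0f91f8.RC Pool.Agent.F0f91f8.KR Pool.Agent.F0f91f8.FC
open Pool.Agent.F0f91f8.PC
open Pool.Agent.Work.MP_0f91f8_co.EF (GG ev IsFo S_Ev S_Haar S_Fol S_Cnt S_Chr)
open scoped BigOperators

namespace IJl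

section
variable {X : Type} [MeasurableSpace X] {μ : Measure X}

theorem bm_int [IsProbabilityMeasure μ] {f : X → ℝ} (hf : BM f) : Integrable f μ := by
  obtain ⟨h1, C, h2⟩ := hf
  exact Integrable.of_bound h1.aestronglyMeasurable C (Eventually.of_forall fun t => h2 t)

theorem bm_mul {f g : X → ℝ} (hf : BM f) (hg : BM g) : BM fun t => f t * g t := by
  obtain ⟨h1, C, h2⟩ := hf
  obtain ⟨h3, D, h4⟩ := hg
  refine ⟨h1.mul h3, C * D, fun t => ?_⟩
  rw [abs_mul]
  exact mul_le_mul (h2 t) (h4 t) (abs_nonneg _) ((abs_nonneg _).trans (h2 t))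

theorem bm_lin {f g : X → ℝ} (a b : ℝ) (hf : BM f) (hg : BM g) : BM fun t => a * f t + b * g t := by
  obtain ⟨h1, C, h2⟩ := hf
  obtain ⟨h3, D, h4⟩ := hg
  refine ⟨(h1.const_mul a).add (h3.const_mul b), |a| * C + |b| * D, fun t => ?_⟩
  refine (abs_add_le _ _).trans ?_
  rw [abs_mul, abs_mul]
  exact add_le_add (mul_le_mul_of_nonneg_left (h2 t) (abs_nonneg _))
    (mul_le_mul_of_nonneg_left (h4 t) (abs_nonneg _))

theorem bm_const (c : ℝ) : BM fun _ : X => c := ⟨measurable_const, |c|, fun _ => le_rfl⟩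

theorem inv_mul {S : Sys μ} {φ ψ : X → ℝ} (hφ : InvF S φ) (hψ : InvF S ψ) :
    InvF S fun t => φ t * ψ t := by
  refine ⟨bm_mul hφ.1 hψ.1, fun n hn => ?_⟩
  filter_upwards [hφ.2 n hn, hψ.2 n hn] with t h1 h2
  rw [h1, h2]

theorem inv_lin {S : Sys μ} {φ ψ : X → ℝ} (a b : ℝ) (hφ : InvF S φ) (hψ : InvF S ψ) :
    InvF S fun t => a * φ t + b * ψ t := by
  refine ⟨bm_lin a b hφ.1 hψ.1, fun n hn => ?_⟩
  filter_upwards [hφ.2 n hn, hψ.2 n hn] with t h1 h2
  rw [h1, h2]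

theorem inv_const {S : Sys μ} (c : ℝ) : InvF S fun _ : X => c :=
  ⟨bm_const c, fun _ _ => Eventually.of_forall fun _ => rfl⟩

end

end IJl

theorem pr_Jl : StJl := by
  intro X _ μ _ S
  refine ⟨?_, ?_, ?_, ?_⟩
  · intro f g J G a b hf hg hJ hG
    refine ⟨IJl.inv_lin a b hJ.inv hG.inv, fun φ hφ => ?_⟩
    have h1 : ∀ p q : X → ℝ, BM p → BM q → ∫ t, φ t * (a * p t + b * q t) ∂μ =
        a * ∫ t, φ t * p t ∂μ + b * ∫ t, φ t * q t ∂μ := by
      intro p q hp hq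
      have h2 : (fun t => φ t * (a * p t + b * q t)) =
          fun t => a * (φ t * p t) + b * (φ t * q t) := by
        funext t
        ring
      rw [h2, integral_add ((IJl.bm_int (IJl.bm_mul hφ.1 hp)).const_mul a)
        ((IJl.bm_int (IJl.bm_mul hφ.1 hq)).const_mul b), integral_const_mul, integral_const_mul]
    rw [h1 f g hf hg, h1 J G hJ.inv.1 hG.inv.1, hJ.int φ hφ, hG.int φ hφ]
  · intro c
    exact ⟨IJl.inv_const c, fun φ _ => rfl⟩
  · intro φ f J hf hφ hJ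
    refine ⟨IJl.inv_mul hφ hJ.inv, fun ψ hψ => ?_⟩
    have h1 := hJ.int (fun t => ψ t * φ t) (IJl.inv_mul hψ hφ)
    simp only [mul_assoc] at h1
    exact h1
  · intro f J n hn hf hJ
    refine ⟨hJ.inv, fun φ hφ => ?_⟩
    rw [← hJ.int φ hφ]
    have h1 : ∫ t, φ t * f (S.T n t) ∂μ = ∫ t, φ (S.T n t) * f (S.T n t) ∂μ := by
      refine integral_congr_ae ?_
      filter_upwards [hφ.2 n hn] with t ht
      rw [ht]
    rw [h1]
    exact (S.mp n hn).integral_comp' (fun t => φ t * f t)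

end Pool.Agent.F0f91f8.SC
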