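import Pool.Agent.Work.MP_0f91f8_co.SC.Stmts

/-!
# Block SC, item Jm: monotonicity of the conditional expectations
-/

set_option autoImplicit false

namespace Pool.Agent.F0f91f8.SC

open Filter Topology ComplexConjugate MeasureTheory
open Pool.Agent.F0f91f8.HD Pool.Agent.F0f91f8.RC Pool.Agent.F0f91f8.KR Pool.Agent.F0f91f8.FC
open Pool.Agent.F0f91f8.PC
open Pool.Agent.Work.MP_0f91f8_co.EF (GG ev IsFo S_Ev S_Haar S_Fol S_Cnt S_Chr)
open scoped BigOperators

namespace IJm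

variable {X : Type} [MeasurableSpace X] {μ : Measure X} [IsProbabilityMeasure μ]

theorem int_of {f : X → ℝ} (hf : Measurable f) (C : ℝ) (hC : ∀ t, |f t| ≤ C) :
    Integrable f μ :=
  Integrable.of_bound hf.aestronglyMeasurable C (ae_of_all _ fun t => by
    rw [Real.norm_eq_abs]; exact hC t)

theorem core {f g J G : X → ℝ} (hf : Measurable f) (hg : Measurable g) (hJ : Measurable J)
    (hG : Measurable G) (Cf Cg CJ CG : ℝ) (bf : ∀ t, |f t| ≤ Cf) (bg : ∀ t, |g t| ≤ Cg)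
    (bJ : ∀ t, |J t| ≤ CJ) (bG : ∀ t, |G t| ≤ CG)
    (h1 : ∫ t, {t | G t < J t}.indicator (fun _ => (1 : ℝ)) t * f t ∂μ =
      ∫ t, {t | G t < J t}.indicator (fun _ => (1 : ℝ)) t * J t ∂μ)
    (h2 : ∫ t, {t | G t < J t}.indicator (fun _ => (1 : ℝ)) t * g t ∂μ =
      ∫ t, {t | G t < J t}.indicator (fun _ => (1 : ℝ)) t * G t ∂μ)
    (hfg : ∀ᵐ t ∂μ, f t ≤ g t) : ∀ᵐ t ∂μ, J t ≤ G t := by
  have hN : MeasurableSet {t | G t < J t} := measurableSet_lt hG hJ
  obtain ⟨φ, hφ⟩ : ∃ φ : X → ℝ, φ = {t | G t < J t}.indicator (fun _ => (1 : ℝ)) := ⟨_, rfl⟩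
  have hφm : Measurable φ := by
    rw [hφ]
    exact measurable_const.indicator hN
  have hφ0 : ∀ t, 0 ≤ φ t ∧ φ t ≤ 1 := by
    intro t
    rw [hφ]
    by_cases ht : t ∈ {t | G t < J t}
    · rw [Set.indicator_of_mem ht]; norm_num
    · rw [Set.indicator_of_notMem ht]; norm_num
  rw [← hφ] at h1 h2
  have hi : ∀ u : X → ℝ, Measurable u → ∀ C : ℝ, (∀ t, |u t| ≤ C) →
      Integrable (fun t => φ t * u t) μ := by
    intro u hu C hC
    refine int_of (hφm.mul hu) C fun t => ?_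
    rw [abs_mul, abs_of_nonneg (hφ0 t).1]
    calc φ t * |u t| ≤ 1 * |u t| := mul_le_mul_of_nonneg_right (hφ0 t).2 (abs_nonneg _)
      _ ≤ C := by rw [one_mul]; exact hC t
  have h3 : ∫ t, φ t * f t ∂μ ≤ ∫ t, φ t * g t ∂μ := by
    refine integral_mono_ae (hi f hf Cf bf) (hi g hg Cg bg) ?_
    filter_upwards [hfg] with t ht
    exact mul_le_mul_of_nonneg_left ht (hφ0 t).1
  have h4 : ∀ t, 0 ≤ φ t * J t - φ t * G t := by
    intro t
    rw [hφ]
    by_cases ht : t ∈ {t | G t < J t}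
    · rw [Set.indicator_of_mem ht]
      have : G t < J t := ht
      linarith
    · rw [Set.indicator_of_notMem ht]
      linarith
  have h5 : ∫ t, (φ t * J t - φ t * G t) ∂μ = 0 := by
    refine le_antisymm ?_ (integral_nonneg h4)
    rw [integral_sub (hi J hJ CJ bJ) (hi G hG CG bG), ← h1, ← h2]
    linarith
  have h6 := (integral_eq_zero_iff_of_nonneg h4 ((hi J hJ CJ bJ).sub (hi G hG CG bG))).1 h5
  filter_upwards [h6] with t ht
  by_contra hlt
  push Not at hlt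
  have h7 : φ t = 1 := by
    rw [hφ]
    exact Set.indicator_of_mem (show t ∈ {t | G t < J t} from hlt) _
  have h8 : φ t * J t - φ t * G t = 0 := ht
  rw [h7] at h8
  linarith

theorem inv_ind (S : Sys μ) {J G : X → ℝ} (hJ : InvF S J) (hG : InvF S G) :
    InvF S ({t | G t < J t}.indicator fun _ => (1 : ℝ)) := by
  have hN : MeasurableSet {t | G t < J t} := measurableSet_lt hG.1.1 hJ.1.1
  refine ⟨⟨measurable_const.indicator hN, 1, fun t => ?_⟩, fun n hn => ?_⟩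
  · by_cases ht : t ∈ {t | G t < J t}
    · rw [Set.indicator_of_mem ht]
      norm_num
    · rw [Set.indicator_of_notMem ht]
      norm_num
  · filter_upwards [hJ.2 n hn, hG.2 n hn] with t h1 h2
    have h3 : S.T n t ∈ {t | G t < J t} ↔ t ∈ {t | G t < J t} := by
      show G (S.T n t) < J (S.T n t) ↔ G t < J t
      have h1' : J (S.T n t) = J t := h1
      have h2' : G (S.T n t) = G t := h2
      rw [h1', h2']
    by_cases ht : t ∈ {t | G t < J t}
    · rw [Set.indicator_of_mem ht, Set.indicator_of_mem (h3.2 ht)]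
    · rw [Set.indicator_of_notMem ht, Set.indicator_of_notMem fun h => ht (h3.1 h)]

end IJm

theorem pr_Jm : StJm := by
  intro X _ μ _ S f g J G hf hg hJ hG hfg
  obtain ⟨Cf, bf⟩ := hf.2
  obtain ⟨Cg, bg⟩ := hg.2
  obtain ⟨CJ, bJ⟩ := hJ.inv.1.2
  obtain ⟨CG, bG⟩ := hG.inv.1.2
  have hinv := IJm.inv_ind S hJ.inv hG.inv
  exact IJm.core hf.1 hg.1 hJ.inv.1.1 hG.inv.1.1 Cf Cg CJ CG bf bg bJ bG
    (hJ.int _ hinv) (hG.int _ hinv) hfg

end Pool.Agent.F0f91f8.SC
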