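import Pool.Agent.Work.MP_0f91f8_co.SC.Stmts
import Pool.Agent.Work.MP_0f91f8_co.PC.I_CV

/-!
# Block SC, item Lx: exact independence for `x, y` and `x, z`
-/

set_option autoImplicit false

namespace Pool.Agent.F0f91f8.SC

open Filter Topology ComplexConjugate MeasureTheory
open Pool.Agent.F0f91f8.HD Pool.Agent.F0f91f8.RC Pool.Agent.F0f91f8.KR Pool.Agent.F0f91f8.FC
open Pool.Agent.F0f91f8.PC
open Pool.Agent.Work.MP_0f91f8_co.EF (GG ev IsFo S_Ev S_Haar S_Fol S_Cnt S_Chr)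
open scoped BigOperators

namespace ILx

theorem nest_mono {P Q : ℕ → ℕ → ℕ → Prop} (h : ∀ w K M, 0 < K → 0 < M → P w K M → Q w K M)
    (hP : Nest P) : Nest Q :=
  hP.mono fun w hw => (hw.and (eventually_gt_atTop 0)).mono fun K hK =>
    (hK.1.and (eventually_gt_atTop 0)).mono fun M hM => h w K M hK.2 hM.2 hM.1

theorem nest_and {P Q : ℕ → ℕ → ℕ → Prop} (hP : Nest P) (hQ : Nest Q) :
    Nest fun w K M => P w K M ∧ Q w K M := by
  refine (hP.and hQ).mono fun w hw => (hw.1.and hw.2).mono fun K hK => ?_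
  exact hK.1.and hK.2

section
variable {X : Type} [mX : MeasurableSpace X] {μ : Measure X} [hμ : IsProbabilityMeasure μ]

theorem mem_bm {f : X → ℝ} (hf : BM f) : MemLp (fun t => ((f t : ℝ) : ℂ)) 2 μ := by
  obtain ⟨hm, C, hC⟩ := hf
  refine MemLp.of_bound (C := C) (Complex.measurable_ofReal.comp hm).aestronglyMeasurable ?_
  refine Eventually.of_forall fun t => ?_
  rw [Complex.norm_real]
  exact hC t

omit hμ in
/-- correlations as inner products -/
theorem inner_cor (hUn : StVUn) (S : Sys μ) {f g : X → ℝ} {F H : Lp ℂ 2 μ}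
    (hF : (F : X → ℂ) =ᵐ[μ] fun t => ((f t : ℝ) : ℂ))
    (hH : (H : X → ℂ) =ᵐ[μ] fun t => ((g t : ℝ) : ℂ)) {x y : ℕ} (hx : 0 < x) (hy : 0 < y) :
    inner ℂ (U S y H) (U S x F) = ((∫ t, f (S.T x t) * g (S.T y t) ∂μ : ℝ) : ℂ) := by
  rw [L2.inner_def, ← integral_complex_ofReal]
  refine integral_congr_ae ?_
  have h1 := (hUn X mX μ S).1 x hx F
  have h2 := (hUn X mX μ S).1 y hy H
  have h3 : (fun t => (F : X → ℂ) (S.T x t)) =ᵐ[μ] fun t => ((f (S.T x t) : ℝ) : ℂ) :=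
    (S.mp x hx).quasiMeasurePreserving.ae_eq_comp hF
  have h4 : (fun t => (H : X → ℂ) (S.T y t)) =ᵐ[μ] fun t => ((g (S.T y t) : ℝ) : ℂ) :=
    (S.mp y hy).quasiMeasurePreserving.ae_eq_comp hH
  filter_upwards [h1, h2, h3, h4] with t h1 h2 h3 h4
  rw [RCLike.inner_apply, h1, h2, h3, h4, Complex.conj_ofReal]
  push_cast
  ring

omit hμ in
/-- the invariant part gives the main term -/
theorem main_term (S : Sys μ) {g J G : X → ℝ} (hJ : InvF S J) (hG : IsJ S g G) {x y : ℕ}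
    (hx : 0 < x) (hy : 0 < y) :
    ∫ t, J (S.T x t) * g (S.T y t) ∂μ = ∫ t, J t * G t ∂μ := by
  have h1 : ∫ t, J (S.T x t) * g (S.T y t) ∂μ = ∫ t, J (S.T y t) * g (S.T y t) ∂μ := by
    refine integral_congr_ae ?_
    filter_upwards [hJ.2 x hx, hJ.2 y hy] with t a b
    rw [a, b]
  rw [h1, (S.mp y hy).integral_comp' (fun t => J t * g t)]
  exact hG.int J hJ

end

/-- one of the two families of pairs -/
theorem half (hEv : S_Ev) (hRe : StRe) (hUn : StVUn) (hSp : SpecS) (hJe : StJe) (hJm : StJm)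
    (hOp : StOp) (hNf : StNf) (q : ℕ → ℕ → ℕ) (hq : ∀ y z, 0 < y → 0 < z → 0 < q y z)
    (hKx : ∀ g : GG, g ≠ 1 → ∀ ε : ℝ, 0 < ε → Nest fun w K M =>
      ‖AvK 1 w K M fun x y z => ev g x * conj (ev g (q y z))‖ ≤ ε)
    (X : Type) [mX : MeasurableSpace X] (μ : Measure X) [hμ : IsProbabilityMeasure μ]
    (S : Sys μ) (f g J G : X → ℝ) (hf : BM f) (hg : BM g) (hJ : IsJ S f J) (hG : IsJ S g G)
    (ε : ℝ) (hε : 0 < ε) : Nest fun w K M =>
    |RA w K M (fun x y z => ∫ t, f (S.T x t) * g (S.T (q y z) t) ∂μ) - ∫ t, J t * G t ∂μ| ≤ ε := by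
  classical
  set F : Lp ℂ 2 μ := bl μ fun t => ((f t : ℝ) : ℂ) with hFdef
  set H : Lp ℂ 2 μ := bl μ fun t => ((g t : ℝ) : ℂ) with hHdef
  have hFa : (F : X → ℂ) =ᵐ[μ] fun t => ((f t : ℝ) : ℂ) := ICV.bl_ae (mem_bm hf)
  have hHa : (H : X → ℂ) =ᵐ[μ] fun t => ((g t : ℝ) : ℂ) := ICV.bl_ae (mem_bm hg)
  obtain ⟨σ, hσ, ⟨V⟩⟩ := hSp X mX μ hμ S F
  obtain ⟨J', hJ', hJV⟩ := hJe X mX μ hμ S f hf
  have hJJ : ∀ᵐ t ∂μ, J' t = J t := by
    filter_upwards [hJm X mX μ hμ S f f J' J hf hf hJ' hJ (Eventually.of_forall fun _ => le_rfl),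
      hJm X mX μ hμ S f f J J' hf hf hJ hJ' (Eventually.of_forall fun _ => le_rfl)] with t a b
    exact le_antisymm a b
  have hs1 : MeasurableSet ({1} : Set GG) := isClosed_singleton.measurableSet
  set F0 : Lp ℂ 2 μ := V.V (b1 σ {1}) with hF0
  set F1 : Lp ℂ 2 μ := V.V (b1 σ {1}ᶜ) with hF1
  have hF0a : (F0 : X → ℂ) =ᵐ[μ] fun t => ((J t : ℝ) : ℂ) := by
    filter_upwards [hJV σ hσ V, hJJ] with t a b
    rw [a, b]
  have hsum : F = F0 + F1 := by
    rw [hF0, hF1, ← map_add]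
    refine V.one.symm.trans (congrArg V.V ?_)
    unfold b1
    rw [ICV.bl_eq (ICV.mem_ind MeasurableSet.univ), ICV.bl_eq (ICV.mem_ind hs1),
      ICV.bl_eq (ICV.mem_ind hs1.compl), ← MemLp.toLp_add]
    rw [MemLp.toLp_eq_toLp_iff]
    refine Eventually.of_forall fun g => ?_
    by_cases h : g ∈ ({1} : Set GG)
    · simp only [Pi.add_apply]
      rw [Set.indicator_of_mem (Set.mem_univ g), Set.indicator_of_mem h,
        Set.indicator_of_notMem (show g ∉ ({1} : Set GG)ᶜ from fun h' => h' h), add_zero]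
    · simp only [Pi.add_apply]
      rw [Set.indicator_of_mem (Set.mem_univ g), Set.indicator_of_notMem h,
        Set.indicator_of_mem (show g ∈ ({1} : Set GG)ᶜ from h), zero_add]
  -- the decomposition of a correlation
  have hcor : ∀ x y : ℕ, 0 < x → 0 < y →
      ((∫ t, f (S.T x t) * g (S.T y t) ∂μ : ℝ) : ℂ) =
        ((∫ t, J t * G t ∂μ : ℝ) : ℂ) + inner ℂ (U S y H) (U S x F1) := by
    intro x y hx hy
    rw [← inner_cor hUn S hFa hHa hx hy, hsum, map_add, inner_add_right,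
      inner_cor hUn S hF0a hHa hx hy, main_term S hJ.inv hG hx hy]
  -- the error
  set E : Set GG := {1}ᶜ with hE
  have hEm : MeasurableSet E := hs1.compl
  set Q : ℕ → ℕ → ℕ → GG → ℝ := fun w K M =>
    if 0 < K ∧ 0 < M then
      E.indicator fun γ => ‖AvK 1 w K M fun x y z => ev γ x * conj (ev γ (q y z))‖ ^ 2
    else fun _ => 0 with hQ
  have hcont : ∀ w K M, 0 < K → 0 < M → Continuous fun γ : GG =>
      AvK 1 w K M fun x y z => ev γ x * conj (ev γ (q y z)) := by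
    intro w K M hK hM
    obtain ⟨ι, I, c, xx, yy, zz, hI, hc, hrep⟩ := hRe w K M hK hM
    simp only [hrep]
    exact continuous_finsetSum _ fun i _ => continuous_const.mul
      ((hEv.2.1 _).mul (Complex.continuous_conj.comp (hEv.2.1 _)))
  have hle1 : ∀ w K M, 0 < K → 0 < M → ∀ γ : GG,
      ‖AvK 1 w K M fun x y z => ev γ x * conj (ev γ (q y z))‖ ≤ 1 := by
    intro w K M hK hM γ
    obtain ⟨ι, I, c, xx, yy, zz, hI, hc, hrep⟩ := hRe w K M hK hM
    rw [hrep, ← hc]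
    refine (norm_sum_le _ _).trans (Finset.sum_le_sum fun i hi => ?_)
    obtain ⟨h0, h1, h2, h3, -⟩ := hI i hi
    rw [norm_mul, norm_mul, RCLike.norm_conj, (hEv.1 γ).norm _ h1,
      (hEv.1 γ).norm _ (hq _ _ h2 h3), Complex.norm_real, Real.norm_of_nonneg h0]
    simp
  have hQm : ∀ w K M, Measurable (Q w K M) := by
    intro w K M
    by_cases h : 0 < K ∧ 0 < M
    · simp only [hQ, if_pos h]
      exact Measurable.indicator ((hcont w K M h.1 h.2).norm.pow 2).measurable hEm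
    · simp only [hQ, if_neg h]
      exact measurable_const
  have hQb : ∀ w K M γ, |Q w K M γ| ≤ 1 := by
    intro w K M γ
    by_cases h : 0 < K ∧ 0 < M
    · simp only [hQ, if_pos h]
      by_cases hγ : γ ∈ E
      · rw [Set.indicator_of_mem hγ, abs_of_nonneg (by positivity)]
        exact pow_le_one₀ (norm_nonneg _) (hle1 w K M h.1 h.2 γ)
      · rw [Set.indicator_of_notMem hγ, abs_zero]
        exact zero_le_one
    · simp only [hQ, if_neg h, abs_zero]
      exact zero_le_one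
  have hQn : ∀ γ : GG, ∀ ε : ℝ, 0 < ε → Nest fun w K M => Q w K M γ ≤ ε := by
    intro γ ε hε
    by_cases hγ : γ ∈ E
    · have h := hKx γ hγ (min ε 1) (lt_min hε one_pos)
      refine nest_mono (fun w K M hK hM hh => ?_) h
      simp only [hQ, if_pos (And.intro hK hM)]
      rw [Set.indicator_of_mem hγ]
      have h1 := hh.trans (min_le_left _ _)
      have h2 := hh.trans (min_le_right _ _)
      nlinarith [norm_nonneg (AvK 1 w K M fun x y z => ev γ x * conj (ev γ (q y z)))]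
    · refine Filter.Eventually.of_forall fun w => Filter.Eventually.of_forall fun K =>
        Filter.Eventually.of_forall fun M => ?_
      by_cases h : 0 < K ∧ 0 < M
      · simp only [hQ, if_pos h]
        rw [Set.indicator_of_notMem hγ]
        exact hε.le
      · simp only [hQ, if_neg h]
        exact hε.le
  set η : ℝ := ε / (‖H‖ + 1) with hη
  have hH0 : 0 ≤ ‖H‖ := norm_nonneg _
  have hη0 : 0 < η := by positivity
  have hmain := hNf GG inferInstance σ hσ Q 1 hQm hQb (Filter.Eventually.of_forall hQn)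
    (η ^ 2) (by positivity)
  refine nest_mono (fun w K M hK hM hh => ?_) hmain
  obtain ⟨ι, I, c, xx, yy, zz, hI, hc, hrep⟩ := hRe w K M hK hM
  have hop := hOp X mX μ hμ S F σ hσ V E hEm ι I (fun i => (c i : ℂ)) xx
    (fun i => q (yy i) (zz i)) (fun i hi => ⟨(hI i hi).2.1, hq _ _ (hI i hi).2.2.1
      (hI i hi).2.2.2.1⟩) H
  have e1 : (AvK 1 w K M fun x y z => ((∫ t, f (S.T x t) * g (S.T (q y z) t) ∂μ : ℝ) : ℂ)) =
      ((∫ t, J t * G t ∂μ : ℝ) : ℂ) +
        ∑ i ∈ I, (c i : ℂ) * inner ℂ (U S (q (yy i) (zz i)) H) (U S (xx i) F1) := by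
    rw [hrep]
    calc ∑ i ∈ I, (c i : ℂ) *
          ((∫ t, f (S.T (xx i) t) * g (S.T (q (yy i) (zz i)) t) ∂μ : ℝ) : ℂ)
        = ∑ i ∈ I, ((c i : ℂ) * ((∫ t, J t * G t ∂μ : ℝ) : ℂ) +
            (c i : ℂ) * inner ℂ (U S (q (yy i) (zz i)) H) (U S (xx i) F1)) := by
          refine Finset.sum_congr rfl fun i hi => ?_
          obtain ⟨h0, h1, h2, h3, -⟩ := hI i hi
          rw [hcor _ _ h1 (hq _ _ h2 h3), mul_add]
      _ = _ := by
          rw [Finset.sum_add_distrib, ← Finset.sum_mul]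
          congr 1
          have : ∑ i ∈ I, (c i : ℂ) = 1 := by
            rw [← Complex.ofReal_sum, hc, Complex.ofReal_one]
          rw [this, one_mul]
  have e2 : ∫ γ in E, ‖∑ i ∈ I, (c i : ℂ) * (ev γ (xx i) * conj (ev γ (q (yy i) (zz i))))‖ ^ 2 ∂σ =
      ∫ γ, Q w K M γ ∂σ := by
    rw [← integral_indicator hEm]
    refine integral_congr_ae (Eventually.of_forall fun γ => ?_)
    simp only [hQ, if_pos (And.intro hK hM), hrep]
  have e3 : ‖∑ i ∈ I, (c i : ℂ) * inner ℂ (U S (q (yy i) (zz i)) H) (U S (xx i) F1)‖ ≤ ε := by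
    refine hop.trans ?_
    have hs : Real.sqrt (∫ γ in E, ‖∑ i ∈ I, (c i : ℂ) *
        (ev γ (xx i) * conj (ev γ (q (yy i) (zz i))))‖ ^ 2 ∂σ) ≤ η := by
      rw [e2]
      exact (Real.sqrt_le_sqrt hh).trans (Real.sqrt_sq hη0.le).le
    calc ‖H‖ * _ ≤ ‖H‖ * η := mul_le_mul_of_nonneg_left hs hH0
      _ ≤ (‖H‖ + 1) * η := mul_le_mul_of_nonneg_right (by linarith) hη0.le
      _ = ε := by rw [hη]; field_simp
  have e4 : RA w K M (fun x y z => ∫ t, f (S.T x t) * g (S.T (q y z) t) ∂μ) -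
      ∫ t, J t * G t ∂μ =
      (∑ i ∈ I, (c i : ℂ) * inner ℂ (U S (q (yy i) (zz i)) H) (U S (xx i) F1)).re := by
    unfold RA
    rw [e1, Complex.add_re, Complex.ofReal_re]
    ring
  rw [e4]
  exact (Complex.abs_re_le_norm _).trans e3

end ILx

open ILx in
theorem pr_Lx (hEv : S_Ev) (hRe : StRe) (hUn : StVUn) (hSp : SpecS) (hJe : StJe) (hJm : StJm)
    (hOp : StOp) (hKx : StKx) (hNf : StNf) : StLx := by
  intro X mX μ hμ S f g J G hf hg hJ hG ε hε
  have h1 := half hEv hRe hUn hSp hJe hJm hOp hNf (fun y _ => y) (fun y z hy _ => hy)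
    (fun γ hγ ε hε => nest_mono (fun w K M _ _ h => h.1) (hKx γ hγ ε hε))
    X μ S f g J G hf hg hJ hG ε hε
  have h2 := half hEv hRe hUn hSp hJe hJm hOp hNf (fun _ z => z) (fun y z _ hz => hz)
    (fun γ hγ ε hε => nest_mono (fun w K M _ _ h => h.2) (hKx γ hγ ε hε))
    X μ S f g J G hf hg hJ hG ε hε
  exact nest_and h1 h2

end Pool.Agent.F0f91f8.SC
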