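import Pool.Agent.Work.MP_0f91f8_co.SC.Stmts
import Pool.Agent.Work.MP_0f91f8_co.PC.I_VMn
import Pool.Agent.Work.MP_0f91f8_co.PC.I_VSp

/-!
# Block SC, item Ly: positivity for the pairs `y, z`
-/

set_option autoImplicit false

namespace Pool.Agent.F0f91f8.SC

open Filter Topology ComplexConjugate MeasureTheory
open Pool.Agent.F0f91f8.HD Pool.Agent.F0f91f8.RC Pool.Agent.F0f91f8.KR Pool.Agent.F0f91f8.FC
open Pool.Agent.F0f91f8.PC
open Pool.Agent.Work.MP_0f91f8_co.EF (GG ev IsFo S_Ev S_Haar S_Fol S_Cnt S_Chr)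
open scoped BigOperators

namespace ILy

lemma mem_BM {X : Type} [MeasurableSpace X] {μ : Measure X} [IsProbabilityMeasure μ] {f : X → ℝ}
    (hf : BM f) : MemLp (fun t => ((f t : ℝ) : ℂ)) 2 μ := by
  obtain ⟨hm, C, hC⟩ := hf
  refine MemLp.of_bound (Complex.measurable_ofReal.comp hm).aestronglyMeasurable C
    (Eventually.of_forall fun t => ?_)
  rw [Complex.norm_real, Real.norm_eq_abs]
  exact hC t

/-- correlations as inner products -/
lemma inner_U (hUn : StVUn) {X : Type} [mX : MeasurableSpace X] {μ : Measure X}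
    [IsProbabilityMeasure μ] (S : Sys μ) {f : X → ℝ} (hf : BM f) {y z : ℕ} (hy : 0 < y)
    (hz : 0 < z) :
    inner ℂ (U S z (bl μ fun t => ((f t : ℝ) : ℂ))) (U S y (bl μ fun t => ((f t : ℝ) : ℂ))) =
      ((∫ t, f (S.T y t) * f (S.T z t) ∂μ : ℝ) : ℂ) := by
  rw [L2.inner_def, ← integral_complex_ofReal]
  refine integral_congr_ae ?_
  have h0 := XVSp.bl_ae (mem_BM (μ := μ) hf)
  have h1 := (hUn X mX μ S).1 z hz (bl μ fun t => ((f t : ℝ) : ℂ))
  have h2 := (hUn X mX μ S).1 y hy (bl μ fun t => ((f t : ℝ) : ℂ))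
  have h3 : (fun t => (bl μ (fun t => ((f t : ℝ) : ℂ)) : X → ℂ) (S.T z t)) =ᵐ[μ]
      fun t => ((f (S.T z t) : ℝ) : ℂ) := (S.mp z hz).quasiMeasurePreserving.ae_eq_comp h0
  have h4 : (fun t => (bl μ (fun t => ((f t : ℝ) : ℂ)) : X → ℂ) (S.T y t)) =ᵐ[μ]
      fun t => ((f (S.T y t) : ℝ) : ℂ) := (S.mp y hy).quasiMeasurePreserving.ae_eq_comp h0
  filter_upwards [h1, h2, h3, h4] with t h1 h2 h3 h4
  rw [h1, h2, h3, h4, RCLike.inner_apply, Complex.conj_ofReal]
  push_cast
  rfl

lemma mem_one (σ : Measure GG) [IsFiniteMeasure σ] (E : Set GG) (hE : MeasurableSet E) :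
    MemLp (E.indicator fun _ => (1 : ℂ)) 2 σ :=
  memLp_indicator_const 2 hE 1 (Or.inr (measure_ne_top _ _))

/-- the spectral formula -/
lemma inner_V (hEv : S_Ev) {X : Type} [MeasurableSpace X] {μ : Measure X} {S : Sys μ}
    {F : Lp ℂ 2 μ} {σ : Measure GG} [IsFiniteMeasure σ] (V : SpV S F σ) {y z : ℕ} (hy : 0 < y)
    (hz : 0 < z) :
    inner ℂ (U S z F) (U S y F) = ∫ g, ev g y * conj (ev g z) ∂σ := by
  have hm1 := mem_one σ Set.univ MeasurableSet.univ
  have hU : ∀ n : ℕ, 0 < n → U S n F =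
      V.V (bl σ fun g => ev g n * (Set.univ : Set GG).indicator (fun _ => (1 : ℂ)) g) := by
    intro n hn
    rw [V.mul n hn _ hm1]
    have h1 : V.V (bl σ (Set.univ.indicator fun _ => (1 : ℂ))) = F := V.one
    rw [h1]
  rw [hU z hz, hU y hy, LinearIsometry.inner_map_map,
    XVSp.bl_inner (XVSp.mem_ev hEv hm1 z) (XVSp.mem_ev hEv hm1 y)]
  refine integral_congr_ae (Eventually.of_forall fun g => ?_)
  simp

/-- the mass at the trivial character -/
lemma mass {X : Type} [MeasurableSpace X] {μ : Measure X} {S : Sys μ}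
    {F : Lp ℂ 2 μ} {σ : Measure GG} [IsFiniteMeasure σ] (V : SpV S F σ) (J : X → ℝ)
    (hJ : (V.V (b1 σ {1}) : X → ℂ) =ᵐ[μ] fun t => ((J t : ℝ) : ℂ)) :
    ∫ t, J t ^ 2 ∂μ = σ.real {1} := by
  have hs1 : MeasurableSet ({1} : Set GG) := isClosed_singleton.measurableSet
  have h1 : inner ℂ (b1 σ {1}) (b1 σ {1}) = ((σ.real {1} : ℝ) : ℂ) := by
    unfold b1
    rw [XVSp.bl_inner (mem_one σ {1} hs1) (mem_one σ {1} hs1)]
    have h2 : ∀ g : GG, ({1} : Set GG).indicator (fun _ => (1 : ℂ)) g *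
        conj (({1} : Set GG).indicator (fun _ => (1 : ℂ)) g) =
        ({1} : Set GG).indicator (fun _ => (1 : ℂ)) g := by
      intro g
      by_cases hg : g ∈ ({1} : Set GG)
      · rw [Set.indicator_of_mem hg, map_one, mul_one]
      · rw [Set.indicator_of_notMem hg, zero_mul]
    simp only [h2]
    rw [integral_indicator_const _ hs1]
    simp
  have h3 : inner ℂ (V.V (b1 σ {1})) (V.V (b1 σ {1})) = ((∫ t, J t ^ 2 ∂μ : ℝ) : ℂ) := by
    rw [L2.inner_def, ← integral_complex_ofReal]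
    refine integral_congr_ae ?_
    filter_upwards [hJ] with t ht
    rw [ht, RCLike.inner_apply, Complex.conj_ofReal]
    push_cast
    ring
  rw [LinearIsometry.inner_map_map, h1] at h3
  exact (Complex.ofReal_injective h3).symm

end ILy

open ILy in
theorem pr_Ly (hEv : S_Ev) (hRe : StRe) (hUn : StVUn) (hSp : SpecS) (hJe : StJe) (hJm : StJm)
    (hNf : StNf)
    (hPos : ∀ f1 f2 : ℕ → ℂ, CM f1 → CM f2 → ∀ ε : ℝ, 0 < ε → Nest fun w K M =>
      -ε ≤ (AvK 1 w K M fun x y z => f1 x * f2 y * conj (f1 z * f2 z)).re) : StLy := by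
  classical
  intro X mX μ hμ S f J hf hJ ε hε
  obtain ⟨σ, hσ, ⟨V⟩⟩ := hSp X mX μ hμ S (bl μ fun t => ((f t : ℝ) : ℂ))
  obtain ⟨J', hJ', hJV⟩ := hJe X mX μ hμ S f hf
  have hmass : ∫ t, J t ^ 2 ∂μ = σ.real {1} := by
    rw [← mass V J' (hJV σ hσ V)]
    have h1 := hJm X mX μ hμ S f f J J' hf hf hJ hJ' (Eventually.of_forall fun _ => le_rfl)
    have h2 := hJm X mX μ hμ S f f J' J hf hf hJ' hJ (Eventually.of_forall fun _ => le_rfl)
    refine integral_congr_ae ?_
    filter_upwards [h1, h2] with t h1 h2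
    rw [le_antisymm h1 h2]
  have hcor : ∀ y z : ℕ, 0 < y → 0 < z →
      ((∫ t, f (S.T y t) * f (S.T z t) ∂μ : ℝ) : ℂ) = ∫ g, ev g y * conj (ev g z) ∂σ := by
    intro y z hy hz
    rw [← inner_U hUn S hf hy hz, inner_V hEv V hy hz]
  set F : ℕ → ℕ → ℕ → GG → ℝ := fun w K M g =>
    if 1 ≤ K ∧ 1 ≤ M then Set.indicator {1} (fun _ => (1 : ℝ)) g - XVMn.rA w K M g else 0 with hF
  have hs1 : MeasurableSet ({1} : Set GG) := isClosed_singleton.measurableSet
  have hFm : ∀ w K M, Measurable (F w K M) := by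
    intro w K M
    by_cases h : 1 ≤ K ∧ 1 ≤ M
    · simp only [hF, if_pos h]
      exact (measurable_const.indicator hs1).sub (XVMn.rA_cont hEv w K M h.1 h.2).measurable
    · simp only [hF, if_neg h]
      exact measurable_const
  have hFb : ∀ w K M g, |F w K M g| ≤ 2 := by
    intro w K M g
    by_cases h : 1 ≤ K ∧ 1 ≤ M
    · simp only [hF, if_pos h]
      have h1 := XVMn.rA_le hEv w K M h.1 h.2 g
      have h2 : |Set.indicator ({1} : Set GG) (fun _ => (1 : ℝ)) g| ≤ 1 := by
        by_cases hg : g ∈ ({1} : Set GG)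
        · rw [Set.indicator_of_mem hg, abs_one]
        · rw [Set.indicator_of_notMem hg, abs_zero]
          exact zero_le_one
      have h3 := abs_sub (Set.indicator ({1} : Set GG) (fun _ => (1 : ℝ)) g) (XVMn.rA w K M g)
      linarith
    · simp only [hF, if_neg h, abs_zero]
      norm_num
  have hCMev : ∀ g : GG, CM (ev g) := fun g => ⟨(hEv.1 g).zero, (hEv.1 g).mul, (hEv.1 g).norm⟩
  have hCM1 : CM fun n : ℕ => if n = 0 then (0 : ℂ) else 1 := by
    refine ⟨if_pos rfl, ?_, ?_⟩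
    · intro m n
      by_cases hm : m = 0
      · simp [hm]
      · by_cases hn : n = 0
        · simp [hn]
        · simp [hm, hn]
    · intro n hn
      simp [hn.ne']
  have hNest : ∀ g : GG, ∀ ε : ℝ, 0 < ε → Nest fun w K M => F w K M g ≤ ε := by
    intro g ε hε
    by_cases hg : g = 1
    · subst hg
      refine Filter.Eventually.of_forall fun w => Filter.Eventually.of_forall fun K =>
        Filter.Eventually.of_forall fun M => ?_
      by_cases h : 1 ≤ K ∧ 1 ≤ M
      · simp only [hF, if_pos h]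
        rw [XVMn.rA_one hEv w K M h.1 h.2, Set.indicator_of_mem (Set.mem_singleton _)]
        linarith
      · simp only [hF, if_neg h]
        exact hε.le
    · have hp := hPos _ _ hCM1 (hCMev g) ε hε
      refine hp.mono fun w hp => hp.mono fun K hp => hp.mono fun M hp => ?_
      by_cases h : 1 ≤ K ∧ 1 ≤ M
      · simp only [hF, if_pos h]
        rw [Set.indicator_of_notMem (by simpa using hg)]
        have he : (AvK 1 w K M fun x y z => (if x = 0 then (0 : ℂ) else 1) * ev g y *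
            conj ((if z = 0 then (0 : ℂ) else 1) * ev g z)).re = XVMn.rA w K M g := by
          obtain ⟨ι, S, X, Y, Z, hS, hpos, hrep⟩ := IAvP.rep 1 w K M h.1 h.2
          unfold XVMn.rA
          rw [hrep, hrep]
          congr 2
          refine Finset.sum_congr rfl fun i hi => ?_
          obtain ⟨h1, h2, h3⟩ := hpos i hi
          rw [if_neg h1.ne', if_neg h3.ne', one_mul, one_mul]
        beta_reduce at hp
        rw [he] at hp
        linarith
      · simp only [hF, if_neg h]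
        exact hε.le
  have hmain := hNf GG inferInstance σ hσ F 2 hFm hFb (Filter.Eventually.of_forall hNest) ε hε
  refine hmain.mono fun w hw => (hw.and (eventually_ge_atTop 1)).mono fun K hK =>
    (hK.1.and (eventually_ge_atTop 1)).mono fun M hM => ?_
  have hK1 := hK.2
  have hM1 := hM.2
  have h1 := hM.1
  have h2 : RA w K M (fun _ y z => ∫ t, f (S.T y t) * f (S.T z t) ∂μ) =
      ∫ g, XVMn.rA w K M g ∂σ := by
    unfold RA
    exact XVMn.main_int hEv w K M hK1 hM1 σ _ fun x y z _ hy hz => hcor y z hy hz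
  beta_reduce at h1 ⊢
  rw [h2, hmass]
  have h3 : ∫ g, F w K M g ∂σ = σ.real {1} - ∫ g, XVMn.rA w K M g ∂σ := by
    simp only [hF, if_pos (And.intro hK1 hM1)]
    rw [integral_sub]
    · rw [integral_indicator_const _ hs1, smul_eq_mul, mul_one]
    · exact (integrable_const (1 : ℝ)).indicator hs1
    · refine Integrable.of_bound (XVMn.rA_cont hEv w K M hK1 hM1).aestronglyMeasurable 1 ?_
      exact Filter.Eventually.of_forall fun g => XVMn.rA_le hEv w K M hK1 hM1 g
  rw [h3] at h1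
  linarith

end Pool.Agent.F0f91f8.SC
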