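import Pool.Agent.Work.MP_0f91f8_co.SC.Stmts

/-!
# Block SC, item Mn: the theorem for means
-/

set_option autoImplicit false

namespace Pool.Agent.F0f91f8.SC

open Filter Topology ComplexConjugate MeasureTheory
open Pool.Agent.F0f91f8.HD Pool.Agent.F0f91f8.RC Pool.Agent.F0f91f8.KR Pool.Agent.F0f91f8.FC
open Pool.Agent.F0f91f8.PC

theorem pr_Mn (hSy : SysS) (hUn : StVUn) (hX : SCX) : StMn := by
  intro m hm A hA
  by_contra hcon
  push Not at hcon
  obtain ⟨X, mX, μ, hμ, S, B, hB, h3, _⟩ := hSy m hm A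
  have hPF : PF S B := by
    intro x y z hx hy hz hxyz
    have h1 : μ.real {t | S.T x t ∈ B ∧ S.T y t ∈ B ∧ S.T z t ∈ B} ≤ 0 := by
      rw [h3 x y z hx hy hz]
      exact hcon x y z hx hy hz hxyz
    have h2 : μ.real {t | S.T x t ∈ B ∧ S.T y t ∈ B ∧ S.T z t ∈ B} = 0 :=
      le_antisymm h1 measureReal_nonneg
    rw [measureReal_eq_zero_iff] at h2
    rw [ae_iff]
    simp only [not_not]
    exact h2
  have h4 := hX X mX μ hμ S B hB hPF
  have h5 := h3 1 1 1 one_pos one_pos one_pos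
  have hT : ∀ x, S.T 1 x = x := (hUn X mX μ S).2.2.2.1
  have e1 : {x | S.T 1 x ∈ B ∧ S.T 1 x ∈ B ∧ S.T 1 x ∈ B} = B := by
    ext x
    simp only [hT, and_self, Set.setOf_mem_eq]
  have e2 : {n | 1 * n ∈ A ∧ 1 * n ∈ A ∧ 1 * n ∈ A} = A := by
    ext n
    simp only [one_mul, and_self, Set.setOf_mem_eq]
  rw [e1, e2] at h5
  linarith

end Pool.Agent.F0f91f8.SC
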