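import Pool.Agent.Work.MP_0f91f8_co.SC.Stmts

/-!
# Block SC, item Nu: the certificate (helper37)
-/

set_option autoImplicit false

namespace Pool.Agent.F0f91f8.SC

namespace INu

theorem bd {x : ℝ} (h0 : 0 ≤ x - x ^ 2) (h : x ≤ 1 / 47) : x - x ^ 2 ≤ 46 / 2209 := by
  nlinarith

theorem r3 {a e : ℝ} (he : e ≤ 46 / 2209) (h : |a ^ 2 - a| ≤ 3 * ((3 : ℕ) : ℝ) * e)
    (ha : 1 / 4 ≤ a) : 3 / 4 ≤ a := by
  by_contra hcon
  push Not at hcon
  have h1 := neg_le_abs (a ^ 2 - a)
  have h2 : 0 ≤ (a - 1 / 4) * (3 / 4 - a) := mul_nonneg (by linarith) (by linarith)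
  push_cast at h
  nlinarith

theorem r2 {a e : ℝ} (he : e ≤ 46 / 2209) (h : |a ^ 2 - a| ≤ 3 * ((2 : ℕ) : ℝ) * e)
    (ha : 1 / 2 ≤ a) : 4 / 5 ≤ a := by
  by_contra hcon
  push Not at hcon
  have h1 := neg_le_abs (a ^ 2 - a)
  have h2 : 0 ≤ (a - 1 / 5) * (4 / 5 - a) := mul_nonneg (by linarith) (by linarith)
  push_cast at h
  nlinarith

end INu

theorem pr_Nu : StNu := by
  intro m m₁ h1 h2 h3 h4 h5
  have he0 : 0 ≤ m₁ - m₁ ^ 2 := by
    have := h1 {1} (by decide)
    rw [Finset.card_singleton] at this
    have h6 := (abs_nonneg _).trans this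
    push_cast at h6
    linarith
  have he : m₁ - m₁ ^ 2 ≤ 46 / 2209 := INu.bd he0 h5
  have R3 : ∀ L : Finset ℕ, (∀ n ∈ L, 0 < n) → L.card = 3 → 1 / 4 ≤ m L → 3 / 4 ≤ m L := by
    intro L hL hc hm
    have := h1 L hL
    rw [hc] at this
    exact INu.r3 he this hm
  have R2 : ∀ L : Finset ℕ, (∀ n ∈ L, 0 < n) → L.card = 2 → 1 / 2 ≤ m L → 4 / 5 ≤ m L := by
    intro L hL hc hm
    have := h1 L hL
    rw [hc] at this
    exact INu.r2 he this hm
  have T : ∀ a b c : ℕ, 0 < a → 0 < b → 0 < c → a ≠ b → a ≠ c → b ≠ c → a ^ 2 + b ^ 2 = c ^ 2 →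
      3 / 4 ≤ m {a, b, c} := by
    intro a b c ha hb hc hab hac hbc h
    have h6 := h3 a b c ha hb hc hab hac hbc h
    refine R3 _ ?_ ?_ (by linarith)
    · intro n hn
      simp only [Finset.mem_insert, Finset.mem_singleton] at hn
      rcases hn with rfl | rfl | rfl
      · exact ha
      · exact hb
      · exact hc
    · exact Finset.card_eq_three.2 ⟨a, b, c, hab, hac, hbc, rfl⟩
  have St : ∀ (L M N : Finset ℕ) (a b : ℝ), (∀ n ∈ L, 0 < n) → (∀ n ∈ M, 0 < n) →
      symmDiff L M = N → a ≤ m L → b ≤ m M → a + b - 1 ≤ m N := by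
    intro L M N a b hL hM hN ha hb
    have := h2 L M hL hM
    rw [hN] at this
    linarith
  have t1 := T 468 624 780 (by norm_num) (by norm_num) (by norm_num) (by norm_num) (by norm_num)
    (by norm_num) (by norm_num)
  have t2 := T 780 1040 1300 (by norm_num) (by norm_num) (by norm_num) (by norm_num) (by norm_num)
    (by norm_num) (by norm_num)
  have q1 := St {468, 624, 780} {780, 1040, 1300} {468, 624, 1040, 1300} _ _ (by decide)
    (by decide) (by decide) t1 t2
  have t3 := T 624 832 1040 (by norm_num) (by norm_num) (by norm_num) (by norm_num) (by norm_num)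
    (by norm_num) (by norm_num)
  have p := R3 {468, 832, 1300} (by decide) (by decide)
    (le_trans (by norm_num) (St {468, 624, 1040, 1300} {624, 832, 1040} {468, 832, 1300} _ _
      (by decide) (by decide) (by decide) q1 t3))
  have t4 := T 1296 1995 2379 (by norm_num) (by norm_num) (by norm_num) (by norm_num)
    (by norm_num) (by norm_num) (by norm_num)
  have t5 := T 1995 2340 3075 (by norm_num) (by norm_num) (by norm_num) (by norm_num)
    (by norm_num) (by norm_num) (by norm_num)
  have q2 := St {1296, 1995, 2379} {1995, 2340, 3075} {1296, 2340, 2379, 3075} _ _ (by decide)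
    (by decide) (by decide) t4 t5
  have t6 := T 429 2340 2379 (by norm_num) (by norm_num) (by norm_num) (by norm_num)
    (by norm_num) (by norm_num) (by norm_num)
  have q3 := R3 {429, 1296, 3075} (by decide) (by decide)
    (le_trans (by norm_num) (St {1296, 2340, 2379, 3075} {429, 2340, 2379} {429, 1296, 3075} _ _
      (by decide) (by decide) (by decide) q2 t6))
  have t7 := T 1260 2805 3075 (by norm_num) (by norm_num) (by norm_num) (by norm_num)
    (by norm_num) (by norm_num) (by norm_num)
  have q4 := St {429, 1296, 3075} {1260, 2805, 3075} {429, 1260, 1296, 2805} _ _ (by decide)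
    (by decide) (by decide) q3 t7
  have t8 := T 429 2772 2805 (by norm_num) (by norm_num) (by norm_num) (by norm_num)
    (by norm_num) (by norm_num) (by norm_num)
  have q5 := R3 {1260, 1296, 2772} (by decide) (by decide)
    (le_trans (by norm_num) (St {429, 1260, 1296, 2805} {429, 2772, 2805} {1260, 1296, 2772} _ _
      (by decide) (by decide) (by decide) q4 t8))
  have t9 := T 1296 2772 3060 (by norm_num) (by norm_num) (by norm_num) (by norm_num)
    (by norm_num) (by norm_num) (by norm_num)
  have q6 := R2 {1260, 3060} (by decide) (by decide)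
    (le_trans (by norm_num) (St {1260, 1296, 2772} {1296, 2772, 3060} {1260, 3060} _ _
      (by decide) (by decide) (by decide) q5 t9))
  have t10 := T 468 3024 3060 (by norm_num) (by norm_num) (by norm_num) (by norm_num)
    (by norm_num) (by norm_num) (by norm_num)
  have q7 := R3 {468, 1260, 3024} (by decide) (by decide)
    (le_trans (by norm_num) (St {1260, 3060} {468, 3024, 3060} {468, 1260, 3024} _ _
      (by decide) (by decide) (by decide) q6 t10))
  have q8 := St {468, 1260, 3024} {468, 832, 1300} {832, 1260, 1300, 3024} _ _ (by decide)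
    (by decide) (by decide) q7 p
  have t11 := T 320 1260 1300 (by norm_num) (by norm_num) (by norm_num) (by norm_num)
    (by norm_num) (by norm_num) (by norm_num)
  have q9 := R3 {320, 832, 3024} (by decide) (by decide)
    (le_trans (by norm_num) (St {832, 1260, 1300, 3024} {320, 1260, 1300} {320, 832, 3024} _ _
      (by decide) (by decide) (by decide) q8 t11))
  have t12 := T 320 768 832 (by norm_num) (by norm_num) (by norm_num) (by norm_num)
    (by norm_num) (by norm_num) (by norm_num)
  have q10 := R2 {768, 3024} (by decide) (by decide)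
    (le_trans (by norm_num) (St {320, 832, 3024} {320, 768, 832} {768, 3024} _ _
      (by decide) (by decide) (by decide) q9 t12))
  have t13 := T 768 3024 3120 (by norm_num) (by norm_num) (by norm_num) (by norm_num)
    (by norm_num) (by norm_num) (by norm_num)
  have q11 := St {768, 3024} {768, 3024, 3120} {3120} _ _ (by decide) (by decide) (by decide)
    q10 t13
  rw [h4 3120 (by norm_num)] at q11
  linarith

end Pool.Agent.F0f91f8.SC
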