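import Pool.Agent.Work.MP_0f91f8_co.SC.Stmts
import Pool.Agent.Work.MP_0f91f8_co.PC.I_CV

/-!
# Block SC, item Op: averages of correlations
-/

set_option autoImplicit false

namespace Pool.Agent.F0f91f8.SC

open Filter Topology ComplexConjugate MeasureTheory
open Pool.Agent.F0f91f8.HD Pool.Agent.F0f91f8.RC Pool.Agent.F0f91f8.KR Pool.Agent.F0f91f8.FC
open Pool.Agent.F0f91f8.PC
open Pool.Agent.Work.MP_0f91f8_co.EF (GG ev)
open scoped BigOperators

namespace IOp

theorem ev_conj (g : GG) (n : ℕ) (hn : 0 < n) : ev g n * conj (ev g n) = 1 := by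
  rw [Complex.mul_conj, Complex.normSq_eq_norm_sq, (ICV.ev_cm g).norm n hn]
  norm_num

theorem mem_conj {σ : Measure GG} {φ : GG → ℂ} (h : MemLp φ 2 σ) (n : ℕ) :
    MemLp (fun g => conj (ev g n) * φ g) 2 σ := by
  refine h.of_le ((Complex.continuous_conj.comp
    (ICV.ev_cont n)).aestronglyMeasurable.mul h.1) (Eventually.of_forall fun g => ?_)
  rw [norm_mul, RCLike.norm_conj]
  exact mul_le_of_le_one_left (norm_nonneg _) (ICV.ev_le g n)

theorem bl_sum {Y : Type} [MeasurableSpace Y] {ν : Measure Y} {ι : Type} (f : ι → Y → ℂ)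
    (c : ι → ℂ) (I : Finset ι) (hf : ∀ i ∈ I, MemLp (f i) 2 ν) :
    MemLp (fun y => ∑ i ∈ I, c i * f i y) 2 ν ∧
      bl ν (fun y => ∑ i ∈ I, c i * f i y) = ∑ i ∈ I, c i • bl ν (f i) := by
  classical
  induction I using Finset.induction_on with
  | empty =>
    simp only [Finset.sum_empty]
    have h0 : MemLp (fun _ : Y => (0 : ℂ)) 2 ν := MemLp.zero
    refine ⟨h0, ?_⟩
    rw [ICV.bl_eq h0]
    exact MemLp.toLp_zero h0
  | insert a s ha ih =>
    obtain ⟨h1, h2⟩ := ih fun i hi => hf i (Finset.mem_insert_of_mem hi)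
    have ha' := hf a (Finset.mem_insert_self a s)
    have h3 : MemLp (fun y => c a * f a y) 2 ν := ha'.const_smul (c a)
    have e : (fun y => ∑ i ∈ insert a s, c i * f i y) =
        (fun y => c a * f a y) + fun y => ∑ i ∈ s, c i * f i y := by
      funext y
      rw [Finset.sum_insert ha]
      rfl
    have h4 : bl ν (fun y => c a * f a y) = c a • bl ν (f a) := by
      rw [ICV.bl_eq ha', ICV.bl_eq h3]
      exact MemLp.toLp_const_smul (c a) ha'
    rw [e]
    refine ⟨h3.add h1, ?_⟩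
    rw [ICV.bl_eq (h3.add h1), MemLp.toLp_add h3 h1, ← ICV.bl_eq h3, ← ICV.bl_eq h1, h2, h4,
      Finset.sum_insert ha]

theorem nsq {Y : Type} [MeasurableSpace Y] {ν : Measure Y} {φ : Y → ℂ} (h : MemLp φ 2 ν) :
    ‖bl ν φ‖ ^ 2 = ∫ y, ‖φ y‖ ^ 2 ∂ν := by
  rw [ICV.bl_eq h]
  have e1 : ((‖h.toLp φ‖ ^ 2 : ℝ) : ℂ) = inner ℂ (h.toLp φ) (h.toLp φ) := by
    rw [inner_self_eq_norm_sq_to_K]; push_cast; rfl
  have e2 : inner ℂ (h.toLp φ) (h.toLp φ) = ((∫ y, ‖φ y‖ ^ 2 ∂ν : ℝ) : ℂ) := by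
    rw [L2.inner_def, ← integral_complex_ofReal]
    apply integral_congr_ae
    filter_upwards [h.coeFn_toLp] with y hy
    rw [hy, inner_self_eq_norm_sq_to_K]; push_cast; rfl
  exact_mod_cast e1.trans e2

end IOp

theorem pr_Op : StOp := by
  intro X _ μ _ S F σ _ V E hE ι I c a b hab G
  set φ : ι → GG → ℂ := fun i g =>
    ev g (a i) * (conj (ev g (b i)) * E.indicator (fun _ => (1 : ℂ)) g) with hφ
  have hm : ∀ i ∈ I, MemLp (φ i) 2 σ := fun i _ =>
    ICV.mem_ev (IOp.mem_conj (ICV.mem_ind hE) (b i)) (a i)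
  obtain ⟨h1, h2⟩ := IOp.bl_sum (ν := σ) φ c I hm
  have h3 : ∀ i ∈ I, U S (a i) (V.V (b1 σ E)) = U S (b i) (V.V (bl σ (φ i))) := by
    intro i hi
    obtain ⟨ha, hb⟩ := hab i hi
    rw [← V.mul (b i) hb (φ i) (hm i hi)]
    unfold b1
    rw [← V.mul (a i) ha _ (ICV.mem_ind hE)]
    congr 2
    funext g
    rw [hφ]
    have h5 := IOp.ev_conj g (b i) hb
    calc ev g (a i) * E.indicator (fun _ => (1 : ℂ)) g
        = (ev g (b i) * conj (ev g (b i))) *
            (ev g (a i) * E.indicator (fun _ => (1 : ℂ)) g) := by rw [h5, one_mul]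
      _ = ev g (b i) * (ev g (a i) * (conj (ev g (b i)) *
            E.indicator (fun _ => (1 : ℂ)) g)) := by ring
  have h4 : ∑ i ∈ I, c i * inner ℂ (U S (b i) G) (U S (a i) (V.V (b1 σ E))) =
      inner ℂ G (V.V (bl σ fun g => ∑ i ∈ I, c i * φ i g)) := by
    rw [h2, map_sum, inner_sum]
    refine Finset.sum_congr rfl fun i hi => ?_
    rw [h3 i hi, LinearIsometry.inner_map_map, LinearIsometry.map_smul, inner_smul_right]
  rw [h4]
  refine (norm_inner_le_norm _ _).trans ?_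
  rw [LinearIsometry.norm_map]
  refine mul_le_mul_of_nonneg_left ?_ (norm_nonneg _)
  refine Real.le_sqrt_of_sq_le ?_
  rw [IOp.nsq h1, ← integral_indicator hE]
  refine le_of_eq (integral_congr_ae (Eventually.of_forall fun g => ?_))
  by_cases h : g ∈ E
  · simp only [hφ, Set.indicator_of_mem h, mul_one]
  · simp only [hφ, Set.indicator_of_notMem h, mul_zero, Finset.sum_const_zero, norm_zero]
    norm_num

end Pool.Agent.F0f91f8.SC
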