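import Pool.Agent.Work.MP_0f91f8_co.SC.Stmts

/-!
# Block SC, item Ra: rules for the averages
-/

set_option autoImplicit false

namespace Pool.Agent.F0f91f8.SC

open Filter Topology ComplexConjugate MeasureTheory
open Pool.Agent.F0f91f8.HD Pool.Agent.F0f91f8.RC Pool.Agent.F0f91f8.KR Pool.Agent.F0f91f8.FC
open Pool.Agent.F0f91f8.PC
open scoped BigOperators

namespace IRa

/-- the average as a finite convex combination -/
theorem formula (hRe : StRe) (w K M : ℕ) (hK : 0 < K) (hM : 0 < M) :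
    ∃ (ι : Type) (I : Finset ι) (c : ι → ℝ) (x y z : ι → ℕ),
      (∀ i ∈ I, 0 ≤ c i ∧ 0 < x i ∧ 0 < y i ∧ 0 < z i ∧ x i ^ 2 + y i ^ 2 = z i ^ 2) ∧
      ∑ i ∈ I, c i = 1 ∧
      ∀ Φ : ℕ → ℕ → ℕ → ℝ, RA w K M Φ = ∑ i ∈ I, c i * Φ (x i) (y i) (z i) := by
  obtain ⟨ι, I, c, x, y, z, h1, h2, h3⟩ := hRe w K M hK hM
  refine ⟨ι, I, c, x, y, z, h1, h2, fun Φ => ?_⟩
  unfold RA
  rw [h3, Complex.re_sum]
  refine Finset.sum_congr rfl fun i _ => ?_
  rw [← Complex.ofReal_mul, Complex.ofReal_re]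

end IRa

/-- Ra. -/
theorem pr_Ra (hRe : StRe) : StRa := by
  intro w K M hK hM
  obtain ⟨ι, I, c, x, y, z, h1, h2, h3⟩ := IRa.formula hRe w K M hK hM
  refine ⟨fun Φ Ψ => ?_, fun a Φ => ?_, fun a => ?_, fun Φ Ψ h => ?_⟩
  · rw [h3, h3, h3, ← Finset.sum_add_distrib]
    exact Finset.sum_congr rfl fun i _ => mul_add _ _ _
  · rw [h3, h3, Finset.mul_sum]
    exact Finset.sum_congr rfl fun i _ => mul_left_comm _ _ _
  · rw [h3, ← Finset.sum_mul, h2, one_mul]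
  · rw [h3, h3]
    refine Finset.sum_le_sum fun i hi => ?_
    obtain ⟨hc, hx, hy, hz, hxyz⟩ := h1 i hi
    exact mul_le_mul_of_nonneg_left (h _ _ _ hx hy hz hxyz) hc

end Pool.Agent.F0f91f8.SC
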