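import Pool.Agent.Work.MP_0f91f8_co.SC.Stmts
import Pool.Agent.Work.MP_0f91f8_co.PC.I_BIf

/-!
# Block SC, item Re: the family as a finite convex combination (helper7)
-/

set_option autoImplicit false

namespace Pool.Agent.F0f91f8.SC

open Filter Topology ComplexConjugate MeasureTheory
open Pool.Agent.F0f91f8.HD Pool.Agent.F0f91f8.RC Pool.Agent.F0f91f8.KR Pool.Agent.F0f91f8.FC
open Pool.Agent.F0f91f8.PC
open Pool.Agent.Work.MP_0f91f8_co.EF (GG ev IsFo S_Ev S_Haar S_Fol S_Cnt S_Chr)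
open scoped BigOperators

/-- **Re.** -/
theorem pr_Re : StRe := by
  intro w K M hK hM
  obtain ⟨hne, hB, hpos⟩ := pr_BIf w K M hK hM
  have hK0 : (K : ℝ) ≠ 0 := by exact_mod_cast hK.ne'
  have hI0 : ((IF w K M).card : ℝ) ≠ 0 := by exact_mod_cast (Finset.card_pos.2 hne).ne'
  refine ⟨(Fin (w + 1) → Fin K) × (Fin (K + 1) → Fin K) × (ℕ × ℕ × ℕ × ℕ),
    Finset.univ ×ˢ (Finset.univ ×ˢ IF w K M),
    fun _ => 1 / ((K : ℝ) ^ (w + 1) * (K : ℝ) ^ (K + 1) * ((IF w K M).card : ℝ)),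
    fun p => tX (kR 1 w K p.1) (kK 1 w K p.2.1) (aI w p.2.2) (nI w p.2.2),
    fun p => tY (kR 1 w K p.1) (kK 1 w K p.2.1) (aI w p.2.2) (nI w p.2.2),
    fun p => tZ (kR 1 w K p.1) (kK 1 w K p.2.1) (aI w p.2.2) (nI w p.2.2), ?_, ?_, ?_⟩
  · rintro ⟨e, e', i⟩ hi
    have hi' : i ∈ IF w K M := (Finset.mem_product.1 (Finset.mem_product.1 hi).2).2
    obtain ⟨h1, h2, h3⟩ := hpos e e' i hi'
    exact ⟨by positivity, h1, h2, h3, tXYZ _ _ _ _⟩
  · rw [Finset.sum_const, Finset.card_product, Finset.card_product, nsmul_eq_mul]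
    simp only [Finset.card_univ, Fintype.card_pi, Fintype.card_fin, Finset.prod_const]
    push_cast
    field_simp
  · intro Φ
    have h0 : AvK 1 w K M Φ = (∑ e : Fin (w + 1) → Fin K, ∑ e' : Fin (K + 1) → Fin K,
        BFK 1 w K M fun a n =>
          Φ (tX (kR 1 w K e) (kK 1 w K e') a n) (tY (kR 1 w K e) (kK 1 w K e') a n)
            (tZ (kR 1 w K e) (kK 1 w K e') a n)) /
        ((K : ℂ) ^ (w + 1) * (K : ℂ) ^ (K + 1)) := rfl
    rw [h0, Finset.sum_product, Finset.sum_div]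
    refine Finset.sum_congr rfl fun e _ => ?_
    rw [Finset.sum_product, Finset.sum_div]
    refine Finset.sum_congr rfl fun e' _ => ?_
    rw [hB, ← Finset.mul_sum]
    push_cast
    rw [div_div, div_eq_mul_one_div, mul_comm]
    congr 2
    ring

end Pool.Agent.F0f91f8.SC
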