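import Pool.Agent.Work.MP_0f91f8_co.SC.Stmts

/-!
Item [0f91f8 SC Rw]: a generic row.
-/

set_option autoImplicit false

namespace Pool.Agent.F0f91f8.SC

open Filter Topology ComplexConjugate MeasureTheory
open Pool.Agent.F0f91f8.HD Pool.Agent.F0f91f8.RC Pool.Agent.F0f91f8.KR Pool.Agent.F0f91f8.FC
open Pool.Agent.F0f91f8.PC
open Pool.Agent.Work.MP_0f91f8_co.EF (GG ev IsFo S_Ev S_Haar S_Fol S_Cnt S_Chr)
open scoped BigOperators

namespace IRw

theorem nest_and {P Q : ℕ → ℕ → ℕ → Prop} (h1 : Nest P) (h2 : Nest Q) :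
    Nest fun w K M => P w K M ∧ Q w K M := by
  unfold Nest at *
  filter_upwards [h1, h2] with w a1 a2
  filter_upwards [a1, a2] with K b1 b2
  filter_upwards [b1, b2] with M c1 c2
  exact ⟨c1, c2⟩

theorem nest_mono {P Q : ℕ → ℕ → ℕ → Prop} (h1 : Nest P) (h : ∀ w K M, P w K M → Q w K M) :
    Nest Q := by
  unfold Nest at *
  filter_upwards [h1] with w a1
  filter_upwards [a1] with K b1
  filter_upwards [b1] with M c1
  exact h w K M c1

theorem nest_pos : Nest fun _ K M => 0 < K ∧ 0 < M := by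
  unfold Nest
  refine Eventually.of_forall fun w => ?_
  filter_upwards [eventually_gt_atTop 0] with K hK
  filter_upwards [eventually_gt_atTop 0] with M hM
  exact ⟨hK, hM⟩

section
variable {X : Type} [MeasurableSpace X] {μ : Measure X}

lemma bm_mul {f g : X → ℝ} (hf : BM f) (hg : BM g) : BM (fun t => f t * g t) := by
  obtain ⟨hf1, C, hC⟩ := hf
  obtain ⟨hg1, D, hD⟩ := hg
  refine ⟨hf1.mul hg1, C * D, fun t => ?_⟩
  rw [abs_mul]
  exact mul_le_mul (hC t) (hD t) (abs_nonneg _) ((abs_nonneg _).trans (hC t))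

lemma bm_int [IsProbabilityMeasure μ] {f : X → ℝ} (hf : BM f) : Integrable f μ := by
  obtain ⟨hf1, C, hC⟩ := hf
  exact Integrable.of_bound hf1.aestronglyMeasurable C
    (Eventually.of_forall fun t => by rw [Real.norm_eq_abs]; exact hC t)

lemma bm_comp (S : Sys μ) {f : X → ℝ} (hf : BM f) (n : ℕ) : BM (fun t => f (S.T n t)) :=
  ⟨hf.1.comp (S.T n).measurable, hf.2.imp fun _ hC t => hC _⟩

omit [MeasurableSpace X] in
lemma vv_pm (A : Set X) (t : X) : vv A t = 1 ∨ vv A t = -1 := by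
  unfold vv
  by_cases h : t ∈ A
  · right
    rw [Set.indicator_of_mem h]
    norm_num
  · left
    rw [Set.indicator_of_notMem h]
    norm_num

omit [MeasurableSpace X] in
lemma vv_neg {A : Set X} {t : X} (h : vv A t = -1) : t ∈ A := by
  by_contra h'
  unfold vv at h
  rw [Set.indicator_of_notMem h'] at h
  norm_num at h

lemma bm_vv {A : Set X} (hA : MeasurableSet A) : BM (vv A) := by
  refine ⟨?_, 1, ?_⟩
  · show Measurable (fun t => 1 - 2 * A.indicator (fun _ => (1 : ℝ)) t)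
    exact measurable_const.sub (measurable_const.mul (measurable_const.indicator hA))
  · intro t
    rcases vv_pm A t with h | h <;> rw [h] <;> norm_num

/-- one Pythagorean triple -/
lemma one_row (hId : StId) [IsProbabilityMeasure μ] (S : Sys μ) {A : Set X}
    (hA : MeasurableSet A) (hPF : PF S A) {φ : X → ℝ} (hφ : InvF S φ)
    (hφ01 : ∀ t, φ t = 0 ∨ φ t = 1) {x y z : ℕ} (hx : 0 < x) (hy : 0 < y) (hz : 0 < z)
    (hxyz : x ^ 2 + y ^ 2 = z ^ 2) :
    ∫ t, φ t * (1 - vv A (S.T x t) * vv A (S.T y t) * vv A (S.T z t)) ∂μ =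
      ((∫ t, φ t * vv A (S.T x t) ∂μ) + (∫ t, φ t * vv A (S.T y t) ∂μ) +
        (∫ t, φ t * vv A (S.T z t) ∂μ)) -
      (∫ t, (φ (S.T x t) * vv A (S.T x t)) * (φ (S.T y t) * vv A (S.T y t)) ∂μ) -
      (∫ t, (φ (S.T x t) * vv A (S.T x t)) * (φ (S.T z t) * vv A (S.T z t)) ∂μ) -
      (∫ t, (φ (S.T y t) * vv A (S.T y t)) * (φ (S.T z t) * vv A (S.T z t)) ∂μ) := by
  have hv : BM (vv A) := bm_vv hA
  have i1 : Integrable (fun t => φ t * vv A (S.T x t)) μ := bm_int (bm_mul hφ.1 (bm_comp S hv x))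
  have i2 : Integrable (fun t => φ t * vv A (S.T y t)) μ := bm_int (bm_mul hφ.1 (bm_comp S hv y))
  have i3 : Integrable (fun t => φ t * vv A (S.T z t)) μ := bm_int (bm_mul hφ.1 (bm_comp S hv z))
  have hfB : BM (fun t => φ t * vv A t) := bm_mul hφ.1 hv
  have c1 : Integrable (fun t => (φ (S.T x t) * vv A (S.T x t)) *
      (φ (S.T y t) * vv A (S.T y t))) μ := bm_int (bm_mul (bm_comp S hfB x) (bm_comp S hfB y))
  have c2 : Integrable (fun t => (φ (S.T x t) * vv A (S.T x t)) *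
      (φ (S.T z t) * vv A (S.T z t))) μ := bm_int (bm_mul (bm_comp S hfB x) (bm_comp S hfB z))
  have c3 : Integrable (fun t => (φ (S.T y t) * vv A (S.T y t)) *
      (φ (S.T z t) * vv A (S.T z t))) μ := bm_int (bm_mul (bm_comp S hfB y) (bm_comp S hfB z))
  have i12 : Integrable (fun t => φ t * vv A (S.T x t) + φ t * vv A (S.T y t)) μ := i1.add i2
  have i123 : Integrable (fun t => φ t * vv A (S.T x t) + φ t * vv A (S.T y t) +
      φ t * vv A (S.T z t)) μ := i12.add i3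
  have d1 : Integrable (fun t => φ t * vv A (S.T x t) + φ t * vv A (S.T y t) +
      φ t * vv A (S.T z t) - (φ (S.T x t) * vv A (S.T x t)) *
      (φ (S.T y t) * vv A (S.T y t))) μ := i123.sub c1
  have d2 : Integrable (fun t => φ t * vv A (S.T x t) + φ t * vv A (S.T y t) +
      φ t * vv A (S.T z t) - (φ (S.T x t) * vv A (S.T x t)) *
      (φ (S.T y t) * vv A (S.T y t)) - (φ (S.T x t) * vv A (S.T x t)) *
      (φ (S.T z t) * vv A (S.T z t))) μ := d1.sub c2
  rw [← integral_add i1 i2, ← integral_add i12 i3, ← integral_sub i123 c1, ← integral_sub d1 c2,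
    ← integral_sub d2 c3]
  apply integral_congr_ae
  filter_upwards [hPF x y z hx hy hz hxyz, hφ.2 x hx, hφ.2 y hy, hφ.2 z hz] with t ht h1 h2 h3
  have h1' : φ (S.T x t) = φ t := h1
  have h2' : φ (S.T y t) = φ t := h2
  have h3' : φ (S.T z t) = φ t := h3
  have h4 := hId.1 (vv A (S.T x t)) (vv A (S.T y t)) (vv A (S.T z t)) (vv_pm A _) (vv_pm A _)
    (vv_pm A _) (fun h => ht ⟨vv_neg h.1, vv_neg h.2.1, vv_neg h.2.2⟩)
  have h5 : φ t * φ t = φ t := by
    rcases hφ01 t with h | h <;> rw [h] <;> norm_num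
  rw [h1', h2', h3', h4]
  linear_combination (vv A (S.T x t) * vv A (S.T y t) + vv A (S.T x t) * vv A (S.T z t) +
    vv A (S.T y t) * vv A (S.T z t)) * h5

end

end IRw

open IRw in
theorem pr_Rw (hId : StId) (hRa : StRa) (hJl : StJl) (hLx : StLx) (hLy : StLy) : StRw := by
  intro X mX μ hμ S A hA hPF J hJ φ hφ hφ01 ε hε
  obtain ⟨_, _, hJl3, hJl4⟩ := hJl X mX μ hμ S
  have hv : BM (vv A) := bm_vv hA
  have hfB : BM (fun t => φ t * vv A t) := bm_mul hφ.1 hv
  have hfJ : IsJ S (fun t => φ t * vv A t) (fun t => φ t * J t) := hJl3 φ (vv A) J hv hφ hJ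
  have hLx' := hLx X mX μ hμ S _ _ _ _ hfB hfB hfJ hfJ (ε / 3) (by positivity)
  have hLy' := hLy X mX μ hμ S _ _ hfB hfJ (ε / 3) (by positivity)
  have hsq : ∀ t, φ t * φ t = φ t := by
    intro t
    rcases hφ01 t with h | h <;> rw [h] <;> norm_num
  have hJB : BM J := hJ.inv.1
  have k1 : Integrable (fun t => φ t * J t) μ := bm_int (bm_mul hφ.1 hJB)
  have k2 : Integrable (fun t => φ t * (J t * J t)) μ := bm_int (bm_mul hφ.1 (bm_mul hJB hJB))
  have e1 : ∫ t, φ t * (J t - J t ^ 2) ∂μ = (∫ t, φ t * J t ∂μ) - ∫ t, φ t * (J t * J t) ∂μ := by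
    rw [← integral_sub k1 k2]
    apply integral_congr_ae
    refine Eventually.of_forall fun t => ?_
    show φ t * (J t - J t ^ 2) = φ t * J t - φ t * (J t * J t)
    ring
  have e2 : ∫ t, (φ t * J t) * (φ t * J t) ∂μ = ∫ t, φ t * (J t * J t) ∂μ := by
    apply integral_congr_ae
    refine Eventually.of_forall fun t => ?_
    show (φ t * J t) * (φ t * J t) = φ t * (J t * J t)
    linear_combination (J t * J t) * hsq t
  have e3 : ∫ t, (φ t * J t) ^ 2 ∂μ = ∫ t, φ t * (J t * J t) ∂μ := by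
    apply integral_congr_ae
    refine Eventually.of_forall fun t => ?_
    show (φ t * J t) ^ 2 = φ t * (J t * J t)
    linear_combination (J t * J t) * hsq t
  refine nest_mono (nest_and nest_pos (nest_and hLx' hLy')) ?_
  rintro w K M ⟨⟨hK, hM⟩, ⟨h1, h2⟩, h3⟩
  obtain ⟨ra, rm, rc, rl⟩ := hRa w K M hK hM
  have m1 := (abs_le.1 h1).1
  have m2 := (abs_le.1 h2).1
  rw [e2] at m1 m2
  rw [e3] at h3
  have hle := rl (fun x y z => ∫ t, φ t * (1 - vv A (S.T x t) * vv A (S.T y t) *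
      vv A (S.T z t)) ∂μ)
    (fun x y z => 3 * (∫ t, φ t * J t ∂μ) +
      ((-1) * (∫ t, (φ (S.T x t) * vv A (S.T x t)) * (φ (S.T y t) * vv A (S.T y t)) ∂μ) +
      ((-1) * (∫ t, (φ (S.T x t) * vv A (S.T x t)) * (φ (S.T z t) * vv A (S.T z t)) ∂μ) +
      (-1) * (∫ t, (φ (S.T y t) * vv A (S.T y t)) * (φ (S.T z t) * vv A (S.T z t)) ∂μ)))) (by
    intro x y z hx hy hz hxyz
    have h := one_row hId S hA hPF hφ hφ01 hx hy hz hxyz
    have f1 := (hJl4 (vv A) J x hx hv hJ).int φ hφ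
    have f2 := (hJl4 (vv A) J y hy hv hJ).int φ hφ
    have f3 := (hJl4 (vv A) J z hz hv hJ).int φ hφ
    apply le_of_eq
    show ∫ t, φ t * (1 - vv A (S.T x t) * vv A (S.T y t) * vv A (S.T z t)) ∂μ = _
    rw [h, f1, f2, f3]
    ring)
  refine hle.trans ?_
  rw [ra, ra, ra, rm, rm, rm, rm, rc, e1]
  linarith

end Pool.Agent.F0f91f8.SC
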