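import Pool.Agent.Work.MP_0f91f8_co.SC.Stmts

/-!
# Item Sb of block SC: products of words
-/

set_option autoImplicit false

namespace Pool.Agent.F0f91f8.SC

open Filter Topology ComplexConjugate MeasureTheory
open Pool.Agent.F0f91f8.HD Pool.Agent.F0f91f8.RC Pool.Agent.F0f91f8.KR Pool.Agent.F0f91f8.FC
open Pool.Agent.F0f91f8.PC
open Pool.Agent.Work.MP_0f91f8_co.EF (GG ev IsFo S_Ev S_Haar S_Fol S_Cnt S_Chr)
open scoped BigOperators

namespace ISb

section
variable {X : Type} [MeasurableSpace X] {μ : Measure X}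

omit [MeasurableSpace X] in
theorem vv_sign (A : Set X) (t : X) : vv A t = 1 ∨ vv A t = -1 := by
  unfold vv
  by_cases h : t ∈ A
  · rw [Set.indicator_of_mem h]
    right
    norm_num
  · rw [Set.indicator_of_notMem h]
    left
    norm_num

theorem vv_meas {A : Set X} (hA : MeasurableSet A) : Measurable (vv A) := by
  unfold vv
  exact measurable_const.sub ((measurable_const.indicator hA).const_mul 2)

theorem VL_sign (S : Sys μ) (A : Set X) (L : Finset ℕ) (t : X) :
    VL S A L t = 1 ∨ VL S A L t = -1 := by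
  unfold VL
  refine Finset.prod_induction _ (fun x : ℝ => x = 1 ∨ x = -1) ?_ (Or.inl rfl)
    (fun n _ => vv_sign A (S.T n t))
  rintro a b (rfl | rfl) (rfl | rfl)
  · left; norm_num
  · right; norm_num
  · right; norm_num
  · left; norm_num

theorem bm_VL (S : Sys μ) {A : Set X} (hA : MeasurableSet A) (L : Finset ℕ) :
    BM (VL S A L) := by
  refine ⟨?_, 1, fun t => ?_⟩
  · unfold VL
    exact Finset.measurable_prod L fun n _ => (vv_meas hA).comp (S.T n).measurable
  · rcases VL_sign S A L t with h | h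
    · rw [h, abs_one]
    · rw [h, abs_neg, abs_one]

theorem bm_vv {A : Set X} (hA : MeasurableSet A) : BM (vv A) := by
  refine ⟨vv_meas hA, 1, fun t => ?_⟩
  rcases vv_sign A t with h | h
  · rw [h, abs_one]
  · rw [h, abs_neg, abs_one]

theorem bm_lin {f g : X → ℝ} (a b : ℝ) (hf : BM f) (hg : BM g) : BM fun t => a * f t + b * g t := by
  obtain ⟨h1, C, h2⟩ := hf
  obtain ⟨h3, D, h4⟩ := hg
  refine ⟨(h1.const_mul a).add (h3.const_mul b), |a| * C + |b| * D, fun t => ?_⟩
  refine (abs_add_le _ _).trans ?_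
  rw [abs_mul, abs_mul]
  exact add_le_add (mul_le_mul_of_nonneg_left (h2 t) (abs_nonneg _))
    (mul_le_mul_of_nonneg_left (h4 t) (abs_nonneg _))

theorem bm_const (c : ℝ) : BM fun _ : X => c := ⟨measurable_const, |c|, fun _ => le_rfl⟩

theorem VL_mul (S : Sys μ) (A : Set X) (L M : Finset ℕ) (t : X) :
    VL S A L t * VL S A M t = VL S A (symmDiff L M) t := by
  unfold VL
  have hsq : (∏ n ∈ L ∩ M, vv A (S.T n t)) * ∏ n ∈ L ∩ M, vv A (S.T n t) = 1 := by
    rw [← Finset.prod_mul_distrib]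
    refine Finset.prod_eq_one fun n _ => ?_
    rcases vv_sign A (S.T n t) with h | h
    · rw [h]; norm_num
    · rw [h]; norm_num
  have h1 : symmDiff L M = (L \ M) ∪ (M \ L) := rfl
  rw [h1, Finset.prod_union disjoint_sdiff_sdiff,
    ← Finset.prod_inter_mul_prod_sdiff L M (fun n => vv A (S.T n t)),
    ← Finset.prod_inter_mul_prod_sdiff M L (fun n => vv A (S.T n t)), Finset.inter_comm M L]
  linear_combination ((∏ n ∈ L \ M, vv A (S.T n t)) * ∏ n ∈ M \ L, vv A (S.T n t)) * hsq

theorem VL_ge (S : Sys μ) (A : Set X) (L M : Finset ℕ) (t : X) :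
    1 * (1 * VL S A L t + 1 * VL S A M t) + (-1) * 1 ≤ VL S A (symmDiff L M) t := by
  rw [← VL_mul]
  rcases VL_sign S A L t with h | h <;> rcases VL_sign S A M t with h' | h' <;> rw [h, h'] <;>
    norm_num

end

end ISb

open ISb in
theorem pr_Sb (hJm : StJm) (hJl : StJl) : StSb := by
  intro X _ μ _ S A hA
  obtain ⟨l1, l2, -, l4⟩ := hJl X _ μ inferInstance S
  refine ⟨?_, ?_⟩
  · intro L M J G H hJ hG hH
    have h1 := l1 _ _ J G 1 1 (bm_VL S hA L) (bm_VL S hA M) hJ hG
    have h2 := l1 _ _ _ _ 1 (-1) (bm_lin 1 1 (bm_VL S hA L) (bm_VL S hA M)) (bm_const 1) h1 (l2 1)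
    have h3 := hJm X _ μ inferInstance S _ _ _ H
      (bm_lin 1 (-1) (bm_lin 1 1 (bm_VL S hA L) (bm_VL S hA M)) (bm_const 1))
      (bm_VL S hA (symmDiff L M)) h2 hH (Eventually.of_forall fun t => VL_ge S A L M t)
    filter_upwards [h3] with t ht
    linarith
  · intro n J G hn hJ hG
    have h1 : VL S A {n} = fun t => vv A (S.T n t) := by
      funext t
      unfold VL
      rw [Finset.prod_singleton]
    have h2 := l4 (vv A) G n hn (bm_vv hA) hG
    rw [← h1] at h2
    have h3 := hJm X _ μ inferInstance S _ _ J G (bm_VL S hA {n}) (bm_VL S hA {n}) hJ h2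
      (Eventually.of_forall fun _ => le_rfl)
    have h4 := hJm X _ μ inferInstance S _ _ G J (bm_VL S hA {n}) (bm_VL S hA {n}) h2 hJ
      (Eventually.of_forall fun _ => le_rfl)
    filter_upwards [h3, h4] with t h5 h6
    exact le_antisymm h5 h6

end Pool.Agent.F0f91f8.SC
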