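import Pool.Agent.Work.MP_0f91f8_co.SC.Stmts

/-!
# Block SC, item Tr: every Pythagorean triple (helper7)
-/

set_option autoImplicit false

namespace Pool.Agent.F0f91f8.SC

open Filter Topology ComplexConjugate MeasureTheory
open Pool.Agent.F0f91f8.HD Pool.Agent.F0f91f8.RC Pool.Agent.F0f91f8.KR Pool.Agent.F0f91f8.FC
open Pool.Agent.F0f91f8.PC
open Pool.Agent.Work.MP_0f91f8_co.EF (GG ev IsFo S_Ev S_Haar S_Fol S_Cnt S_Chr)
open scoped BigOperators

namespace ITr

theorem bm_lin {X : Type} [MeasurableSpace X] {f g : X → ℝ} (hf : BM f) (hg : BM g) (a b : ℝ) :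
    BM (fun t => a * f t + b * g t) := by
  obtain ⟨h1, C1, h2⟩ := hf
  obtain ⟨h3, C2, h4⟩ := hg
  refine ⟨(h1.const_mul a).add (h3.const_mul b), |a| * C1 + |b| * C2, fun t => ?_⟩
  calc |a * f t + b * g t| ≤ |a * f t| + |b * g t| := abs_add_le _ _
    _ = |a| * |f t| + |b| * |g t| := by rw [abs_mul, abs_mul]
    _ ≤ |a| * C1 + |b| * C2 :=
      add_le_add (mul_le_mul_of_nonneg_left (h2 t) (abs_nonneg a))
        (mul_le_mul_of_nonneg_left (h4 t) (abs_nonneg b))

theorem bm_const {X : Type} [MeasurableSpace X] (c : ℝ) : BM (fun _ : X => c) :=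
  ⟨measurable_const, |c|, fun _ => le_rfl⟩

theorem vv_sign {X : Type} (A : Set X) (t : X) :
    (t ∈ A ∧ vv A t = -1) ∨ (t ∉ A ∧ vv A t = 1) := by
  by_cases h : t ∈ A
  · left
    refine ⟨h, ?_⟩
    unfold vv
    rw [Set.indicator_of_mem h]
    norm_num
  · right
    refine ⟨h, ?_⟩
    unfold vv
    rw [Set.indicator_of_notMem h]
    norm_num

theorem bm_vv {X : Type} [MeasurableSpace X] {A : Set X} (hA : MeasurableSet A) : BM (vv A) := by
  refine ⟨?_, 1, fun t => ?_⟩
  · exact measurable_const.sub ((measurable_const.indicator hA).const_mul 2)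
  · rcases vv_sign A t with ⟨_, h⟩ | ⟨_, h⟩ <;> rw [h] <;> norm_num

theorem bm_vvT {X : Type} [MeasurableSpace X] {μ : Measure X} (S : Sys μ) {A : Set X}
    (hA : MeasurableSet A) (n : ℕ) : BM (fun t => vv A (S.T n t)) := by
  obtain ⟨h1, C, h2⟩ := bm_vv hA
  exact ⟨h1.comp (S.T n).measurable, C, fun t => h2 _⟩

theorem bm_VL {X : Type} [MeasurableSpace X] {μ : Measure X} (S : Sys μ) {A : Set X}
    (hA : MeasurableSet A) (L : Finset ℕ) : BM (VL S A L) := by
  refine ⟨Finset.measurable_prod L fun n _ => (bm_vvT S hA n).1, 1, fun t => ?_⟩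
  unfold VL
  rw [Finset.abs_prod]
  refine (Finset.prod_congr rfl fun n _ => ?_).trans Finset.prod_const_one |>.le
  rcases vv_sign A (S.T n t) with ⟨_, h⟩ | ⟨_, h⟩ <;> rw [h] <;> norm_num

end ITr

open ITr

/-- **Tr.** -/
theorem pr_Tr (hId : StId) (hJe : StJe) (hJm : StJm) (hJl : StJl) (hDc : StDc) : StTr := by
  intro X _ μ hμ S A hA hPF a b c ha hb hc hab hac hbc habc J H hJ hH
  obtain ⟨Jab, hJab, -⟩ := hJe X _ μ hμ S (VL S A {a, b}) (bm_VL S hA _)
  obtain ⟨Jac, hJac, -⟩ := hJe X _ μ hμ S (VL S A {a, c}) (bm_VL S hA _)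
  obtain ⟨Jbc, hJbc, -⟩ := hJe X _ μ hμ S (VL S A {b, c}) (bm_VL S hA _)
  obtain ⟨hlin, hcon, -, hshift⟩ := hJl X _ μ hμ S
  have h1 := hlin _ _ _ _ 1 1 (bm_VL S hA _) (bm_VL S hA _) hJab hJac
  have b1 := bm_lin (bm_VL S hA {a, b}) (bm_VL S hA {a, c}) 1 1
  have h2 := hlin _ _ _ _ 1 1 b1 (bm_VL S hA _) h1 hJbc
  have b2 := bm_lin b1 (bm_VL S hA {b, c}) 1 1
  have h3 := hlin _ _ _ _ 1 1 b2 (bm_const 1) h2 (hcon 1)
  have b3 := bm_lin b2 (bm_const (X := X) 1) 1 1
  have h4 := hlin _ _ _ _ 1 (-1) b3 (bm_vvT S hA a) h3 (hshift _ _ a ha (bm_vv hA) hJ)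
  have b4 := bm_lin b3 (bm_vvT S hA a) 1 (-1)
  have h5 := hlin _ _ _ _ 1 (-1) b4 (bm_vvT S hA b) h4 (hshift _ _ b hb (bm_vv hA) hJ)
  have b5 := bm_lin b4 (bm_vvT S hA b) 1 (-1)
  have h6 := hlin _ _ _ _ 1 (-1) b5 (bm_vvT S hA c) h5 (hshift _ _ c hc (bm_vv hA) hJ)
  have b6 := bm_lin b5 (bm_vvT S hA c) 1 (-1)
  have e1 := hJm X _ μ hμ S _ _ _ _ b6 (bm_VL S hA {a, b, c}) h6 hH (by
    filter_upwards [hPF a b c ha hb hc habc] with t ht
    have hva := vv_sign A (S.T a t)
    have hvb := vv_sign A (S.T b t)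
    have hvc := vv_sign A (S.T c t)
    have q1 : VL S A {a, b} t = vv A (S.T a t) * vv A (S.T b t) := by
      unfold VL; rw [Finset.prod_pair hab]
    have q2 : VL S A {a, c} t = vv A (S.T a t) * vv A (S.T c t) := by
      unfold VL; rw [Finset.prod_pair hac]
    have q3 : VL S A {b, c} t = vv A (S.T b t) * vv A (S.T c t) := by
      unfold VL; rw [Finset.prod_pair hbc]
    have q4 : VL S A {a, b, c} t = vv A (S.T a t) * (vv A (S.T b t) * vv A (S.T c t)) := by
      unfold VL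
      rw [Finset.prod_insert (by simp [hab, hac]), Finset.prod_pair hbc]
    have q5 := hId.1 (vv A (S.T a t)) (vv A (S.T b t)) (vv A (S.T c t))
      (hva.elim (fun h => Or.inr h.2) fun h => Or.inl h.2)
      (hvb.elim (fun h => Or.inr h.2) fun h => Or.inl h.2)
      (hvc.elim (fun h => Or.inr h.2) fun h => Or.inl h.2) (by
        rintro ⟨k1, k2, k3⟩
        apply ht
        refine ⟨?_, ?_, ?_⟩
        · rcases hva with h | h
          · exact h.1
          · rw [h.2] at k1; norm_num at k1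
        · rcases hvb with h | h
          · exact h.1
          · rw [h.2] at k2; norm_num at k2
        · rcases hvc with h | h
          · exact h.1
          · rw [h.2] at k3; norm_num at k3)
    rw [q1, q2, q3, q4]
    nlinarith [q5])
  have d1 := hDc X _ μ hμ S A hA hPF {a, b} (by
    intro n hn
    simp only [Finset.mem_insert, Finset.mem_singleton] at hn
    rcases hn with h | h <;> rw [h] <;> assumption) J Jab hJ hJab
  have d2 := hDc X _ μ hμ S A hA hPF {a, c} (by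
    intro n hn
    simp only [Finset.mem_insert, Finset.mem_singleton] at hn
    rcases hn with h | h <;> rw [h] <;> assumption) J Jac hJ hJac
  have d3 := hDc X _ μ hμ S A hA hPF {b, c} (by
    intro n hn
    simp only [Finset.mem_insert, Finset.mem_singleton] at hn
    rcases hn with h | h <;> rw [h] <;> assumption) J Jbc hJ hJbc
  filter_upwards [e1, d1, d2, d3] with t e1 d1 d2 d3
  rw [Finset.card_pair hab] at d1
  rw [Finset.card_pair hac] at d2
  rw [Finset.card_pair hbc] at d3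
  have f1 := (abs_le.1 d1).2
  have f2 := (abs_le.1 d2).2
  have f3 := (abs_le.1 d3).2
  push_cast at f1 f2 f3
  nlinarith [sq_nonneg (Jab t), sq_nonneg (Jac t), sq_nonneg (Jbc t)]

end Pool.Agent.F0f91f8.SC
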