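import Pool.Agent.Work.MP_0f91f8_co.PC.AllV
import Pool.Agent.Work.MP_0f91f8_co.PC.AllP
import Pool.Agent.Work.MP_0f91f8_co.SC.I_Cf
import Pool.Agent.Work.MP_0f91f8_co.SC.I_Dc
import Pool.Agent.Work.MP_0f91f8_co.SC.I_Dn
import Pool.Agent.Work.MP_0f91f8_co.SC.I_Fi
import Pool.Agent.Work.MP_0f91f8_co.SC.I_Id
import Pool.Agent.Work.MP_0f91f8_co.SC.I_Je
import Pool.Agent.Work.MP_0f91f8_co.SC.I_Jl
import Pool.Agent.Work.MP_0f91f8_co.SC.I_Jm
import Pool.Agent.Work.MP_0f91f8_co.SC.I_Kx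
import Pool.Agent.Work.MP_0f91f8_co.SC.I_Lx
import Pool.Agent.Work.MP_0f91f8_co.SC.I_Ly
import Pool.Agent.Work.MP_0f91f8_co.SC.I_Mn
import Pool.Agent.Work.MP_0f91f8_co.SC.I_Nu
import Pool.Agent.Work.MP_0f91f8_co.SC.I_Op
import Pool.Agent.Work.MP_0f91f8_co.SC.I_Ra
import Pool.Agent.Work.MP_0f91f8_co.SC.I_Re
import Pool.Agent.Work.MP_0f91f8_co.SC.I_Rw
import Pool.Agent.Work.MP_0f91f8_co.SC.I_Sb
import Pool.Agent.Work.MP_0f91f8_co.SC.I_Tr
import Pool.Agent.Work.MP_0f91f8_co.SC.I_Wd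

/-!
# Block SC: composition, no hypotheses (helper75)
-/

set_option autoImplicit false

namespace Pool.Agent.F0f91f8.SC

open Pool.Agent.F0f91f8.PC
open Pool.Agent.Work.MP_0f91f8_co.EF

theorem all_Ra : StRa := pr_Ra pr_Re

/-- conditional expectations exist -/
theorem all_Je : StJe := pr_Je Ev_pf Fol_pf (Chr_pf Ev_pf) all_VUn all_SpecS

/-- the kernel -/
theorem all_Kx : StKx := pr_Kx Ev_pf pr_PAv pr_PPt pr_PKp Pool.Agent.F0f91f8.KT.all_Aper3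
  Pool.Agent.F0f91f8.HD.pretStmt

/-- exact independence for the pairs with `x` -/
theorem all_Lx : StLx := pr_Lx Ev_pf pr_Re all_VUn all_SpecS all_Je pr_Jm pr_Op all_Kx all_Nf

/-- positivity for `y, z` -/
theorem all_Ly : StLy := pr_Ly Ev_pf pr_Re all_VUn all_SpecS all_Je pr_Jm all_Nf
  (Pool.Agent.F0f91f8.KT.all_Pos3E 1 one_pos)

theorem all_Wd : StWd := pr_Wd pr_Id

theorem all_Rw : StRw := pr_Rw pr_Id all_Ra pr_Jl all_Lx all_Ly

/-- the dichotomy -/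
theorem all_Dc : StDc := pr_Dc (pr_Dn all_Ra pr_Jl all_Lx all_Wd all_Rw)

theorem all_Sb : StSb := pr_Sb pr_Jm pr_Jl

theorem all_Tr : StTr := pr_Tr pr_Id all_Je pr_Jm pr_Jl all_Dc

/-- ergodic form -/
theorem all_SCX : SCX := pr_Fi all_Je all_Dc all_Sb all_Tr pr_Nu

/-- for means -/
theorem all_SCM : SCM := pr_Mn all_SysS all_VUn all_SCX

/-- the finite form -/
theorem all_SCF : SCF := pr_Cf all_SCM

end Pool.Agent.F0f91f8.SC
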