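import Pool.Agent.Work.MP_0f91f8_co.SC.StmtsK
import Pool.Agent.Work.MP_0f91f8_co.PC.I_PFi

/-!
# Block SC, item Kx: characters different from one disappear for the pairs with `x` (helper79)
-/

set_option autoImplicit false

namespace Pool.Agent.F0f91f8.SC

open Filter Topology ComplexConjugate MeasureTheory
open Pool.Agent.F0f91f8.HD Pool.Agent.F0f91f8.RC Pool.Agent.F0f91f8.KR Pool.Agent.F0f91f8.FC
open Pool.Agent.F0f91f8.PC Pool.Agent.F0f91f8.PC.IPFi
open Pool.Agent.Work.MP_0f91f8_co.EF (GG ev IsFo S_Ev S_Haar S_Fol S_Cnt S_Chr)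
open scoped BigOperators

namespace IKx

/-- the function `1` at positive integers -/
noncomputable def on (n : ℕ) : ℂ := if n = 0 then 0 else 1

theorem on_pos {n : ℕ} (hn : 0 < n) : on n = 1 := by
  unfold on
  rw [if_neg (by omega)]

theorem on_cm : CM on := by
  refine ⟨by simp [on], fun m n => ?_, fun n hn => by rw [on_pos hn, norm_one]⟩
  unfold on
  rcases Nat.eq_zero_or_pos m with h | h
  · simp [h]
  · rcases Nat.eq_zero_or_pos n with h' | h'
    · simp [h']
    · rw [if_neg (by positivity), if_neg (by omega), if_neg (by omega), one_mul]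

theorem cj_cm {f : ℕ → ℂ} (hf : CM f) : CM fun n => conj (f n) := by
  refine ⟨?_, fun m n => ?_, fun n hn => ?_⟩
  · show conj (f 0) = 0
    rw [hf.1, map_zero]
  · show conj (f (m * n)) = conj (f m) * conj (f n)
    rw [hf.2.1, map_mul]
  · show ‖conj (f n)‖ = 1
    rw [Complex.norm_conj, hf.2.2 n hn]

/-- the average depends on the values at positive members -/
theorem av_congr (hAv : StPAv) (w K M : ℕ) (Φ Ψ : ℕ → ℕ → ℕ → ℂ)
    (h : ∀ x y z, 0 < x → 0 < y → 0 < z → Φ x y z = Ψ x y z) :
    AvK 1 w K M Φ = AvK 1 w K M Ψ := by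
  obtain ⟨hAK, hdiff, hmono, -, -, hcst, -⟩ := hAv w K M
  rw [hAK, hAK, ← sub_eq_zero, ← norm_le_zero_iff]
  refine (hdiff _ _).trans ((hmono _ (fun _ _ _ _ => (0 : ℝ)) fun e e' a n ha hn => ?_).trans
    (hcst 0 le_rfl))
  have hκ : 0 < kR 1 w K e := kR_pos w K e
  have hk0 : 0 < kK 1 w K e' := kK_pos w K e'
  have hx : 0 < tX (kR 1 w K e) (kK 1 w K e') a n := by unfold tX; positivity
  have hy : 0 < tY (kR 1 w K e) (kK 1 w K e') a n := by unfold tY; positivity
  have hz : 0 < tZ (kR 1 w K e) (kK 1 w K e') a n := by unfold tZ; positivity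
  rw [h _ _ _ hx hy hz, sub_self, norm_zero]

/-- the first function is aperiodic -/
theorem aper (hA : Aper3) {f1 f2 f3 : ℕ → ℂ} (hf1 : CM f1) (hf2 : CM f2) (hf3 : CM f3)
    (h : Aper f1) {ε : ℝ} (hε : 0 < ε) :
    Nest fun w K M => ‖AvK 1 w K M fun x y z => f1 x * f2 y * f3 z‖ ≤ ε := by
  show ∀ᶠ w in atTop, ∀ᶠ K in atTop, ∀ᶠ M in atTop, _
  refine Eventually.of_forall fun w => ?_
  filter_upwards [eventually_ge_atTop 1] with K hK
  have hD0 : 0 < DR 1 w K := by
    unfold DR
    have := Nat.factorial_pos w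
    positivity
  have h1 : Tendsto (fun M : ℕ => AvK 1 w K M fun x y z => f1 x * f2 y * f3 z)
      atTop (𝓝 0) := by
    have h2 : Tendsto (fun M : ℕ => ∑ e : Fin (w + 1) → Fin K, ∑ e' : Fin (K + 1) → Fin K,
        BxR w.factorial (DR 1 w K) 1 M fun a n =>
          f1 (tX (kR 1 w K e) (kK 1 w K e') a n) * f2 (tY (kR 1 w K e) (kK 1 w K e') a n) *
            f3 (tZ (kR 1 w K e) (kK 1 w K e') a n)) atTop
        (𝓝 (∑ e : Fin (w + 1) → Fin K, ∑ e' : Fin (K + 1) → Fin K, 0)) := by
      refine tendsto_finsetSum _ fun e _ => tendsto_finsetSum _ fun e' _ => ?_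
      exact hA f1 f2 _ hf1 hf2 hf3 (Or.inl h) (kR 1 w K e) (kK 1 w K e') w.factorial (DR 1 w K) 1
        (kR_pos w K e) (kK_pos w K e') (Nat.factorial_pos w) hD0
    simp only [Finset.sum_const_zero] at h2
    have h3 := h2.div_const ((K : ℂ) ^ (w + 1) * (K : ℂ) ^ (K + 1))
    rw [zero_div] at h3
    exact h3
  have h4 := h1.norm
  rw [norm_zero] at h4
  exact (h4.eventually (gt_mem_nhds hε)).mono fun M hM => hM.le

/-- the average over the exponents of `f (kp w K e)` splits off -/
theorem exps {f : ℕ → ℂ} {w K : ℕ} {δ : ℝ}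
    (h : ‖(∑ e : Fin (w + 1) → Fin K, f (kp w K e)) / (K : ℂ) ^ (w + 1)‖ ≤ δ) {B : ℂ}
    (hB : ‖B‖ ≤ 1) :
    ‖(∑ e : Fin (w + 1) → Fin K, f (kp w K e) * B) / (K : ℂ) ^ (w + 1)‖ ≤ δ := by
  rw [← Finset.sum_mul, mul_div_right_comm, norm_mul]
  exact (mul_le_of_le_one_right (norm_nonneg _) hB).trans h

theorem pq {X Y Z c X0 Y0 Z0 : ℂ} (hZ : Z * conj Z = 1) (h1 : ‖Y * conj Z‖ ≤ 1)
    (h2 : ‖c * (X0 * conj Z0)‖ ≤ 1) :
    ‖X * conj Y - c * ((X0 * conj Z0) * conj (Y0 * conj Z0))‖ ≤
      ‖X * conj Z - c * (X0 * conj Z0)‖ + ‖Y * conj Z - Y0 * conj Z0‖ := by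
  have e1 : X * conj Y - c * ((X0 * conj Z0) * conj (Y0 * conj Z0)) =
      (X * conj Z - c * (X0 * conj Z0)) * conj (Y * conj Z) +
        c * (X0 * conj Z0) * conj (Y * conj Z - Y0 * conj Z0) := by
    have e2 : X * conj Y = (X * conj Z) * conj (Y * conj Z) := by
      rw [map_mul, Complex.conj_conj]
      calc X * conj Y = X * conj Y * (Z * conj Z) := by rw [hZ, mul_one]
        _ = _ := by ring
    rw [e2, map_sub]
    ring
  rw [e1]
  refine (norm_add_le _ _).trans ?_
  rw [norm_mul, norm_mul (c * (X0 * conj Z0)), Complex.norm_conj, Complex.norm_conj]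
  exact add_le_add (mul_le_of_le_one_right (norm_nonneg _) h1)
    (mul_le_of_le_one_left (norm_nonneg _) h2)

end IKx

open IKx in
/-- Item Kx. -/
theorem pr_Kx (hEv : S_Ev) (hAv : StPAv) (hPt : StPPt) (hKp : StPKp) (hA : Aper3)
    (hP : PretStmt) : StKx := by
  intro g hg ε hε
  have hf : CM (ev g) := IPFi.cm hEv g
  have hle : ∀ n, ‖ev g n‖ ≤ 1 := fun n => IPFi.ev_le hEv g n
  have hcj : ∀ x z, ‖ev g x * conj (ev g z)‖ ≤ 1 := fun x z => by
    rw [norm_mul, Complex.norm_conj]
    exact mul_le_one₀ (hle x) (norm_nonneg _) (hle z)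
  by_cases hap : Aper (ev g)
  · have h1 := aper hA hf (cj_cm hf) on_cm hap hε
    have h2 := aper hA hf on_cm (cj_cm hf) hap hε
    refine nest_mono (nest_and h1 h2) fun w K M h => ⟨?_, ?_⟩
    · have e1 : (AvK 1 w K M fun x y _ => ev g x * conj (ev g y)) =
          AvK 1 w K M fun x y z => ev g x * conj (ev g y) * on z :=
        av_congr hAv w K M _ _ fun x y z _ _ hz => by rw [on_pos hz, mul_one]
      rw [e1]
      exact h.1
    · have e1 : (AvK 1 w K M fun x _ z => ev g x * conj (ev g z)) =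
          AvK 1 w K M fun x y z => ev g x * on y * conj (ev g z) :=
        av_congr hAv w K M _ _ fun x y z _ hy _ => by rw [on_pos hy, mul_one]
      rw [e1]
      exact h.2
  · have hpr := hP _ hf hap
    obtain ⟨p, hp, hp1⟩ := hEv.2.2.2.1 g hg
    have hδ : 0 < ε / 3 := by positivity
    refine nest_mono (nest_and (hPt _ hf hpr _ hδ) (hKp _ hf ⟨p, hp, hp1⟩ _ hδ))
      fun w K M h => ?_
    obtain ⟨hB, hk⟩ := h
    obtain ⟨hAK, hdiff, hmono, hadd, -, -, hle7, -, hes⟩ := hAv w K M
    have hzz : ∀ n, 0 < n → ev g n * conj (ev g n) = 1 := fun n hn => by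
      rw [Complex.mul_conj, Complex.normSq_eq_norm_sq, hf.2.2 n hn]
      norm_num
    constructor
    · rw [hAK]
      have h1 := (hdiff (fun e e' a n => ev g (tX (kR 1 w K e) (kK 1 w K e') a n) *
          conj (ev g (tY (kR 1 w K e) (kK 1 w K e') a n)))
        (fun e e' a n => ev g (kp w K e) *
          ((ev g (tX w.factorial (kK 1 w K e') a n) *
            conj (ev g (tZ w.factorial (kK 1 w K e') a n))) *
            conj (ev g (tY w.factorial (kK 1 w K e') a n) *
              conj (ev g (tZ w.factorial (kK 1 w K e') a n)))))).trans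
        (hmono _ (fun e e' a n => ‖ev g (tX (kR 1 w K e) (kK 1 w K e') a n) *
            conj (ev g (tZ (kR 1 w K e) (kK 1 w K e') a n)) -
            ev g (kp w K e) * (ev g (tX w.factorial (kK 1 w K e') a n) *
            conj (ev g (tZ w.factorial (kK 1 w K e') a n)))‖ +
          ‖ev g (tY (kR 1 w K e) (kK 1 w K e') a n) *
            conj (ev g (tZ (kR 1 w K e) (kK 1 w K e') a n)) -
            ev g (tY w.factorial (kK 1 w K e') a n) *
            conj (ev g (tZ w.factorial (kK 1 w K e') a n))‖) fun e e' a n ha hn => ?_)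
      · rw [hadd] at h1
        have h2 := hle7 (fun e e' a n => ‖ev g (tX (kR 1 w K e) (kK 1 w K e') a n) *
            conj (ev g (tZ (kR 1 w K e) (kK 1 w K e') a n)) -
            ev g (kp w K e) * (ev g (tX w.factorial (kK 1 w K e') a n) *
            conj (ev g (tZ w.factorial (kK 1 w K e') a n)))‖) (ε / 3) hδ.le
          fun e e' => (hB e e').1
        have h3 := hle7 (fun e e' a n => ‖ev g (tY (kR 1 w K e) (kK 1 w K e') a n) *
            conj (ev g (tZ (kR 1 w K e) (kK 1 w K e') a n)) -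
            ev g (tY w.factorial (kK 1 w K e') a n) *
            conj (ev g (tZ w.factorial (kK 1 w K e') a n))‖) (ε / 3) hδ.le
          fun e e' => (hB e e').2
        have h4 := hes (fun e e' a n => ev g (kp w K e) *
          ((ev g (tX w.factorial (kK 1 w K e') a n) *
            conj (ev g (tZ w.factorial (kK 1 w K e') a n))) *
            conj (ev g (tY w.factorial (kK 1 w K e') a n) *
              conj (ev g (tZ w.factorial (kK 1 w K e') a n))))) (ε / 3) hδ.le
          fun e' a n _ _ => exps hk (by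
            rw [norm_mul, Complex.norm_conj]
            exact mul_le_one₀ (hcj _ _) (norm_nonneg _) (hcj _ _))
        have h5 := norm_sub_norm_le
          (avC w K M fun e e' a n => ev g (tX (kR 1 w K e) (kK 1 w K e') a n) *
            conj (ev g (tY (kR 1 w K e) (kK 1 w K e') a n)))
          (avC w K M fun e e' a n => ev g (kp w K e) *
            ((ev g (tX w.factorial (kK 1 w K e') a n) *
              conj (ev g (tZ w.factorial (kK 1 w K e') a n))) *
              conj (ev g (tY w.factorial (kK 1 w K e') a n) *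
                conj (ev g (tZ w.factorial (kK 1 w K e') a n)))))
        linarith
      · have hκ : 0 < kR 1 w K e := kR_pos w K e
        have hk0 : 0 < kK 1 w K e' := kK_pos w K e'
        have hz : 0 < tZ (kR 1 w K e) (kK 1 w K e') a n := by unfold tZ; positivity
        exact pq (hzz _ hz) (hcj _ _) (by
          rw [norm_mul]
          exact mul_le_one₀ (hle _) (norm_nonneg _) (hcj _ _))
    · rw [hAK]
      have h1 := hdiff (fun e e' a n => ev g (tX (kR 1 w K e) (kK 1 w K e') a n) *
          conj (ev g (tZ (kR 1 w K e) (kK 1 w K e') a n)))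
        (fun e e' a n => ev g (kp w K e) * (ev g (tX w.factorial (kK 1 w K e') a n) *
            conj (ev g (tZ w.factorial (kK 1 w K e') a n))))
      have h2 := hle7 (fun e e' a n => ‖ev g (tX (kR 1 w K e) (kK 1 w K e') a n) *
            conj (ev g (tZ (kR 1 w K e) (kK 1 w K e') a n)) -
            ev g (kp w K e) * (ev g (tX w.factorial (kK 1 w K e') a n) *
            conj (ev g (tZ w.factorial (kK 1 w K e') a n)))‖) (ε / 3) hδ.le
          fun e e' => (hB e e').1
      have h4 := hes (fun e e' a n => ev g (kp w K e) *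
          (ev g (tX w.factorial (kK 1 w K e') a n) *
            conj (ev g (tZ w.factorial (kK 1 w K e') a n)))) (ε / 3) hδ.le
          fun e' a n _ _ => exps hk (hcj _ _)
      have h5 := norm_sub_norm_le
          (avC w K M fun e e' a n => ev g (tX (kR 1 w K e) (kK 1 w K e') a n) *
            conj (ev g (tZ (kR 1 w K e) (kK 1 w K e') a n)))
          (avC w K M fun e e' a n => ev g (kp w K e) *
            (ev g (tX w.factorial (kK 1 w K e') a n) *
              conj (ev g (tZ w.factorial (kK 1 w K e') a n))))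
      linarith

end Pool.Agent.F0f91f8.SC
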