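import Pool.Agent.Work.MP_0f91f8_co.SC.Stmts

/-!
# Block SC, item Wd (helper55): one member of the family
-/

set_option autoImplicit false

namespace Pool.Agent.F0f91f8.SC

open Filter Topology ComplexConjugate MeasureTheory
open Pool.Agent.F0f91f8.HD Pool.Agent.F0f91f8.RC Pool.Agent.F0f91f8.KR Pool.Agent.F0f91f8.FC
open Pool.Agent.F0f91f8.PC
open scoped BigOperators

namespace IWd

variable {X : Type} [MeasurableSpace X] {μ : Measure X}

lemma inv_int (S : Sys μ) (φ g : X → ℝ) (hφ : InvF S φ) (n : ℕ) (hn : 0 < n) :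
    ∫ t, φ t * g (S.T n t) ∂μ = ∫ t, φ t * g t ∂μ := by
  have h1 : ∫ t, φ t * g (S.T n t) ∂μ = ∫ t, φ (S.T n t) * g (S.T n t) ∂μ := by
    refine integral_congr_ae ?_
    filter_upwards [hφ.2 n hn] with t ht
    have ht' : φ (S.T n t) = φ t := ht
    rw [ht']
  rw [h1]
  exact (S.mp n hn).integral_comp' (fun t => φ t * g t)

lemma comm (S : Sys μ) (m n : ℕ) (hm : 0 < m) (hn : 0 < n) (t : X) :
    S.T m (S.T n t) = S.T n (S.T m t) := by
  rw [← S.mul m n hm hn, ← S.mul n m hn hm, Nat.mul_comm]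

lemma vv_sign (A : Set X) (t : X) : vv A t = 1 ∨ vv A t = -1 := by
  unfold vv
  by_cases h : t ∈ A
  · right
    rw [Set.indicator_of_mem h]
    norm_num
  · left
    rw [Set.indicator_of_notMem h]
    norm_num

lemma vv_meas (A : Set X) (hA : MeasurableSet A) : Measurable (vv A) := by
  unfold vv
  exact measurable_const.sub ((measurable_const.indicator hA).const_mul 2)

lemma VL_meas (S : Sys μ) (A : Set X) (hA : MeasurableSet A) (L : Finset ℕ) :
    Measurable (VL S A L) := by
  unfold VL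
  exact Finset.measurable_fun_prod L fun n _ => (vv_meas A hA).comp (S.T n).measurable

lemma VL_sign (S : Sys μ) (A : Set X) (L : Finset ℕ) (t : X) :
    VL S A L t = 1 ∨ VL S A L t = -1 := by
  unfold VL
  refine Finset.prod_induction _ (fun a : ℝ => a = 1 ∨ a = -1) ?_ (Or.inl rfl)
    fun n _ => vv_sign A _
  rintro a b (rfl | rfl) (rfl | rfl) <;> norm_num

lemma abs_sign {a : ℝ} (h : a = 1 ∨ a = -1) : |a| = 1 := by
  rcases h with rfl | rfl <;> norm_num

lemma integ [IsFiniteMeasure μ] (f : X → ℝ) (h : Measurable f) (C : ℝ) (hC : ∀ t, |f t| ≤ C) :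
    Integrable f μ :=
  Integrable.of_bound h.aestronglyMeasurable C
    (Eventually.of_forall fun t => by rw [Real.norm_eq_abs]; exact hC t)

end IWd

open IWd

theorem pr_Wd (hId : StId) : StWd := by
  intro X _ μ _ S A hA L hL φ hφ hφ0 x y z hx hy hz
  obtain ⟨⟨hφm, C, hC⟩, -⟩ := id hφ
  have hVm := VL_meas S A hA L
  have hvm := vv_meas A hA
  rw [← inv_int S φ (VL S A L) hφ z hz]
  have i1 : Integrable (fun t => φ t * (VL S A L (S.T x t) * VL S A L (S.T y t))) μ := by
    refine integ _ (hφm.mul ((hVm.comp (S.T x).measurable).mul (hVm.comp (S.T y).measurable))) C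
      fun t => ?_
    rw [abs_mul, abs_mul, abs_sign (VL_sign S A L _), abs_sign (VL_sign S A L _), mul_one, mul_one]
    exact hC t
  have i2 : Integrable (fun t => φ t * VL S A L (S.T z t)) μ := by
    refine integ _ (hφm.mul (hVm.comp (S.T z).measurable)) C fun t => ?_
    rw [abs_mul, abs_sign (VL_sign S A L _), mul_one]
    exact hC t
  rw [← integral_sub i1 i2]
  obtain ⟨r, hr⟩ : ∃ r : X → ℝ,
      r = fun t => 1 - vv A (S.T x t) * vv A (S.T y t) * vv A (S.T z t) := ⟨_, rfl⟩
  have hrt : ∀ t, r t = 1 - vv A (S.T x t) * vv A (S.T y t) * vv A (S.T z t) :=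
    fun t => by rw [hr]
  have hrm : Measurable r := by
    rw [hr]
    exact measurable_const.sub (((hvm.comp (S.T x).measurable).mul
      (hvm.comp (S.T y).measurable)).mul (hvm.comp (S.T z).measurable))
  have hr2 : ∀ t, |r t| ≤ 2 := by
    intro t
    rw [hrt]
    rcases vv_sign A (S.T x t) with h | h <;> rcases vv_sign A (S.T y t) with h' | h' <;>
      rcases vv_sign A (S.T z t) with h'' | h'' <;> rw [h, h', h''] <;> norm_num
  have i3 : ∀ n ∈ L, Integrable (fun t => φ t * r (S.T n t)) μ := by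
    intro n _
    refine integ _ (hφm.mul (hrm.comp (S.T n).measurable)) (C * 2) fun t => ?_
    rw [abs_mul]
    have hC0 : 0 ≤ C := (abs_nonneg _).trans (hC t)
    exact mul_le_mul (hC t) (hr2 _) (abs_nonneg _) hC0
  refine abs_integral_le_integral_abs.trans ?_
  have h1 : ∫ t, |φ t * (VL S A L (S.T x t) * VL S A L (S.T y t)) -
      φ t * VL S A L (S.T z t)| ∂μ ≤ ∫ t, ∑ n ∈ L, φ t * r (S.T n t) ∂μ := by
    refine integral_mono (i1.sub i2).abs (integrable_finsetSum L i3) fun t => ?_
    have e1 : φ t * (VL S A L (S.T x t) * VL S A L (S.T y t)) - φ t * VL S A L (S.T z t) =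
        φ t * (VL S A L (S.T x t) * VL S A L (S.T y t) - VL S A L (S.T z t)) := by ring
    have e2 := hId.2 L (fun n => vv A (S.T n (S.T x t))) (fun n => vv A (S.T n (S.T y t)))
      (fun n => vv A (S.T n (S.T z t)))
      fun n _ => ⟨vv_sign A _, vv_sign A _, vv_sign A _⟩
    have e3 : ∑ n ∈ L, (1 - vv A (S.T n (S.T x t)) * vv A (S.T n (S.T y t)) *
        vv A (S.T n (S.T z t))) = ∑ n ∈ L, r (S.T n t) := by
      refine Finset.sum_congr rfl fun n hn => ?_
      rw [hrt, comm S n x (hL n hn) hx, comm S n y (hL n hn) hy, comm S n z (hL n hn) hz]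
    change |φ t * (VL S A L (S.T x t) * VL S A L (S.T y t)) - φ t * VL S A L (S.T z t)| ≤
      ∑ n ∈ L, φ t * r (S.T n t)
    rw [e1, abs_mul, abs_of_nonneg (hφ0 t), ← Finset.mul_sum, ← e3]
    exact mul_le_mul_of_nonneg_left e2 (hφ0 t)
  rw [integral_finsetSum L i3] at h1
  rw [Finset.sum_congr rfl fun n hn => inv_int S φ r hφ n (hL n hn), Finset.sum_const,
    nsmul_eq_mul] at h1
  rw [hr] at h1
  exact h1

end Pool.Agent.F0f91f8.SC
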