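import Pool.Agent.Work.MP_0f91f8_co.PC.StmtsV

/-!
# Block SC (MP_0f91f8_co): self-correction, the density threshold 23/47 (helper75)

THEOREM SC. Every set of multiplicative upper Banach density `≥ 23/47 = 0.4893..` contains `x, y, z` with `x² + y² = z²`.

Let `S` be a system, `A` a set with `μ (A/x ∩ A/y ∩ A/z) = 0` for all Pythagorean triples (`PF`), `v = 1 - 2 · 1_A`, `V_L(t) = ∏_{n ∈ L} v(T_n t)` for a finite
set `L`, `J_L` the conditional expectation of `V_L` with respect to the invariant sets (`IsJ`). For members `x, y, z` of the family `AvK` the correlations of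
`f(T_x)`, `g(T_y)` tend to `∫ J_f J_g` (EXACT independence: all characters `≠ 1` disappear), the same for `x, z`, and for `y, z` one has `≥`. So
`r = v(T_x) v(T_y) v(T_z) = 1` outside measure `(3/2)(m - m²)`, `m = J_{1}`, and `V_L(T_x) V_L(T_y) = V_L(T_z)` outside measure `|L| (3/2) (m - m²)`:
`|J_L² - J_L| ≤ 3 |L| (m - m²)`. With `J_{L Δ M} ≥ J_L + J_M - 1` and `J_{a,b,c} ≥ 1 - 3 m - 18 (m - m²)` for EVERY Pythagorean triple this is contradictory if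
`m ≤ 1/47`: a word of three letters with `J ≥ 1/4` has `J > 3/4`, so errors do not accumulate along a suitable derivation from 13 triples (helper54, helper2).

Item `X`: statement `StX`, file `SC/I_X.lean`, theorem `pr_X`, namespace `Pool.Agent.F0f91f8.SC`, hypotheses as said in the docstring (statements only, nobody waits for
anybody). `EF/Ev.lean` (`Ev_pf`): `ev g` is completely multiplicative, of modulus one at `n > 0`.
-/

set_option autoImplicit false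

namespace Pool.Agent.F0f91f8.SC

open Filter Topology ComplexConjugate MeasureTheory
open Pool.Agent.F0f91f8.HD Pool.Agent.F0f91f8.RC Pool.Agent.F0f91f8.KR Pool.Agent.F0f91f8.FC
open Pool.Agent.F0f91f8.PC
open Pool.Agent.Work.MP_0f91f8_co.EF (GG ev IsFo S_Ev S_Haar S_Fol S_Cnt S_Chr)
open scoped BigOperators

/-! ## 1. Definitions -/

/-- the average over the family `AvK`, real values -/
noncomputable def RA (w K M : ℕ) (Φ : ℕ → ℕ → ℕ → ℝ) : ℝ :=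
  (AvK 1 w K M fun x y z => ((Φ x y z : ℝ) : ℂ)).re

section
variable {X : Type} [MeasurableSpace X] {μ : Measure X}

/-- bounded measurable functions -/
def BM (f : X → ℝ) : Prop := Measurable f ∧ ∃ C : ℝ, ∀ t, |f t| ≤ C

/-- invariant functions -/
def InvF (S : Sys μ) (φ : X → ℝ) : Prop :=
  BM φ ∧ ∀ n : ℕ, 0 < n → (fun t => φ (S.T n t)) =ᵐ[μ] φ

/-- `J` is the conditional expectation of `f` with respect to the invariant sets -/
structure IsJ (S : Sys μ) (f J : X → ℝ) : Prop where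
  inv : InvF S J
  int : ∀ φ : X → ℝ, InvF S φ → ∫ t, φ t * f t ∂μ = ∫ t, φ t * J t ∂μ

/-- `-1` on `A`, `1` outside -/
noncomputable def vv (A : Set X) (t : X) : ℝ := 1 - 2 * A.indicator (fun _ => (1 : ℝ)) t

/-- the word of the finite set `L` -/
noncomputable def VL (S : Sys μ) (A : Set X) (L : Finset ℕ) (t : X) : ℝ :=
  ∏ n ∈ L, vv A (S.T n t)

/-- no Pythagorean triple, up to measure zero -/
def PF (S : Sys μ) (A : Set X) : Prop := ∀ x y z : ℕ, 0 < x → 0 < y → 0 < z → x ^ 2 + y ^ 2 = z ^ 2 →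
  ∀ᵐ t ∂μ, ¬(S.T x t ∈ A ∧ S.T y t ∈ A ∧ S.T z t ∈ A)

end

/-! ## 2. The family as a finite convex combination -/

/-- [Re] (EASY) from `pr_BIf` (`PC/I_BIf.lean`, import it): `ι = (Fin (w+1) → Fin K) × (Fin (K+1) → Fin K) × (ℕ × ℕ × ℕ × ℕ)`, `I = univ ×ˢ univ ×ˢ IF w K M`,
`c = 1/(K^(w+1) K^(K+1) |IF|)`, `x = tX (kR 1 w K e) (kK 1 w K e') (aI w i) (nI w i)` and so on (`tXYZ`: these are Pythagorean triples). Unfold `AvK`, use the
formula for `BFK 1 w K M` (which is the inner `BxR`) from `pr_BIf`. -/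
def StRe : Prop := ∀ w K M : ℕ, 0 < K → 0 < M → ∃ (ι : Type) (I : Finset ι) (c : ι → ℝ) (x y z : ι → ℕ),
  (∀ i ∈ I, 0 ≤ c i ∧ 0 < x i ∧ 0 < y i ∧ 0 < z i ∧ x i ^ 2 + y i ^ 2 = z i ^ 2) ∧ ∑ i ∈ I, c i = 1 ∧
  ∀ Φ : ℕ → ℕ → ℕ → ℂ, AvK 1 w K M Φ = ∑ i ∈ I, (c i : ℂ) * Φ (x i) (y i) (z i)

/-- [Ra] (EASY) rules: immediate from `StRe`. (hRe : StRe) -/
def StRa : Prop := ∀ w K M : ℕ, 0 < K → 0 < M →
  (∀ Φ Ψ : ℕ → ℕ → ℕ → ℝ, RA w K M (fun x y z => Φ x y z + Ψ x y z) = RA w K M Φ + RA w K M Ψ) ∧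
  (∀ (a : ℝ) (Φ : ℕ → ℕ → ℕ → ℝ), RA w K M (fun x y z => a * Φ x y z) = a * RA w K M Φ) ∧
  (∀ a : ℝ, RA w K M (fun _ _ _ => a) = a) ∧
  ∀ Φ Ψ : ℕ → ℕ → ℕ → ℝ,
    (∀ x y z : ℕ, 0 < x → 0 < y → 0 < z → x ^ 2 + y ^ 2 = z ^ 2 → Φ x y z ≤ Ψ x y z) →
    RA w K M Φ ≤ RA w K M Ψ

/-! ## 3. Conditional expectations -/

/-- [Je] (MEDIUM, copy of `PC/I_VJ.lean`) existence. `F` = class of `f`; `SpecS` gives `σ`, `V`. For a Foelner sequence `F_j` the averages `f_j(t) = (1/|F_j|) ∑_{a ∈ F_j} f(T_a t)`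
satisfy `‖f_j - V(b1 {1})‖² = ∫ |(1/|F_j|) ∑ ev g a - 1_{1}(g)|² dσ → 0` for EVERY `σ`, `V` (`V.one`, `V.mul`, `S_Chr`), they are real with `|f_j| ≤ C`, so the limit is the class of a
measurable real `J`, `|J| ≤ C` (truncate), the same for all `σ`, `V`; `J ∘ T_n = J` almost everywhere since `U n (V (b1 {1})) = V (b1 {1})` (`ev 1 n = 1`). For an invariant
`φ`: `∫ φ f_j = ∫ φ f` (`φ(t) f(T_a t)` has the same integral as `φ(T_a t) f(T_a t)`, `T_a` preserves `μ`), and the left side tends to `∫ φ J`.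
(hEv : S_Ev) (hFol : S_Fol) (hChr : S_Chr) (hUn : StVUn) (hSp : SpecS) -/
def StJe : Prop := ∀ (X : Type) (_ : MeasurableSpace X) (μ : Measure X) (_ : IsProbabilityMeasure μ)
  (S : Sys μ) (f : X → ℝ), BM f → ∃ J : X → ℝ, IsJ S f J ∧
  ∀ (σ : Measure GG) (_ : IsFiniteMeasure σ) (V : SpV S (bl μ fun t => ((f t : ℝ) : ℂ)) σ),
    (V.V (b1 σ {1}) : X → ℂ) =ᵐ[μ] fun t => ((J t : ℝ) : ℂ)

/-- [Jm] (EASY-MEDIUM) monotonicity (so uniqueness). `N = {t | G t < J t}` is measurable and its indicator function is an invariant function (`J`, `G` are invariant almost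
everywhere). `∫_N (J - G) = ∫_N (f - g) ≤ 0`, but `J - G > 0` on `N`, so `μ N = 0` (`setIntegral_pos_iff_support_of_nonneg_ae` or
`integral_eq_zero_iff_of_nonneg`). -/
def StJm : Prop := ∀ (X : Type) (_ : MeasurableSpace X) (μ : Measure X) (_ : IsProbabilityMeasure μ)
  (S : Sys μ) (f g J G : X → ℝ), BM f → BM g → IsJ S f J → IsJ S g G → (∀ᵐ t ∂μ, f t ≤ g t) →
  ∀ᵐ t ∂μ, J t ≤ G t

/-- [Jl] (EASY) rules. Products of invariant functions are invariant. For the last clause: `∫ φ(t) f(T_n t) = ∫ φ(T_n t) f(T_n t) = ∫ φ f`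
(`(S.mp n hn).integral_comp'`, `T_n` is a measurable equivalence). -/
def StJl : Prop := ∀ (X : Type) (_ : MeasurableSpace X) (μ : Measure X) (_ : IsProbabilityMeasure μ)
  (S : Sys μ),
  (∀ (f g J G : X → ℝ) (a b : ℝ), BM f → BM g → IsJ S f J → IsJ S g G →
    IsJ S (fun t => a * f t + b * g t) (fun t => a * J t + b * G t)) ∧
  (∀ c : ℝ, IsJ S (fun _ => c) (fun _ => c)) ∧
  (∀ φ f J : X → ℝ, BM f → InvF S φ → IsJ S f J → IsJ S (fun t => φ t * f t) (fun t => φ t * J t)) ∧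
  ∀ (f J : X → ℝ) (n : ℕ), 0 < n → BM f → IsJ S f J → IsJ S (fun t => f (S.T n t)) J

/-! ## 4. Limits of correlations -/

/-- [Op] (EASY-MEDIUM, close to `PC/I_BSp.lean`, lemma `IBSp.bl_sum` there) `φ_i = ev (a i) conj (ev (b i)) 1_E` is bounded and measurable, and by `V.mul` (twice)
`U (b i) (V (bl φ_i)) = V (bl (ev (b i) φ_i)) = V (bl (ev (a i) 1_E)) = U (a i) (V (b1 E))` (`ev (b i) conj (ev (b i)) = 1`). As `U (b i)` is an isometry,
`inner (U (b i) G) (U (a i) (V (b1 E))) = inner G (V (bl φ_i))`; the sum is `inner G (V (bl (∑ c i φ_i)))`, at most `‖G‖ ‖bl (∑ c i φ_i)‖` (`V` isometry), and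
`‖bl φ‖² = ∫ ‖φ‖²`. -/
def StOp : Prop := ∀ (X : Type) (_ : MeasurableSpace X) (μ : Measure X) (_ : IsProbabilityMeasure μ)
  (S : Sys μ) (F : Lp ℂ 2 μ) (σ : Measure GG) (_ : IsFiniteMeasure σ) (V : SpV S F σ) (E : Set GG),
  MeasurableSet E → ∀ (ι : Type) (I : Finset ι) (c : ι → ℂ) (a b : ι → ℕ),
  (∀ i ∈ I, 0 < a i ∧ 0 < b i) → ∀ G : Lp ℂ 2 μ,
  ‖∑ i ∈ I, c i * inner ℂ (U S (b i) G) (U S (a i) (V.V (b1 σ E)))‖ ≤
    ‖G‖ * Real.sqrt (∫ g in E, ‖∑ i ∈ I, c i * (ev g (a i) * conj (ev g (b i)))‖ ^ 2 ∂σ)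

/-- THE KERNEL (item `Kx` of `StmtsK.lean`): characters different from `1` disappear for the pairs with `x` -/
def StKx : Prop := ∀ g : GG, g ≠ 1 → ∀ ε : ℝ, 0 < ε → Nest fun w K M =>
  ‖AvK 1 w K M fun x y _ => ev g x * conj (ev g y)‖ ≤ ε ∧
  ‖AvK 1 w K M fun x _ z => ev g x * conj (ev g z)‖ ≤ ε

/-- [Lx] (MEDIUM) exact independence for `x, y` and `x, z`. Let `F`, `H` be the classes of `f`, `g` in `L²`; `∫ f(T_x) g(T_y) = inner (U y H) (U x F)` (real functions; `StVUn`). `SpecS` for `F`: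
`σ`, `V`; `F = F₀ + F₁`, `F₀ = V (b1 {1})`, `F₁ = V (b1 {1}ᶜ)` (`V.one`, `b1 univ = b1 {1} + b1 {1}ᶜ`). `F₀` is the class of `J` (`StJe`; uniqueness `StJm`), invariant, so
`inner (U y H) (U x F₀) = inner (U y H) (U y F₀) = inner H F₀ = ∫ g J = ∫ G J` (`IsJ.int` for `φ = J`). The average of `inner (U y H) (U x F₁)`, written with `StRe`, is by `StOp` with `E = {1}ᶜ` at most
`‖H‖ (∫_E ‖AvK (ev g x conj (ev g y))‖² dσ)^(1/2)`, and by `StKx` and `StNf` (`F w K M g = 1_E(g) ‖AvK ..‖²`, measurable: finite sums of continuous functions; bounded by `1`) this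
is `≤ ε` in the nested limit. The same with `z` in place of `y`.
(hEv : S_Ev) (hRe : StRe) (hUn : StVUn) (hSp : SpecS) (hJe : StJe) (hJm : StJm) (hOp : StOp) (hKx : StKx) (hNf : StNf) -/
def StLx : Prop := ∀ (X : Type) (_ : MeasurableSpace X) (μ : Measure X) (_ : IsProbabilityMeasure μ)
  (S : Sys μ) (f g J G : X → ℝ), BM f → BM g → IsJ S f J → IsJ S g G → ∀ ε : ℝ, 0 < ε →
  Nest fun w K M =>
    |RA w K M (fun x y _ => ∫ t, f (S.T x t) * g (S.T y t) ∂μ) - ∫ t, J t * G t ∂μ| ≤ ε ∧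
    |RA w K M (fun x _ z => ∫ t, f (S.T x t) * g (S.T z t) ∂μ) - ∫ t, J t * G t ∂μ| ≤ ε

/-- [Ly] (MEDIUM, close to `PC/I_VMn.lean`) positivity for `y, z`. `F` = class of `f`, `σ`, `V` from `SpecS`. `∫ f(T_y) f(T_z) = inner (U z F) (U y F) = ∫ ev g y conj (ev g z) dσ`
(`U y F = V (bl (ev y))` by `V.one`, `V.mul`; `V` is an isometry, `L2.inner_def`). So `RA .. = ∫ Re AvK (ev g y conj (ev g z)) dσ(g)`. Let
`F w K M g = 1_{1}(g) - Re AvK 1 w K M (fun x y z => ev g y * conj (ev g z))`: measurable, bounded by `2`, for every `g`: `Nest (F w K M g ≤ ε)` by `hPos` with `f1 = 1` (at positive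
integers, `0` at `0`), `f2 = ev g` (for `g = 1` and `K, M > 0` it is `0`). `StNf`: `Nest (∫ F ≤ ε)`, so `RA .. ≥ σ {1} - ε`, and `σ {1} = ‖V (b1 {1})‖² = ∫ J²` (`StJe`, `StJm`).
(hEv : S_Ev) (hRe : StRe) (hUn : StVUn) (hSp : SpecS) (hJe : StJe) (hJm : StJm) (hNf : StNf)
(hPos : ∀ f1 f2 : ℕ → ℂ, CM f1 → CM f2 → ∀ ε : ℝ, 0 < ε → Nest fun w K M => -ε ≤ (AvK 1 w K M fun x y z => f1 x * f2 y * conj (f1 z * f2 z)).re) -/
def StLy : Prop := ∀ (X : Type) (_ : MeasurableSpace X) (μ : Measure X) (_ : IsProbabilityMeasure μ)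
  (S : Sys μ) (f J : X → ℝ), BM f → IsJ S f J → ∀ ε : ℝ, 0 < ε →
  Nest fun w K M =>
    ∫ t, J t ^ 2 ∂μ - ε ≤ RA w K M (fun _ y z => ∫ t, f (S.T y t) * f (S.T z t) ∂μ)

/-! ## 5. Words -/

/-- [Id] (EASY) identities. First clause: three signs with at most two equal to `-1`. `|∏ r_n - 1| ≤ ∑ (1 - r_n)` for signs `r_n = ± 1` (induction: `|r s - 1| ≤ |r - 1| + |s - 1|`), with
`r_n = u n * v' n * w' n` and `∏ u n * ∏ v' n - ∏ w' n = ∏ w' n * (∏ r_n - 1)`. -/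
def StId : Prop := (∀ a b c : ℝ, (a = 1 ∨ a = -1) → (b = 1 ∨ b = -1) → (c = 1 ∨ c = -1) →
    ¬(a = -1 ∧ b = -1 ∧ c = -1) → a * b * c = 1 + a * b + a * c + b * c - a - b - c) ∧
  ∀ (L : Finset ℕ) (u v' w' : ℕ → ℝ), (∀ n ∈ L, (u n = 1 ∨ u n = -1) ∧ (v' n = 1 ∨ v' n = -1) ∧
    (w' n = 1 ∨ w' n = -1)) →
    |(∏ n ∈ L, u n) * (∏ n ∈ L, v' n) - ∏ n ∈ L, w' n| ≤ ∑ n ∈ L, (1 - u n * v' n * w' n)

/-- [Wd] (EASY-MEDIUM) one member. `T_n (T_x t) = T_(n x) t = T_(x n) t = T_x (T_n t)` (`S.mul`, commutativity). Pointwise by `StId` with `u n = v(T_n (T_x t))`, .. :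
`|V_L(T_x t) V_L(T_y t) - V_L(T_z t)| ≤ ∑_{n ∈ L} (1 - r(T_n t))`, `r(t) = v(T_x t) v(T_y t) v(T_z t)`. Multiply by `φ ≥ 0` and integrate: `∫ φ(t) V_L(T_z t) = ∫ φ V_L` and
`∫ φ(t) (1 - r(T_n t)) = ∫ φ (1 - r)` (invariance of `φ` almost everywhere and of `μ`). (hId : StId) -/
def StWd : Prop := ∀ (X : Type) (_ : MeasurableSpace X) (μ : Measure X) (_ : IsProbabilityMeasure μ)
  (S : Sys μ) (A : Set X), MeasurableSet A → ∀ (L : Finset ℕ), (∀ n ∈ L, 0 < n) → ∀ φ : X → ℝ,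
  InvF S φ → (∀ t, 0 ≤ φ t) → ∀ x y z : ℕ, 0 < x → 0 < y → 0 < z →
  |∫ t, φ t * (VL S A L (S.T x t) * VL S A L (S.T y t)) ∂μ - ∫ t, φ t * VL S A L t ∂μ| ≤
    L.card * ∫ t, φ t * (1 - vv A (S.T x t) * vv A (S.T y t) * vv A (S.T z t)) ∂μ

/-- [Rw] (EASY-MEDIUM) a generic row. By `StId` (first clause; `hPF`) almost everywhere `1 - v_x v_y v_z = v_x + v_y + v_z - v_x v_y - v_x v_z - v_y v_z` for a Pythagorean triple. `φ` is the indicator
function of an invariant set, `φ² = φ`: `∫ φ v_x = ∫ φ v = ∫ φ J` and `∫ φ v_x v_y = ∫ (φ v)(T_x) (φ v)(T_y)`, whose averages tend to `∫ (φ J)² = ∫ φ J²` (`StLx`, `StJl`), the same for `x, z`, and for `y, z` they are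
`≥ ∫ φ J² - ε` (`StLy`). `StRa`. (hId : StId) (hRa : StRa) (hJl : StJl) (hLx : StLx) (hLy : StLy) -/
def StRw : Prop := ∀ (X : Type) (_ : MeasurableSpace X) (μ : Measure X) (_ : IsProbabilityMeasure μ)
  (S : Sys μ) (A : Set X), MeasurableSet A → PF S A → ∀ J : X → ℝ, IsJ S (vv A) J → ∀ φ : X → ℝ,
  InvF S φ → (∀ t, φ t = 0 ∨ φ t = 1) → ∀ ε : ℝ, 0 < ε → Nest fun w K M =>
    RA w K M (fun x y z => ∫ t, φ t * (1 - vv A (S.T x t) * vv A (S.T y t) * vv A (S.T z t)) ∂μ) ≤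
      3 * ∫ t, φ t * (J t - J t ^ 2) ∂μ + ε

/-- [Dn] (EASY-MEDIUM) the dichotomy, integrated. `∫ φ V_L(T_x) V_L(T_y) = ∫ (φ V_L)(T_x) (φ V_L)(T_y)` (`φ² = φ`, invariance), the averages tend to `∫ (φ J_L)² = ∫ φ J_L²` (`StLx`, `StJl`); `∫ φ V_L = ∫ φ J_L`. `StWd` (with
`StRa`: monotone; a `Nest` statement with both inequalities has a witness `w, K, M` with `K, M > 0`) and `StRw`: `|∫ φ J_L² - ∫ φ J_L| ≤ |L| (3 ∫ φ (J - J²) + ε) + ε` for all `ε > 0`.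
(hRa : StRa) (hJl : StJl) (hLx : StLx) (hWd : StWd) (hRw : StRw) -/
def StDn : Prop := ∀ (X : Type) (_ : MeasurableSpace X) (μ : Measure X) (_ : IsProbabilityMeasure μ)
  (S : Sys μ) (A : Set X), MeasurableSet A → PF S A → ∀ (L : Finset ℕ), (∀ n ∈ L, 0 < n) →
  ∀ J JL : X → ℝ, IsJ S (vv A) J → IsJ S (VL S A L) JL → ∀ φ : X → ℝ,
  InvF S φ → (∀ t, φ t = 0 ∨ φ t = 1) →
    |∫ t, φ t * (JL t ^ 2 - JL t) ∂μ| ≤ 3 * L.card * ∫ t, φ t * (J t - J t ^ 2) ∂μ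

/-- [Dc] (EASY-MEDIUM) the dichotomy, pointwise. Apply `StDn` to the indicator functions of `{t | JL² - JL > 3 |L| (J - J²)}` and of `{t | -(JL² - JL) > 3 |L| (J - J²)}` (invariant functions since
`J`, `JL` are): these sets have measure zero (as in `StJm`). (hDn : StDn) -/
def StDc : Prop := ∀ (X : Type) (_ : MeasurableSpace X) (μ : Measure X) (_ : IsProbabilityMeasure μ)
  (S : Sys μ) (A : Set X), MeasurableSet A → PF S A → ∀ (L : Finset ℕ), (∀ n ∈ L, 0 < n) →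
  ∀ J JL : X → ℝ, IsJ S (vv A) J → IsJ S (VL S A L) JL →
    ∀ᵐ t ∂μ, |JL t ^ 2 - JL t| ≤ 3 * L.card * (J t - J t ^ 2)

/-- [Sb] (EASY) products of words. `V_L V_M = V_(L Δ M)` (`v² = 1`; `Finset.prod_symmDiff`-like: split `L`, `M` into `L \ M`, `M \ L`, `L ∩ M`), and `a b ≥ a + b - 1` for signs. `StJl`, `StJm`. Last clause:
`VL S A {n} = v ∘ T_n`. (hJm : StJm) (hJl : StJl) -/
def StSb : Prop := ∀ (X : Type) (_ : MeasurableSpace X) (μ : Measure X) (_ : IsProbabilityMeasure μ)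
  (S : Sys μ) (A : Set X), MeasurableSet A →
  (∀ (L M : Finset ℕ) (J G H : X → ℝ), IsJ S (VL S A L) J → IsJ S (VL S A M) G →
    IsJ S (VL S A (symmDiff L M)) H → ∀ᵐ t ∂μ, J t + G t - 1 ≤ H t) ∧
  ∀ (n : ℕ) (J G : X → ℝ), 0 < n → IsJ S (VL S A {n}) J → IsJ S (vv A) G → ∀ᵐ t ∂μ, J t = G t

/-- [Tr] (EASY-MEDIUM) EVERY Pythagorean triple. `J_ab`, `J_ac`, `J_bc` exist (`StJe`). By `StId` almost everywhere `V_abc = 1 + V_ab + V_ac + V_bc - v_a - v_b - v_c`, so (`StJl`, `StJm` twice: uniqueness)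
`J_abc = 1 + J_ab + J_ac + J_bc - 3 J`, and `J_ab ≥ J_ab² - 6 (J - J²) ≥ -6 (J - J²)` by `StDc` with two letters. (hId : StId) (hJe : StJe) (hJm : StJm) (hJl : StJl) (hDc : StDc) -/
def StTr : Prop := ∀ (X : Type) (_ : MeasurableSpace X) (μ : Measure X) (_ : IsProbabilityMeasure μ)
  (S : Sys μ) (A : Set X), MeasurableSet A → PF S A → ∀ a b c : ℕ, 0 < a → 0 < b → 0 < c →
  a ≠ b → a ≠ c → b ≠ c → a ^ 2 + b ^ 2 = c ^ 2 → ∀ J H : X → ℝ, IsJ S (vv A) J →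
  IsJ S (VL S A {a, b, c}) H → ∀ᵐ t ∂μ, 1 - 3 * J t - 18 * (J t - J t ^ 2) ≤ H t

/-- [Nu] (EASY-MEDIUM) THE CERTIFICATE. `e = m₁ - m₁²`. `L = {1}` in the first hypothesis: `e ≥ 0`, so `0 ≤ m₁ ≤ 1/47` and `e ≤ 46/2209 < 1/48`.
(R3) `|L| = 3`, `m L ≥ 1/4` ⟹ `m L ≥ 3/4`: `m² - m + 3/16 > 0` as `9 e < 3/16`. (R2) `|L| = 2`, `m L ≥ 1/2` ⟹ `m L ≥ 4/5`: `m - m² < 1/8` as `6 e < 1/8`, but `≥ 4/25` on `[1/2, 4/5]`.
Every Pythagorean triple has `m ≥ 1 - 3/47 - 18 · 46/2209 > 1/4`, so `≥ 3/4`. Derivation (the second word of each line is a Pythagorean triple or one derived before; the sets are symmetric differences, `decide`;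
a word of four letters has `m ≥ 3/4 + 3/4 - 1 = 1/2`, one of three letters then `m ≥ 1/2 + 3/4 - 1 = 1/4`, so `≥ 3/4` by (R3)):
`{468,624,780} + {780,1040,1300} → {468,624,1040,1300}`, `+ {624,832,1040} → P = {468,832,1300}`;
`{1296,1995,2379} + {1995,2340,3075} → {1296,2340,2379,3075}`, `+ {429,2340,2379} → {429,1296,3075}`, `+ {1260,2805,3075} → {429,1260,1296,2805}`,
`+ {429,2772,2805} → {1260,1296,2772}`, `+ {1296,2772,3060} → {1260,3060}` (`≥ 1/2`, so `≥ 4/5`), `+ {468,3024,3060} → {468,1260,3024}` (`≥ 4/5 + 3/4 - 1`, so `≥ 3/4`),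
`+ P → {832,1260,1300,3024}`, `+ {320,1260,1300} → {320,832,3024}`, `+ {320,768,832} → {768,3024}` (`≥ 4/5`), `+ {768,3024,3120} → {3120}`, so `m₁ ≥ 4/5 + 3/4 - 1`, absurd. -/
def StNu : Prop := ∀ (m : Finset ℕ → ℝ) (m₁ : ℝ),
  (∀ L : Finset ℕ, (∀ n ∈ L, 0 < n) → |m L ^ 2 - m L| ≤ 3 * L.card * (m₁ - m₁ ^ 2)) →
  (∀ L M : Finset ℕ, (∀ n ∈ L, 0 < n) → (∀ n ∈ M, 0 < n) → m L + m M - 1 ≤ m (symmDiff L M)) →
  (∀ a b c : ℕ, 0 < a → 0 < b → 0 < c → a ≠ b → a ≠ c → b ≠ c → a ^ 2 + b ^ 2 = c ^ 2 →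
    1 - 3 * m₁ - 18 * (m₁ - m₁ ^ 2) ≤ m {a, b, c}) →
  (∀ n : ℕ, 0 < n → m {n} = m₁) → m₁ ≤ 1 / 47 → False

/-! ## 6. The theorem -/

/-- ergodic form -/
def SCX : Prop := ∀ (X : Type) (_ : MeasurableSpace X) (μ : Measure X) (_ : IsProbabilityMeasure μ)
  (S : Sys μ) (A : Set X), MeasurableSet A → PF S A → μ.real A < 23 / 47

/-- [Fi] (EASY-MEDIUM) assembly. Choose `JL` for every finite set `L` of positive integers (`StJe`; `VL S A L` is measurable with `|.| ≤ 1`) and `J` for `vv A`. There are countably many pairs of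
finite sets, so `StDc`, `StSb`, `StTr` hold for all of them outside a set of measure zero (`ae_all_iff`). If `μ A ≥ 23/47`, then `∫ J = ∫ vv A = 1 - 2 μ A ≤ 1/47` (`IsJ.int` with
`φ = 1`), so not almost everywhere `J > 1/47` (`∫ (J - 1/47) > 0` otherwise); take such a `t` with all the inequalities and apply `StNu` to `m L = JL t`, `m₁ = J t` (`m L = 0` or anything for sets
containing `0`). (hJe : StJe) (hDc : StDc) (hSb : StSb) (hTr : StTr) (hNu : StNu) -/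
def StFi : Prop := SCX

/-- for means -/
def SCM : Prop := ∀ m : (ℕ → ℝ) → ℝ, IsMean m → ∀ A : Set ℕ, 23 / 47 ≤ m (ind A) →
  ∃ x y z : ℕ, 0 < x ∧ 0 < y ∧ 0 < z ∧ x ^ 2 + y ^ 2 = z ^ 2 ∧
    0 < m (ind {n | x * n ∈ A ∧ y * n ∈ A ∧ z * n ∈ A})

/-- [Mn] (EASY) `SysS` (with `a = b = c = 1`: `μ.real B = m (ind A)`, `S.T 1` is the identity, `StVUn`; `{n | 1 * n ∈ A ∧ ..} = A`). If all the means of triples are `≤ 0` they are `0` (a mean of a nonnegative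
function is `≥ 0`), so `PF`. (hSy : SysS) (hUn : StVUn) (hX : SCX) -/
def StMn : Prop := SCM

open Classical in
/-- the finite form -/
def SCF : Prop := ∃ (k : ℕ) (δ c : ℝ), 0 < δ ∧ 0 < c ∧ ∀ F : Finset ℕ, F.Nonempty → (∀ n ∈ F, 0 < n) →
  (∀ p ≤ k, p.Prime → (1 - δ) * (F.card : ℝ) ≤ ((F.filter fun n => p * n ∈ F).card : ℝ)) →
  ∀ A : Finset ℕ, A ⊆ F → 23 * F.card ≤ 47 * A.card →
  ∃ x y z : ℕ, 0 < x ∧ 0 < y ∧ 0 < z ∧ x ≤ k ∧ y ≤ k ∧ z ≤ k ∧ x ^ 2 + y ^ 2 = z ^ 2 ∧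
    c * (F.card : ℝ) ≤ ((F.filter fun n => x * n ∈ A ∧ y * n ∈ A ∧ z * n ∈ A).card : ℝ)

/-- [Cf] (MEDIUM) compactness. Suppose `SCF` fails. For every `j` take `k = j`, `δ = c = 1/(j+1)`: `F j`, `A j ⊆ F j` with `23 |F j| ≤ 47 |A j|` and `|{n ∈ F j : x n, y n, z n ∈ A j}| < |F j|/(j+1)` for all Pythagorean
`x, y, z ≤ j`. `F` is a Foelner sequence (`IsFo`: the lemmas of `EF/FinF.lean` after `ulg`). Choose primes `q j`, strictly increasing, `q j > j`, `q j > n` for all `n ∈ F i`, `i ≤ j`. Let `U` be an ultrafilter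
`≤ atTop`, `m f = lim_U (1/|F j|) ∑_{s ∈ F j} f (q j * s)` for bounded `f` (bounded real sequences converge along an ultrafilter; put e.g. `m f = limUnder` or use `XUlm.ulim`): a mean (`IsMean`; invariance because the
numbers of `s ∈ F j` with `k s ∉ F j` are `o(|F j|)` and `s ↦ k s` is injective). `A = {q j * a | j, a ∈ A j}`. For `x ≤ j`, `s ∈ F j`: `x * (q j * s) ∈ A` iff `x * s ∈ A j`: if `x q_j s = q_i a`, `a ∈ A i`, and `i < j`, then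
`q_j ∣ a` (distinct primes), but `0 < a < q_j`; if `i > j`, then `q_i ∣ x s`, but `x, s < q_i` and `q_i` is prime. So `m (ind A) = lim |A j|/|F j| ≥ 23/47` and `m (ind {n | x n, y n, z n ∈ A}) = lim |{s ∈ F j : x s, y s, z s ∈ A j}|/|F j| = 0`, a
contradiction to `SCM`. (hM : SCM) -/
def StCf : Prop := SCF

end Pool.Agent.F0f91f8.SC
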