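import Pool.Agent.Work.MP_0f91f8_co.PC.StmtsP
import Pool.Agent.Work.MP_0f91f8_co.SC.Stmts

/-!
# Block SC, the kernel item (helper75)
-/

set_option autoImplicit false

namespace Pool.Agent.F0f91f8.SC

open Filter Topology ComplexConjugate MeasureTheory
open Pool.Agent.F0f91f8.HD Pool.Agent.F0f91f8.RC Pool.Agent.F0f91f8.KR Pool.Agent.F0f91f8.FC
open Pool.Agent.F0f91f8.PC
open Pool.Agent.Work.MP_0f91f8_co.EF (GG ev IsFo S_Ev S_Haar S_Fol S_Cnt S_Chr)
open scoped BigOperators

/-- [Kx] (MEDIUM) `StKx`. Let `f = ev g`, some `f p ≠ 1` (`S_Ev`). If `f` is not pretentious, it is aperiodic (`PretStmt`, contrapositive), and for fixed `w, K, e, e'` the averages `BxR` over `a, n` tend to `0` as `M → ∞` by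
`Aper3` (`f1 = f`, `f2 = conj f`, `f3 = 1` for `x, y`; `f1 = f`, `f2 = 1`, `f3 = conj f` for `x, z`; here `1` means `1` at positive integers, `0` at `0`; the members are positive); `AvK` is the mean of finitely many of these. If
`f` is pretentious: `f x conj f y = (f x conj f z) conj (f y conj f z)` (`|f z| = 1`), so by `StPPt` it differs from `f (kp w K e) (f x₀ conj f z₀) conj (f y₀ conj f z₀)`, `x₀ = tX w! k a n` etc., in the mean
over `a, n` by at most `2 ε` (all factors have modulus `1`), for all `e, e'`; `StPAv` (second clause: comparison of `avC`; last clause: average over `e` first) and `StPKp`: the mean over `e` of `f (kp w K e)` is small,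
the other factor does not depend on `e` and has modulus `≤ 1`. For `x, z` the same with `f (kp w K e) (f x₀ conj f z₀)`.
(hEv : S_Ev) (hAv : StPAv) (hPt : StPPt) (hKp : StPKp) (hA : Aper3) (hP : PretStmt) -/
def StKxI : Prop := StKx

end Pool.Agent.F0f91f8.SC
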